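import Pool.Agent.LibHyperelliptic.Cohomology

set_option autoImplicit false

noncomputable section

open Matrix

namespace Pool.Agent.LibHyperelliptic

section
variable {n : ℕ}

/-- The class of a cocycle. -/
def H1.mk (a : Surf → EndMat n) (u : Z1 a) : H1 a := Submodule.Quotient.mk u

lemma evalH_mk (a : Surf → EndMat n) (γ : Surf) (D : Matrix (Fin n) (Fin n) ℝ →ₗ[ℝ] ℝ)
    (hD : ∀ X, D (X - a γ X) = 0) (u : Z1 a) : evalH a γ D hD (H1.mk a u) = D (u.1 γ) := rfl

/-- If a set of functionals vanishes at the class of a cocycle `u` which is not a coboundary,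
then it does not span the dual space. -/
lemma span_ne_top (a : Surf → EndMat n) (u : Z1 a) (hu : ¬ IsCobound a u.1)
    (S : Set (Module.Dual ℝ (H1 a))) (hS : ∀ φ ∈ S, φ (H1.mk a u) = 0) :
    Submodule.span ℝ S ≠ ⊤ := by
  intro hspan
  have hzero : ∀ φ ∈ Submodule.span ℝ S, φ (H1.mk a u) = 0 := by
    intro φ hφ
    induction hφ using Submodule.span_induction with
    | mem φ hφ => exact hS φ hφ
    | zero => rfl
    | add φ ψ _ _ h1 h2 => rw [LinearMap.add_apply, h1, h2, add_zero]
    | smul t φ _ h1 => rw [LinearMap.smul_apply, h1, smul_zero]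
  have h0 : H1.mk a u = 0 := by
    rw [← Module.forall_dual_apply_eq_zero_iff ℝ]
    intro φ
    exact hzero φ (by rw [hspan]; exact Submodule.mem_top)
  have h1 : u ∈ BZ a := (Submodule.Quotient.mk_eq_zero (BZ a)).1 h0
  exact hu h1

end

end Pool.Agent.LibHyperelliptic
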