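import Pool.Agent.LibHyperelliptic.PSLDefs
import Pool.Agent.LibHyperelliptic.CohomologyLemmas

set_option autoImplicit false

noncomputable section

open Matrix
open scoped MatrixGroups

namespace Pool.Agent.LibHyperelliptic

lemma Ad_toPSL {n : ℕ} (M : SL(n, ℝ)) : Ad (toPSL n M) = adSL M := rfl

lemma InvFun.sChart_eq {n : ℕ} (f : InvFun n) (M : SL(n, ℝ)) :
    chart f.toFun (toPSL n M) = sChart (fun N => f.toFun (toPSL n N)) M := by
  funext Y
  change f.toFun (toPSL n (unimod n Y) * toPSL n M) = f.toFun (toPSL n (unimod n Y * M))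
  rw [map_mul]

lemma InvFun.conjInv {n : ℕ} (f : InvFun n) : ConjInv fun N => f.toFun (toPSL n N) := by
  intro g h
  simp only [map_mul, map_inv]
  exact f.inv _ _

lemma injPM_of_fuchsian {ρ₀ : Surf →* SL(2, ℝ)} (h : IsFuchsian ρ₀) : InjPM ρ₀ := by
  intro x c hc
  apply h.1
  rw [map_one]
  change toPSL 2 (ρ₀ x) = 1
  apply (QuotientGroup.eq_one_iff _).2
  rw [Matrix.SpecialLinearGroup.mem_center_iff]
  have h1 : (mat (ρ₀ x)).det = 1 := det_mat _
  refine ⟨c, ?_, ?_⟩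
  · rw [hc, Matrix.det_smul, Matrix.det_one, mul_one] at h1
    exact h1
  · change Matrix.scalar (Fin 2) c = mat (ρ₀ x)
    rw [hc, Matrix.smul_one_eq_diagonal]
    rfl

/-- **Main theorem.** For `n ≥ 4` and genus two, the differentials of the functions `f_γ`,
`f` any differentiable conjugation invariant function and `γ` any simple closed curve, do not
span the cotangent space of the Hitchin component at any Fuchsian point. -/
theorem not_spansAt {n : ℕ} (hn : 4 ≤ n) {ρ₀ : Surf →* SL(2, ℝ)} (h : IsFuchsian ρ₀)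
    (F : Set (InvFun n)) : ¬ SpansAt F (irr n ρ₀) := by
  have hρ := injPM_of_fuchsian h
  obtain ⟨D, u, hskew, hcoc, hanti, hint, hne⟩ := exists_cocycle hn ρ₀ hρ
  have hAd : ∀ γ (X : Mn n), adRep (irr n ρ₀) γ X =
      adL n (Matrix.SpecialLinearGroup.toGL (ρ₀ γ)) X := by
    intro γ X
    change adSL (symSL n (ρ₀ γ)) X = _
    rw [adSL_apply, symSL_inv_val, symSL_val]
    rfl
  have hu : IsCocycle (adRep (irr n ρ₀)) u := by
    refine ⟨fun γ => ?_, fun γ η => by rw [hAd]; exact hcoc γ η⟩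
    have h1 := hskew γ
    rw [mem_skew] at h1
    have h2 := trace_starE_eq n (u γ)
    rw [h1, Matrix.trace_neg] at h2
    linarith
  have hnB : ¬ IsCobound (adRep (irr n ρ₀)) u := by
    rintro ⟨X, -, hX⟩
    exact hne ⟨X, fun γ => by rw [← hAd]; exact hX γ⟩
  refine span_ne_top _ (⟨u, hu⟩ : Z1 (adRep (irr n ρ₀))) hnB _ ?_
  rintro φ ⟨f, -, γ, hγ, rfl⟩
  change derivAt f (toPSL n (symSL n (ρ₀ γ))) (u γ) = 0
  have hd := f.diff (toPSL n (symSL n (ρ₀ γ)))
  change fderiv ℝ (chart f.toFun (toPSL n (symSL n (ρ₀ γ)))) 1 (u γ) = 0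
  rw [f.sChart_eq] at hd ⊢
  obtain ⟨E, hE, hEc⟩ := gradient_comm f.conjInv (ρ₀ γ) hd
  rw [hE]
  exact main_zero hρ hskew hcoc hanti hint γ hγ E hEc

theorem not_spanningOn {n : ℕ} (hn : 4 ≤ n) {ρ₀ : Surf →* SL(2, ℝ)} (h : IsFuchsian ρ₀)
    (F : Set (InvFun n)) : ¬ SpanningOn F (Hit n ρ₀) :=
  fun hs => not_spansAt hn h F (hs _ mem_connectedComponent)

end Pool.Agent.LibHyperelliptic
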