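import Pool.Agent.LibHyperelliptic.SurfDefs

set_option autoImplicit false
set_option linter.unusedSimpArgs false

noncomputable section

namespace Pool.Agent.LibHyperelliptic

/-- The surface relation for four elements of a group. -/
def SurfRel {G : Type*} [Group G] (x y z w : G) : Prop :=
  x * y * x⁻¹ * y⁻¹ * (z * w * z⁻¹ * w⁻¹) = 1

lemma surfRel_lift {G : Type*} [Group G] (x y z w : G) (h : SurfRel x y z w) :
    ∀ r ∈ ({relator} : Set (FreeGroup (Fin 4))), FreeGroup.lift ![x, y, z, w] r = 1 := by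
  intro r hr
  rw [Set.mem_singleton_iff] at hr
  subst hr
  simpa [relator, SurfRel] using h

/-- The homomorphism from the surface group determined by a solution of the surface relation. -/
def surfLift {G : Type*} [Group G] (x y z w : G) (h : SurfRel x y z w) : Surf →* G :=
  PresentedGroup.toGroup (f := ![x, y, z, w]) (surfRel_lift x y z w h)

section
variable {G : Type*} [Group G] (x y z w : G) (h : SurfRel x y z w)
@[simp] lemma surfLift_a₁ : surfLift x y z w h a₁ = x := PresentedGroup.toGroup.of _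
@[simp] lemma surfLift_b₁ : surfLift x y z w h b₁ = y := PresentedGroup.toGroup.of _
@[simp] lemma surfLift_a₂ : surfLift x y z w h a₂ = z := PresentedGroup.toGroup.of _
@[simp] lemma surfLift_b₂ : surfLift x y z w h b₂ = w := PresentedGroup.toGroup.of _
end

lemma surf_hom_ext {G : Type*} [Group G] {φ ψ : Surf →* G} (h1 : φ a₁ = ψ a₁)
    (h2 : φ b₁ = ψ b₁) (h3 : φ a₂ = ψ a₂) (h4 : φ b₂ = ψ b₂) : φ = ψ := by
  apply PresentedGroup.ext
  intro i
  fin_cases i
  · exact h1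
  · exact h2
  · exact h3
  · exact h4

lemma surf_rel : SurfRel a₁ b₁ a₂ b₂ := by
  have h : PresentedGroup.mk ({relator} : Set (FreeGroup (Fin 4))) relator = 1 :=
    PresentedGroup.one_of_mem (Set.mem_singleton _)
  exact h

/-- Every subgroup containing the four generators is everything. -/
lemma surf_induction (H : Subgroup Surf) (h1 : a₁ ∈ H) (h2 : b₁ ∈ H) (h3 : a₂ ∈ H)
    (h4 : b₂ ∈ H) (x : Surf) : x ∈ H := by
  have h : Subgroup.closure (Set.range gen) ≤ H := by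
    rw [Subgroup.closure_le]
    rintro _ ⟨i, rfl⟩
    fin_cases i
    · exact h1
    · exact h2
    · exact h3
    · exact h4
  have h' : Subgroup.closure (Set.range gen) = ⊤ := PresentedGroup.closure_range_of _
  rw [h'] at h
  exact h (Subgroup.mem_top x)

/-! ### The Dehn twists and the mapping class group -/

section rel
variable {G : Type*} [Group G] {a b c d : G} (h : SurfRel a b c d)
include h

lemma rel_K : b * a⁻¹ * b⁻¹ * c * d * c⁻¹ = a⁻¹ * d := by
  unfold SurfRel at h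
  calc b * a⁻¹ * b⁻¹ * c * d * c⁻¹ =
      a⁻¹ * (a * b * a⁻¹ * b⁻¹ * (c * d * c⁻¹ * d⁻¹)) * d := by group
    _ = a⁻¹ * d := by rw [h]; group

lemma rel_K' : d * c * d⁻¹ * c⁻¹ = a * b * a⁻¹ * b⁻¹ := by
  unfold SurfRel at h
  calc d * c * d⁻¹ * c⁻¹ = (c * d * c⁻¹ * d⁻¹)⁻¹ := by group
    _ = a * b * a⁻¹ * b⁻¹ := by rw [eq_comm, ← mul_eq_one_iff_eq_inv]; exact h

lemma rel_t1 : SurfRel a (b * a⁻¹) c d := by
  unfold SurfRel at *; rw [← h]; group
lemma rel_t1' : SurfRel a (b * a) c d := by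
  unfold SurfRel at *; rw [← h]; group
lemma rel_t2 : SurfRel (a * b) b c d := by
  unfold SurfRel at *; rw [← h]; group
lemma rel_t2' : SurfRel (a * b⁻¹) b c d := by
  unfold SurfRel at *; rw [← h]; group
lemma rel_t4 : SurfRel a b c (d * c⁻¹) := by
  unfold SurfRel at *; rw [← h]; group
lemma rel_t4' : SurfRel a b c (d * c) := by
  unfold SurfRel at *; rw [← h]; group
lemma rel_t5 : SurfRel a b (c * d) d := by
  unfold SurfRel at *; rw [← h]; group
lemma rel_t5' : SurfRel a b (c * d⁻¹) d := by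
  unfold SurfRel at *; rw [← h]; group
lemma rel_t3 : SurfRel a (a⁻¹ * d * b) (a⁻¹ * d * c) d := by
  have h2 := rel_K h
  unfold SurfRel
  calc _ = d * (b * a⁻¹ * b⁻¹ * c * d * c⁻¹) * d⁻¹ * a * d⁻¹ := by group
      _ = 1 := by rw [h2]; group
lemma rel_t3' : SurfRel a (d⁻¹ * a * b) (d⁻¹ * a * c) d := by
  have h2 := rel_K h
  unfold SurfRel
  calc _ = a * d⁻¹ * a * (b * a⁻¹ * b⁻¹ * c * d * c⁻¹) * a⁻¹ := by group
      _ = 1 := by rw [h2]; group
lemma rel_iota : SurfRel (a * b * a⁻¹ * b⁻¹ * a⁻¹) (a * b⁻¹ * a⁻¹) (d * c⁻¹ * d⁻¹)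
    (d * c * d⁻¹ * c⁻¹ * d⁻¹) := by
  unfold SurfRel at *; rw [← h]; group

end rel

/-- The five endomorphisms `T₁, …, T₅`. -/
def twistHom : Fin 5 → (Surf →* Surf) :=
  ![surfLift a₁ (b₁ * a₁⁻¹) a₂ b₂ (rel_t1 surf_rel),
    surfLift (a₁ * b₁) b₁ a₂ b₂ (rel_t2 surf_rel),
    surfLift a₁ (a₁⁻¹ * b₂ * b₁) (a₁⁻¹ * b₂ * a₂) b₂ (rel_t3 surf_rel),
    surfLift a₁ b₁ a₂ (b₂ * a₂⁻¹) (rel_t4 surf_rel),
    surfLift a₁ b₁ (a₂ * b₂) b₂ (rel_t5 surf_rel)]

/-- Their inverses. -/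
def twistInvHom : Fin 5 → (Surf →* Surf) :=
  ![surfLift a₁ (b₁ * a₁) a₂ b₂ (rel_t1' surf_rel),
    surfLift (a₁ * b₁⁻¹) b₁ a₂ b₂ (rel_t2' surf_rel),
    surfLift a₁ (b₂⁻¹ * a₁ * b₁) (b₂⁻¹ * a₁ * a₂) b₂ (rel_t3' surf_rel),
    surfLift a₁ b₁ a₂ (b₂ * a₂) (rel_t4' surf_rel),
    surfLift a₁ b₁ (a₂ * b₂⁻¹) b₂ (rel_t5' surf_rel)]

/-- The five Dehn twist automorphisms `T₁, …, T₅` of the surface group. They are the twists
along a chain of five simple closed curves, freely homotopic to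
`a₁, b₁, a₁⁻¹ b₂, a₂, b₂`; for instance `T₁` sends `b₁` to `b₁ a₁⁻¹` and fixes the other
generators. -/
def twist (i : Fin 5) : MulAut Surf :=
  MonoidHom.toMulEquiv (twistHom i) (twistInvHom i)
    (by fin_cases i <;> apply surf_hom_ext <;> simp [twistHom, twistInvHom, mul_assoc])
    (by fin_cases i <;> apply surf_hom_ext <;> simp [twistHom, twistInvHom, mul_assoc])

@[simp] lemma twist_apply (i : Fin 5) (x : Surf) : twist i x = twistHom i x := rfl

/-- The five automorphisms exist. -/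
lemma isTwist_twist (i : Fin 5) : IsTwist (twist i) := by
  unfold IsTwist Sends
  fin_cases i <;> simp [twistHom]

/-- There are no others. -/
lemma exists_twist (φ : MulAut Surf) (h : IsTwist φ) : ∃ i, φ = twist i := by
  have key : ∀ (i : Fin 5), Sends φ (twistHom i a₁) (twistHom i b₁) (twistHom i a₂)
      (twistHom i b₂) → φ = twist i := by
    intro i hs
    have : (φ : Surf →* Surf) = twistHom i := surf_hom_ext hs.1 hs.2.1 hs.2.2.1 hs.2.2.2
    ext x
    exact DFunLike.congr_fun this x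
  rcases h with h | h | h | h | h
  · exact ⟨0, key 0 (by simpa [twistHom] using h)⟩
  · exact ⟨1, key 1 (by simpa [twistHom] using h)⟩
  · exact ⟨2, key 2 (by simpa [twistHom] using h)⟩
  · exact ⟨3, key 3 (by simpa [twistHom] using h)⟩
  · exact ⟨4, key 4 (by simpa [twistHom] using h)⟩

/-! ### The hyperelliptic involution -/

/-- The hyperelliptic involution (more precisely, an automorphism representing it). -/
def iota : Surf →* Surf :=
  surfLift (a₁ * b₁ * a₁⁻¹ * b₁⁻¹ * a₁⁻¹) (a₁ * b₁⁻¹ * a₁⁻¹) (b₂ * a₂⁻¹ * b₂⁻¹)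
    (b₂ * a₂ * b₂⁻¹ * a₂⁻¹ * b₂⁻¹) (rel_iota surf_rel)

@[simp] lemma iota_a₁ : iota a₁ = a₁ * b₁ * a₁⁻¹ * b₁⁻¹ * a₁⁻¹ := surfLift_a₁ _ _ _ _ _
@[simp] lemma iota_b₁ : iota b₁ = a₁ * b₁⁻¹ * a₁⁻¹ := surfLift_b₁ _ _ _ _ _
@[simp] lemma iota_a₂ : iota a₂ = b₂ * a₂⁻¹ * b₂⁻¹ := surfLift_a₂ _ _ _ _ _
@[simp] lemma iota_b₂ : iota b₂ = b₂ * a₂ * b₂⁻¹ * a₂⁻¹ * b₂⁻¹ := surfLift_b₂ _ _ _ _ _

/-- `h` witnesses that `φ` commutes with the involution up to an inner automorphism. -/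
def CommIota (φ : Surf →* Surf) (h : Surf) : Prop := ∀ x, iota (φ x) = h * φ (iota x) * h⁻¹

lemma commIota_of_gens (φ : Surf →* Surf) (h : Surf)
    (h1 : iota (φ a₁) = h * φ (iota a₁) * h⁻¹) (h2 : iota (φ b₁) = h * φ (iota b₁) * h⁻¹)
    (h3 : iota (φ a₂) = h * φ (iota a₂) * h⁻¹) (h4 : iota (φ b₂) = h * φ (iota b₂) * h⁻¹) :
    CommIota φ h := by
  have key : iota.comp φ = (MulAut.conj h).toMonoidHom.comp (φ.comp iota) := by
    apply surf_hom_ext
    · simpa using h1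
    · simpa using h2
    · simpa using h3
    · simpa using h4
  intro x
  have := DFunLike.congr_fun key x
  simpa using this

lemma commIota_twist (i : Fin 5) : ∃ h, CommIota (twistHom i) h := by
  fin_cases i
  · refine ⟨1, commIota_of_gens _ _ ?_ ?_ ?_ ?_⟩ <;>
      simp only [twistHom, Fin.zero_eta, Matrix.cons_val_zero, surfLift_a₁, surfLift_b₁,
        surfLift_a₂, surfLift_b₂, iota_a₁, iota_b₁, iota_a₂, iota_b₂, map_mul, map_inv] <;> group
  · refine ⟨1, commIota_of_gens _ _ ?_ ?_ ?_ ?_⟩ <;>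
      simp only [twistHom, Fin.mk_one, Matrix.cons_val_one, Matrix.cons_val_zero, surfLift_a₁,
        surfLift_b₁,
        surfLift_a₂, surfLift_b₂, iota_a₁, iota_b₁, iota_a₂, iota_b₂, map_mul, map_inv] <;> group
  · have hc : iota (a₁⁻¹ * b₂) = a₁ * b₂⁻¹ := by
      have h2 := rel_K' surf_rel
      rw [map_mul, map_inv, iota_a₁, iota_b₂]
      calc _ = a₁ * (a₁ * b₁ * a₁⁻¹ * b₁⁻¹)⁻¹ * (b₂ * a₂ * b₂⁻¹ * a₂⁻¹) * b₂⁻¹ := by group
        _ = a₁ * b₂⁻¹ := by rw [h2]; group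
    refine ⟨a₁ * b₂⁻¹, commIota_of_gens _ _ ?_ ?_ ?_ ?_⟩
    · simp only [twistHom, Fin.reduceFinMk, Matrix.cons_val, surfLift_a₁, surfLift_b₁,
        surfLift_a₂, surfLift_b₂, iota_a₁, iota_b₁, iota_a₂, iota_b₂, map_mul, map_inv]
      group
    · simp only [twistHom, Fin.reduceFinMk, Matrix.cons_val, surfLift_a₁, surfLift_b₁,
        surfLift_a₂, surfLift_b₂]
      rw [map_mul, hc]
      simp only [surfLift_a₁, surfLift_b₁,
        surfLift_a₂, surfLift_b₂, iota_a₁, iota_b₁, iota_a₂, iota_b₂, map_mul, map_inv]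
      group
    · simp only [twistHom, Fin.reduceFinMk, Matrix.cons_val, surfLift_a₁, surfLift_b₁,
        surfLift_a₂, surfLift_b₂]
      rw [map_mul, hc]
      simp only [surfLift_a₁, surfLift_b₁,
        surfLift_a₂, surfLift_b₂, iota_a₁, iota_b₁, iota_a₂, iota_b₂, map_mul, map_inv]
      group
    · simp only [twistHom, Fin.reduceFinMk, Matrix.cons_val, surfLift_a₁, surfLift_b₁,
        surfLift_a₂, surfLift_b₂, iota_a₁, iota_b₁, iota_a₂, iota_b₂, map_mul, map_inv]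
      group
  · refine ⟨1, commIota_of_gens _ _ ?_ ?_ ?_ ?_⟩ <;>
      simp only [twistHom, Fin.reduceFinMk, Matrix.cons_val, surfLift_a₁, surfLift_b₁,
        surfLift_a₂, surfLift_b₂, iota_a₁, iota_b₁, iota_a₂, iota_b₂, map_mul, map_inv] <;> group
  · refine ⟨1, commIota_of_gens _ _ ?_ ?_ ?_ ?_⟩ <;>
      simp only [twistHom, Fin.reduceFinMk, Matrix.cons_val, surfLift_a₁, surfLift_b₁,
        surfLift_a₂, surfLift_b₂, iota_a₁, iota_b₁, iota_a₂, iota_b₂, map_mul, map_inv] <;> group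

lemma commIota_mcg (φ : MulAut Surf) (hφ : φ ∈ mcg) :
    ∃ h, ∀ x, iota (φ x) = h * φ (iota x) * h⁻¹ := by
  refine Subgroup.closure_induction (p := fun (φ : MulAut Surf) _ =>
    ∃ h, ∀ x, iota (φ x) = h * φ (iota x) * h⁻¹) ?_ ?_ ?_ ?_ hφ
  · rintro φ (⟨g, rfl⟩ | hφ')
    · refine ⟨iota g * g⁻¹, fun x => ?_⟩
      simp only [MulAut.conj_apply, map_mul, map_inv]
      group
    · obtain ⟨i, rfl⟩ := exists_twist φ hφ'
      obtain ⟨h, hh⟩ := commIota_twist i
      exact ⟨h, hh⟩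
  · exact ⟨1, fun x => by simp⟩
  · rintro φ ψ _ _ ⟨h, hh⟩ ⟨k, hk⟩
    refine ⟨h * φ k, fun x => ?_⟩
    rw [MulAut.mul_apply, hh, hk, MulAut.mul_apply]
    simp only [map_mul, map_inv]
    group
  · rintro φ _ ⟨h, hh⟩
    refine ⟨φ⁻¹ h⁻¹, fun x => ?_⟩
    have h1 := hh (φ⁻¹ x)
    rw [MulAut.apply_inv_self] at h1
    apply φ.injective
    simp only [map_mul, map_inv, MulAut.apply_inv_self, h1]
    group

/-- The hyperelliptic involution sends every simple closed curve to itself up to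
orientation. -/
lemma iota_simple (γ : Surf) (hγ : IsSimple γ) :
    ∃ h, iota γ = h * γ * h⁻¹ ∨ iota γ = h * γ⁻¹ * h⁻¹ := by
  obtain ⟨φ, hφ, h⟩ := hγ
  obtain ⟨k, hk⟩ := commIota_mcg φ hφ
  rcases h with rfl | rfl | rfl
  · exact ⟨1, Or.inl (by simp)⟩
  · refine ⟨k * φ (a₁ * b₁), Or.inr ?_⟩
    rw [hk, iota_a₁]
    simp only [map_mul, map_inv]
    group
  · refine ⟨k, Or.inl ?_⟩
    rw [hk]
    congr 2
    simp only [map_mul, map_inv, iota_a₁, iota_b₁]
    group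

/-! ### Some finite and cyclic quotients -/

lemma a₂_pow_ne (k : ℕ) (hk : k ≠ 0) : a₂ ^ k ≠ 1 := by
  intro h
  have hr : SurfRel (1 : Multiplicative ℤ) 1 (Multiplicative.ofAdd 1) 1 := by
    unfold SurfRel; simp
  have h2 : (Multiplicative.ofAdd (1 : ℤ)) ^ k = 1 := by
    have := congrArg (surfLift (1 : Multiplicative ℤ) 1 (Multiplicative.ofAdd 1) 1 hr) h
    rw [MonoidHom.map_pow, surfLift_a₂, MonoidHom.map_one] at this
    exact this
  have h3 := congrArg Multiplicative.toAdd h2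
  simp at h3
  exact hk h3

lemma b₂_pow_ne (k : ℕ) (hk : k ≠ 0) : b₂ ^ k ≠ 1 := by
  intro h
  have hr : SurfRel (1 : Multiplicative ℤ) 1 1 (Multiplicative.ofAdd 1) := by
    unfold SurfRel; simp
  have h2 : (Multiplicative.ofAdd (1 : ℤ)) ^ k = 1 := by
    have := congrArg (surfLift (1 : Multiplicative ℤ) 1 1 (Multiplicative.ofAdd 1) hr) h
    rw [MonoidHom.map_pow, surfLift_b₂, MonoidHom.map_one] at this
    exact this
  have h3 := congrArg Multiplicative.toAdd h2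
  simp at h3
  exact hk h3

/-- Two explicit permutations. -/
def sP : Equiv.Perm (Fin 5) := ⟨![1, 2, 3, 4, 0], ![4, 0, 1, 2, 3], by decide, by decide⟩
/-- Two explicit permutations. -/
def tP : Equiv.Perm (Fin 5) := ⟨![1, 2, 0, 3, 4], ![2, 0, 1, 3, 4], by decide, by decide⟩

/-- The double commutator `[[a, b], [a, b⁻¹]]`. -/
def dbl {G : Type*} [Group G] (a b : G) : G :=
  (a * b * a⁻¹ * b⁻¹) * (a * b⁻¹ * a⁻¹ * b) * (a * b * a⁻¹ * b⁻¹)⁻¹ * (a * b⁻¹ * a⁻¹ * b)⁻¹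

lemma dbl_perm_ne : dbl sP tP ≠ 1 := by
  intro h
  have h1 : dbl sP tP 0 ≠ 0 ∨ dbl sP tP 1 ≠ 1 ∨ dbl sP tP 2 ≠ 2 := by decide
  rw [h] at h1
  simp at h1

lemma dbl_ne_one₁ : dbl a₁ b₁ ≠ 1 := by
  intro h
  have hr : SurfRel sP tP tP sP := by unfold SurfRel; group
  have h2 := congrArg (surfLift sP tP tP sP hr) h
  simp only [dbl, map_mul, map_inv, surfLift_a₁, surfLift_b₁, map_one] at h2
  exact dbl_perm_ne h2

lemma dbl_ne_one₂ : dbl a₂ b₂ ≠ 1 := by
  intro h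
  have hr : SurfRel tP sP sP tP := by unfold SurfRel; group
  have h2 := congrArg (surfLift tP sP sP tP hr) h
  simp only [dbl, map_mul, map_inv, surfLift_a₂, surfLift_b₂, map_one] at h2
  exact dbl_perm_ne h2

end Pool.Agent.LibHyperelliptic
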