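import Pool.Agent.LibHyperelliptic.Fuchsian

set_option autoImplicit false

noncomputable section

open Matrix
open scoped MatrixGroups

namespace Pool.Agent.LibHyperelliptic

lemma hexRho_order (x : Surf) : ∃ X Y Z W : ℤ, mat (hexRho x) = qm X Y Z W := by
  let H : Subgroup Surf :=
    { carrier := {x | ∃ X Y Z W : ℤ, mat (hexRho x) = qm X Y Z W}
      mul_mem' := by
        rintro x y ⟨X, Y, Z, W, h⟩ ⟨X', Y', Z', W', h'⟩
        exact ⟨_, _, _, _, by rw [map_mul, map_mul, h, h', qm_mul]⟩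
      one_mem' := ⟨1, 0, 0, 0, by rw [map_one, map_one, qm_one]⟩
      inv_mem' := by
        rintro x ⟨X, Y, Z, W, h⟩
        exact ⟨_, _, _, _, by rw [map_inv, mat_inv, h, qm_adj]⟩ }
  refine surf_induction H ?_ ?_ ?_ ?_ x
  · exact ⟨_, _, _, _, by rw [hexRho, surfLift_a₁, mat_hA₁]⟩
  · exact ⟨_, _, _, _, by rw [hexRho, surfLift_b₁, mat_hB₁]⟩
  · exact ⟨_, _, _, _, by rw [hexRho, surfLift_a₂, mat_hA₂]⟩
  · exact ⟨_, _, _, _, by rw [hexRho, surfLift_b₂, mat_hB₂]⟩

lemma mem_center_scalar {g : SL(2, ℝ)} (hg : g ∈ Subgroup.center SL(2, ℝ)) :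
    ∃ c : ℝ, c * c = 1 ∧ mat g = c • 1 := by
  obtain ⟨c, hc, h⟩ := Matrix.SpecialLinearGroup.mem_center_iff.1 hg
  rw [Fintype.card_fin] at hc
  refine ⟨c, by linarith [sq c], ?_⟩
  change (g : M2) = c • 1
  rw [← h, Matrix.smul_one_eq_diagonal]
  rfl

/-- An integer `X` with `|c X - 1| < 1/2`, where `c = ±1`, equals `c`. -/
lemma int_eq_of_near {c : ℝ} (hc : c * c = 1) {X : ℤ} (h : |c * X - 1| < 1) :
    (X : ℝ) = c := by
  rw [abs_lt] at h
  have h1 : c = 1 ∨ c = -1 := by
    have : (c - 1) * (c + 1) = 0 := by linarith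
    rcases mul_eq_zero.1 this with h | h
    · left; linarith
    · right; linarith
  rcases h1 with rfl | rfl
  · have h2 : (0 : ℝ) < X := by linarith
    have h3 : (X : ℝ) < 2 := by linarith
    have h2' : 0 < X := by exact_mod_cast h2
    have h3' : X < 2 := by exact_mod_cast h3
    have : X = 1 := by omega
    rw [this]; norm_num
  · have h2 : (X : ℝ) < 0 := by linarith
    have h3 : (-2 : ℝ) < X := by linarith
    have h2' : X < 0 := by exact_mod_cast h2
    have h3' : -2 < X := by exact_mod_cast h3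
    have : X = -1 := by omega
    rw [this]; norm_num

lemma int_eq_zero_of_near {c : ℝ} (hc : c * c = 1) {X : ℤ} (h : |c * X| < 1) : X = 0 := by
  have h1 : |c| = 1 := by
    have h2 : |c| * |c| = 1 := by rw [← abs_mul, hc, abs_one]
    have h3 := abs_nonneg c
    nlinarith
  rw [abs_mul, h1, one_mul, abs_lt] at h
  have h2' : -1 < X := by exact_mod_cast h.1
  have h3' : X < 1 := by exact_mod_cast h.2
  omega

/-- The neighbourhood of the identity. -/
def nbhd : Set SL(2, ℝ) :=
  {g | |mat g 0 0 - 1| < 1 / 2 ∧ |mat g 1 1 - 1| < 1 / 2 ∧ |mat g 0 1| < 1 / 2 ∧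
    |mat g 1 0| < 1 / 2}

lemma continuous_mat (i j : Fin 2) : Continuous fun g : SL(2, ℝ) => mat g i j := by
  have h : Continuous fun g : SL(2, ℝ) => mat g := continuous_subtype_val
  exact (continuous_apply_apply i j).comp h

lemma isOpen_nbhd : IsOpen nbhd := by
  have h1 := continuous_mat 0 0
  have h2 := continuous_mat 1 1
  have h3 := continuous_mat 0 1
  have h4 := continuous_mat 1 0
  have o1 : IsOpen {g : SL(2, ℝ) | |mat g 0 0 - 1| < 1 / 2} :=
    isOpen_lt (h1.sub continuous_const).abs continuous_const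
  have o2 : IsOpen {g : SL(2, ℝ) | |mat g 1 1 - 1| < 1 / 2} :=
    isOpen_lt (h2.sub continuous_const).abs continuous_const
  have o3 : IsOpen {g : SL(2, ℝ) | |mat g 0 1| < 1 / 2} := isOpen_lt h3.abs continuous_const
  have o4 : IsOpen {g : SL(2, ℝ) | |mat g 1 0| < 1 / 2} := isOpen_lt h4.abs continuous_const
  exact o1.inter (o2.inter (o3.inter o4))

lemma order_near {c : ℝ} (hc : c * c = 1) {X Y Z W : ℤ} {v : M2}
    (hv : v = c • qm X Y Z W) (h1 : |v 0 0 - 1| < 1 / 2) (h2 : |v 1 1 - 1| < 1 / 2)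
    (h3 : |v 0 1| < 1 / 2) (h4 : |v 1 0| < 1 / 2) : qm X Y Z W = c • 1 := by
  have hr := r3_gt
  have e1 : v 0 0 = c * (X + Y * r3) := by rw [hv]; simp [qm]
  have e2 : v 1 1 = c * (X - Y * r3) := by rw [hv]; simp [qm]
  have e3 : v 0 1 = c * (Z + W * r3) := by rw [hv]; simp [qm]
  have e4 : v 1 0 = c * (-Z + W * r3) := by rw [hv]; simp [qm]
  rw [e1] at h1
  rw [e2] at h2
  rw [e3] at h3
  rw [e4] at h4
  rw [abs_lt] at h1 h2 h3 h4
  have hX : (X : ℝ) = c := by
    apply int_eq_of_near hc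
    rw [abs_lt]
    constructor <;> nlinarith
  have hY : Y = 0 := by
    apply int_eq_zero_of_near hc
    have h5 : |c * Y * r3| < 1 := by
      rw [abs_lt]
      constructor <;> nlinarith
    rw [abs_mul, abs_of_pos r3_pos] at h5
    nlinarith [abs_nonneg (c * (Y : ℝ))]
  have hW : W = 0 := by
    apply int_eq_zero_of_near hc
    have h5 : |c * W * r3| < 1 := by
      rw [abs_lt]
      constructor <;> nlinarith
    rw [abs_mul, abs_of_pos r3_pos] at h5
    nlinarith [abs_nonneg (c * (W : ℝ))]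
  have hZ : Z = 0 := by
    apply int_eq_zero_of_near hc
    rw [abs_lt]
    constructor <;> nlinarith
  subst hY hW hZ
  ext i j
  fin_cases i <;> fin_cases j <;> simp [qm, hX]

/-- Existence of a Fuchsian representation. -/
theorem hexRho_fuchsian : IsFuchsian hexRho := by
  have hker : ∀ x, toPSL 2 (hexRho x) = 1 → x = 1 := by
    intro x hx
    have hx' : hexRho x ∈ Subgroup.center SL(2, ℝ) := (QuotientGroup.eq_one_iff _).1 hx
    obtain ⟨c, -, hc⟩ := mem_center_scalar hx'
    exact hexRho_inj x c hc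
  refine ⟨(injective_iff_map_eq_one _).2 hker, ?_⟩
  have hsub : DiscreteTopology ((QuotientGroup.mk' (Subgroup.center SL(2, ℝ))).comp hexRho).range := by
    apply discreteTopology_of_isOpen_singleton_one
    rw [isOpen_induced_iff]
    refine ⟨(fun g : SL(2, ℝ) => (g : PSL(2, ℝ))) '' nbhd,
      QuotientGroup.isOpenMap_coe _ isOpen_nbhd, ?_⟩
    ext ⟨p, x, rfl⟩
    constructor
    · rintro ⟨v, hv, hvx⟩
      rw [Set.mem_singleton_iff]
      apply Subtype.ext
      change toPSL 2 (hexRho x) = 1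
      have h1 : v⁻¹ * hexRho x ∈ Subgroup.center SL(2, ℝ) := QuotientGroup.eq.1 hvx
      obtain ⟨c, hc2, hc⟩ := mem_center_scalar h1
      obtain ⟨X, Y, Z, W, hq⟩ := hexRho_order x
      have h2 : mat (hexRho x) = c • mat v := by
        calc mat (hexRho x) = mat (v * (v⁻¹ * hexRho x)) := by rw [mul_inv_cancel_left]
          _ = c • mat v := by rw [map_mul, hc, Matrix.mul_smul, Matrix.mul_one]
      have h3 : mat v = c • qm X Y Z W := by
        rw [← hq, h2, smul_smul, hc2, one_smul]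
      have h4 := order_near hc2 h3 hv.1 hv.2.1 hv.2.2.1 hv.2.2.2
      have h5 : x = 1 := hexRho_inj x c (by rw [hq]; exact h4)
      rw [h5, map_one, map_one]
    · intro h
      rw [Set.mem_singleton_iff] at h
      have h1 : toPSL 2 (hexRho x) = 1 := congrArg Subtype.val h
      refine ⟨1, ?_, ?_⟩
      · simp [nbhd, map_one]
      · exact h1.symm
  exact hsub

end Pool.Agent.LibHyperelliptic
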