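import Pool.Agent.LibHyperelliptic.AdSL

set_option autoImplicit false

noncomputable section

open Matrix
open scoped MatrixGroups

namespace Pool.Agent.LibHyperelliptic

lemma adSL_apply {n : ℕ} (M : SL(n, ℝ)) (X : Matrix (Fin n) (Fin n) ℝ) :
    adSL M X = (M : Matrix (Fin n) (Fin n) ℝ) * X *
      ((M⁻¹ : SL(n, ℝ)) : Matrix (Fin n) (Fin n) ℝ) :=
  LinearMap.mulLeftRight_apply _ _ _

lemma adSL_mul {n : ℕ} (M N : SL(n, ℝ)) (X : Matrix (Fin n) (Fin n) ℝ) :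
    adSL (M * N) X = adSL M (adSL N X) := by
  have h1 : (((M * N)⁻¹ : SL(n, ℝ)) : Matrix (Fin n) (Fin n) ℝ) =
      ((N⁻¹ : SL(n, ℝ)) : Matrix (Fin n) (Fin n) ℝ) *
        ((M⁻¹ : SL(n, ℝ)) : Matrix (Fin n) (Fin n) ℝ) :=
    congrArg Subtype.val (_root_.mul_inv_rev M N)
  rw [adSL_apply, adSL_apply, adSL_apply, h1]
  change (M : Matrix (Fin n) (Fin n) ℝ) * (N : Matrix (Fin n) (Fin n) ℝ) * X * _ = _
  simp only [Matrix.mul_assoc]

lemma adSL_center {n : ℕ} (M : SL(n, ℝ)) (hM : M ∈ Subgroup.center SL(n, ℝ)) :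
    adSL M = LinearMap.id := by
  obtain ⟨r, -, hr⟩ := Matrix.SpecialLinearGroup.mem_center_iff.1 hM
  have h1 : (M : Matrix (Fin n) (Fin n) ℝ) * ((M⁻¹ : SL(n, ℝ)) : Matrix (Fin n) (Fin n) ℝ) = 1 :=
    congrArg Subtype.val (mul_inv_cancel M)
  apply LinearMap.ext
  intro X
  rw [adSL_apply]
  have h2 : (M : Matrix (Fin n) (Fin n) ℝ) * X = X * (M : Matrix (Fin n) (Fin n) ℝ) := by
    rw [← hr]
    exact (Matrix.scalar_commute r (fun r' => Commute.all r r') X).eq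
  rw [h2, Matrix.mul_assoc, h1, Matrix.mul_one]
  rfl

lemma adSL_wd {n : ℕ} (M N : SL(n, ℝ))
    (h : (QuotientGroup.leftRel (Subgroup.center SL(n, ℝ))) M N) : adSL M = adSL N := by
  have h1 : M⁻¹ * N ∈ Subgroup.center SL(n, ℝ) := QuotientGroup.leftRel_apply.1 h
  apply LinearMap.ext
  intro X
  have h2 : adSL (M * (M⁻¹ * N)) X = adSL M X := by
    rw [adSL_mul, adSL_center _ h1]; rfl
  rw [← h2, mul_inv_cancel_left]

end Pool.Agent.LibHyperelliptic
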