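import Pool.Agent.LibHyperelliptic.Cohomology

set_option autoImplicit false

noncomputable section

open Matrix
open scoped MatrixGroups

namespace Pool.Agent.LibHyperelliptic

/-- The adjoint action of an element of `SL(n, ℝ)`: the map `X ↦ M X M⁻¹`. -/
def adSL {n : ℕ} (M : SL(n, ℝ)) : EndMat n := LinearMap.mulLeftRight ℝ (M.1, (M⁻¹).1)

end Pool.Agent.LibHyperelliptic
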