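import Pool.Agent.LibHyperelliptic.Handle

set_option autoImplicit false

noncomputable section

open Matrix Module
open scoped MatrixGroups

namespace Pool.Agent.LibHyperelliptic

/-! ### The adjoint action -/

/-- The action of `GL₂` on `n × n` matrices. -/
def adL (n : ℕ) (g : M2ˣ) : Mn n ≃ₗ[ℝ] Mn n where
  toFun Y := symM n (g : M2) * Y * symM n ((g⁻¹ : M2ˣ) : M2)
  map_add' X Y := by simp [Matrix.mul_add, Matrix.add_mul]
  map_smul' t X := by simp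
  invFun Y := symM n ((g⁻¹ : M2ˣ) : M2) * Y * symM n (g : M2)
  left_inv Y := by
    have h : symM n ((g⁻¹ : M2ˣ) : M2) * symM n (g : M2) = 1 := by
      rw [← symM_mul, Units.inv_mul, symM_one]
    calc _ = (symM n ((g⁻¹ : M2ˣ) : M2) * symM n (g : M2)) * Y *
        (symM n ((g⁻¹ : M2ˣ) : M2) * symM n (g : M2)) := by simp only [Matrix.mul_assoc]
      _ = Y := by rw [h, Matrix.one_mul, Matrix.mul_one]
  right_inv Y := by
    have h : symM n (g : M2) * symM n ((g⁻¹ : M2ˣ) : M2) = 1 := by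
      rw [← symM_mul, Units.mul_inv, symM_one]
    calc _ = (symM n (g : M2) * symM n ((g⁻¹ : M2ˣ) : M2)) * Y *
        (symM n (g : M2) * symM n ((g⁻¹ : M2ˣ) : M2)) := by simp only [Matrix.mul_assoc]
      _ = Y := by rw [h, Matrix.one_mul, Matrix.mul_one]

lemma adL_apply (n : ℕ) (g : M2ˣ) (Y : Mn n) :
    adL n g Y = symM n (g : M2) * Y * symM n ((g⁻¹ : M2ˣ) : M2) := rfl

lemma symM_mul_inv (n : ℕ) (g : M2ˣ) : symM n (g : M2) * symM n ((g⁻¹ : M2ˣ) : M2) = 1 := by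
  rw [← symM_mul, Units.mul_inv, symM_one]

lemma symM_inv_mul (n : ℕ) (g : M2ˣ) : symM n ((g⁻¹ : M2ˣ) : M2) * symM n (g : M2) = 1 := by
  rw [← symM_mul, Units.inv_mul, symM_one]

lemma adL_mul (n : ℕ) (g h : M2ˣ) (Y : Mn n) : adL n (g * h) Y = adL n g (adL n h Y) := by
  simp only [adL_apply, Units.val_mul, _root_.mul_inv_rev, symM_mul, Matrix.mul_assoc]

lemma adL_one (n : ℕ) (Y : Mn n) : adL n 1 Y = Y := by
  simp [adL_apply, symM_one]

lemma adL_inv_self (n : ℕ) (g : M2ˣ) (Y : Mn n) : adL n g⁻¹ (adL n g Y) = Y := by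
  rw [← adL_mul, inv_mul_cancel, adL_one]

lemma adL_self_inv (n : ℕ) (g : M2ˣ) (Y : Mn n) : adL n g (adL n g⁻¹ Y) = Y := by
  rw [← adL_mul, mul_inv_cancel, adL_one]

/-- A unit is scalar. -/
def IsSc (s : M2ˣ) : Prop := ∃ t : ℝ, (s : M2) = t • 1

lemma adL_scalar (n : ℕ) {s : M2ˣ} (hs : IsSc s) (Y : Mn n) : adL n s Y = Y := by
  obtain ⟨t, ht⟩ := hs
  have h := symM_mul_inv n s
  rw [ht, symM_smul_one] at h
  rw [adL_apply, ht, symM_smul_one]
  rw [Matrix.smul_mul, Matrix.one_mul] at h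
  rw [Matrix.smul_mul, Matrix.one_mul, Matrix.smul_mul, ← Matrix.mul_smul, h, Matrix.mul_one]

lemma adL_skew (n : ℕ) (g : M2ˣ) {Y : Mn n} (hY : Y ∈ skew n) : adL n g Y ∈ skew n := by
  rw [mem_skew] at *
  rw [adL_apply, starE_mul, starE_mul, hY, starE_symM, starE_symM]
  have h1 : adjugate (g : M2) = (g : M2).det • ((g⁻¹ : M2ˣ) : M2) := by
    have h := Matrix.mul_adjugate (g : M2)
    have h2 := congrArg (fun Z => ((g⁻¹ : M2ˣ) : M2) * Z) h
    simpa only [← Matrix.mul_assoc, Units.inv_mul, Matrix.one_mul, Matrix.mul_smul,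
      Matrix.mul_one] using h2
  have h2 : adjugate ((g⁻¹ : M2ˣ) : M2) = ((g⁻¹ : M2ˣ) : M2).det • (g : M2) := by
    have h := Matrix.mul_adjugate ((g⁻¹ : M2ˣ) : M2)
    have h2 := congrArg (fun Z => (g : M2) * Z) h
    simpa only [← Matrix.mul_assoc, Units.mul_inv, Matrix.one_mul, Matrix.mul_smul,
      Matrix.mul_one] using h2
  have h3 : (g : M2).det * ((g⁻¹ : M2ˣ) : M2).det = 1 := by
    rw [← Matrix.det_mul, Units.mul_inv, Matrix.det_one]
  rw [h1, h2, symM_smul, symM_smul]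
  simp only [Matrix.smul_mul, Matrix.mul_smul, smul_smul, Matrix.mul_neg, Matrix.neg_mul, smul_neg,
    Matrix.mul_assoc]
  rw [← mul_pow, h3, one_pow, one_smul]

/-- The permutation underlying `adL`, as a homomorphism. -/
def adP (n : ℕ) : M2ˣ →* Equiv.Perm (Mn n) where
  toFun g := (adL n g).toEquiv
  map_one' := by ext1 Y; exact adL_one n Y
  map_mul' g h := by ext1 Y; exact adL_mul n g h Y

@[simp] lemma adP_apply (n : ℕ) (g : M2ˣ) (Y : Mn n) : adP n g Y = adL n g Y := rfl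

/-- The affine involution `Y ↦ X - Ad(E) Y`. -/
def eP (n : ℕ) (E : M2ˣ) (X : Mn n) (hE : IsSc (E * E)) (hX : adL n E X = X) :
    Equiv.Perm (Mn n) :=
  Function.Involutive.toPerm (fun Y => X - adL n E Y) (by
    intro Y
    simp only
    rw [map_sub, hX, ← adL_mul, adL_scalar n hE]
    abel)

@[simp] lemma eP_apply (n : ℕ) (E : M2ˣ) (X : Mn n) (hE : IsSc (E * E)) (hX : adL n E X = X)
    (Y : Mn n) : eP n E X hE hX Y = X - adL n E Y := rfl

lemma eP_sq (n : ℕ) (E : M2ˣ) (X : Mn n) (hE : IsSc (E * E)) (hX : adL n E X = X) :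
    eP n E X hE hX * eP n E X hE hX = 1 := by
  ext1 Y
  exact (Function.Involutive.toPerm_involutive _) Y

/-! ### Group theoretic identities -/

section groups
variable {G : Type*} [Group G] {e₁ e₂ e₃ : G}

lemma inv_of_sq {e : G} (h : e * e = 1) : e⁻¹ = e := inv_eq_of_mul_eq_one_left h

lemma grp_comm (h₁ : e₁ * e₁ = 1) (h₂ : e₂ * e₂ = 1) (h₃ : e₃ * e₃ = 1) :
    (e₁ * e₂) * (e₃ * e₂) * (e₁ * e₂)⁻¹ * (e₃ * e₂)⁻¹ = (e₁ * e₂ * e₃) * (e₁ * e₂ * e₃) := by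
  have i₁ := inv_of_sq h₁
  have i₂ := inv_of_sq h₂
  have i₃ := inv_of_sq h₃
  rw [_root_.mul_inv_rev, _root_.mul_inv_rev, i₁, i₂, i₃]
  calc e₁ * e₂ * (e₃ * e₂) * (e₂ * e₁) * (e₂ * e₃) =
      e₁ * e₂ * e₃ * (e₂ * e₂) * e₁ * e₂ * e₃ := by simp only [mul_assoc]
    _ = _ := by rw [h₂]; simp only [mul_assoc, one_mul]

lemma grp_a (h₁ : e₁ * e₁ = 1) (h₂ : e₂ * e₂ = 1) (h₃ : e₃ * e₃ = 1) :
    (e₁ * e₂) * (e₃ * e₂) * (e₁ * e₂)⁻¹ * (e₃ * e₂)⁻¹ * (e₁ * e₂)⁻¹ * (e₁ * e₂ * e₃) =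
      (e₁ * e₂ * e₃) * (e₁ * e₂) := by
  rw [grp_comm h₁ h₂ h₃]
  have i₁ := inv_of_sq h₁
  have i₂ := inv_of_sq h₂
  rw [_root_.mul_inv_rev, i₁, i₂]
  calc e₁ * e₂ * e₃ * (e₁ * e₂ * e₃) * (e₂ * e₁) * (e₁ * e₂ * e₃) =
      e₁ * e₂ * e₃ * (e₁ * e₂ * e₃) * e₂ * (e₁ * e₁) * e₂ * e₃ := by simp only [mul_assoc]
    _ = e₁ * e₂ * e₃ * (e₁ * e₂ * e₃) * (e₂ * e₂) * e₃ := by
        rw [h₁, mul_one]; simp only [mul_assoc]
    _ = e₁ * e₂ * e₃ * (e₁ * e₂) * (e₃ * e₃) := by rw [h₂, mul_one]; simp only [mul_assoc]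
    _ = _ := by rw [h₃, mul_one]

lemma grp_b (h₁ : e₁ * e₁ = 1) (h₂ : e₂ * e₂ = 1) (h₃ : e₃ * e₃ = 1) :
    (e₁ * e₂) * (e₃ * e₂)⁻¹ * (e₁ * e₂)⁻¹ * (e₁ * e₂ * e₃) =
      (e₁ * e₂ * e₃) * (e₃ * e₂) := by
  have i₁ := inv_of_sq h₁
  have i₂ := inv_of_sq h₂
  have i₃ := inv_of_sq h₃
  rw [_root_.mul_inv_rev, _root_.mul_inv_rev, i₁, i₂, i₃]
  calc e₁ * e₂ * (e₂ * e₃) * (e₂ * e₁) * (e₁ * e₂ * e₃) =
      e₁ * (e₂ * e₂) * e₃ * e₂ * (e₁ * e₁) * e₂ * e₃ := by simp only [mul_assoc]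
    _ = e₁ * e₃ * e₂ * e₂ * e₃ := by rw [h₁, h₂, mul_one, mul_one]
    _ = e₁ * e₃ * (e₂ * e₂) * e₃ := by simp only [mul_assoc]
    _ = e₁ * (e₃ * e₃) := by rw [h₂, mul_one]; simp only [mul_assoc]
    _ = e₁ := by rw [h₃, mul_one]
    _ = e₁ * (e₂ * e₂) := by rw [h₂, mul_one]
    _ = e₁ * e₂ * (e₃ * e₃) * e₂ := by rw [h₃, mul_one]; simp only [mul_assoc]
    _ = _ := by simp only [mul_assoc]

end groups

/-! ### The cocycle -/

lemma isSc_sq_of_trace {E : M2ˣ} (h : (E : M2).trace = 0) : IsSc (E * E) :=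
  ⟨-(E : M2).det, by rw [Units.val_mul, cayley2, h]; simp⟩

lemma det_unit_ne (E : M2ˣ) : (E : M2).det ≠ 0 := by
  intro h
  have := congrArg Matrix.det (Units.mul_inv E)
  rw [Matrix.det_mul, h, zero_mul, Matrix.det_one] at this
  exact zero_ne_one this

/-- The `Inv2` attached to a traceless unit. -/
def toInv2 (E : M2ˣ) (h : (E : M2).trace = 0) : Inv2 := ⟨E, h, det_unit_ne E⟩

lemma adL_eq_T (n : ℕ) (E : M2ˣ) (h : (E : M2).trace = 0) (Y : Mn n) :
    (toInv2 E h).T n Y = adL n E Y := by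
  rw [Inv2.T_apply, adL_apply]
  have h1 : (toInv2 E h).C n = symM n (E : M2) := rfl
  have h2 : (toInv2 E h).C' n = symM n ((E⁻¹ : M2ˣ) : M2) := by
    have h3 := (toInv2 E h).C'_mul_C n
    rw [h1] at h3
    have h4 := congrArg (fun Z => Z * symM n ((E⁻¹ : M2ˣ) : M2)) h3
    simpa only [Matrix.mul_assoc, symM_mul_inv, Matrix.mul_one, Matrix.one_mul] using h4
  rw [h1, h2]

/-- The translation parts. -/
lemma exists_parts {n : ℕ} (hn : 4 ≤ n) (A B c : M2ˣ)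
    (hcc : IsSc (c * c)) (t₁ : ((c * A : M2ˣ) : M2).trace = 0) (t₂ : (c : M2).trace = 0)
    (t₃ : ((B * c : M2ˣ) : M2).trace = 0) :
    ∃ X₁ X₂ X₃ : Mn n, X₁ ∈ skew n ∧ X₂ ∈ skew n ∧ X₃ ∈ skew n ∧
      adL n (A * c) X₁ = X₁ ∧ adL n c X₂ = X₂ ∧ adL n (B * c) X₃ = X₃ ∧
      X₁ - adL n (A * c) X₂ + adL n (A * c) (adL n c X₃) = 0 ∧
      X₁ = adL n A (X₂ - X₃) ∧ ¬ (X₂ = 0 ∧ X₃ = 0) := by
  obtain ⟨Y₁, hY₁, Z₂, hZ₂, X₃, hX₃, hsum, hne⟩ :=
    exists_triple hn (toInv2 (c * A) t₁) (toInv2 c t₂) (toInv2 (B * c) t₃)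
  rw [Inv2.mem_U, adL_eq_T] at hY₁ hZ₂ hX₃
  have hY : Y₁ = -Z₂ - X₃ := by
    have : Y₁ = Y₁ + Z₂ + X₃ - Z₂ - X₃ := by abel
    rw [this, hsum]; abel
  have hccA : adL n A Y₁ = adL n c Y₁ := by
    have h1 : adL n c (adL n (c * A) Y₁) = adL n A Y₁ := by
      rw [adL_mul, ← adL_mul, adL_scalar n hcc]
    rw [← h1, hY₁.2]
  refine ⟨adL n c Y₁, -Z₂, X₃, adL_skew n c hY₁.1, ?_, hX₃.1, ?_, ?_, hX₃.2, ?_, ?_, ?_⟩
  · exact (skew n).neg_mem hZ₂.1
  · rw [← hccA, adL_mul, ← adL_mul n c, ← adL_mul n A, ← mul_assoc]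
    have : adL n (A * c * A) Y₁ = adL n A (adL n (c * A) Y₁) := by
      rw [← adL_mul, mul_assoc]
    rw [this, hY₁.2]
  · rw [map_neg, hZ₂.2]
  · have h1 : adL n (A * c) (adL n c X₃) = adL n A X₃ := by
      rw [adL_mul, ← adL_mul n c c, adL_scalar n hcc]
    have h2 : adL n (A * c) (-Z₂) = adL n A (-Z₂) := by
      rw [adL_mul, map_neg, hZ₂.2]
    rw [h1, h2, ← hccA, hY, map_sub]
    abel
  · rw [← hccA, hY]
  · rintro ⟨h1, h2⟩
    apply hne
    refine ⟨?_, neg_eq_zero.1 h1, h2⟩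
    rw [hY, h1, h2, sub_zero]

/-- The data of the anti-invariant cocycle. -/
theorem exists_cocycle {n : ℕ} (hn : 4 ≤ n) (ρ₀ : Surf →* SL(2, ℝ)) (hρ : InjPM ρ₀) :
    ∃ (D : M2ˣ) (u : Surf → Mn n),
      (∀ γ, u γ ∈ skew n) ∧
      (∀ γ η, u (γ * η) = u γ + adL n (SpecialLinearGroup.toGL (ρ₀ γ)) (u η)) ∧
      (∀ γ, u (iota γ) = -adL n D (u γ)) ∧
      (∀ γ, SpecialLinearGroup.toGL (ρ₀ (iota γ)) * D = D * SpecialLinearGroup.toGL (ρ₀ γ)) ∧
      ¬ ∃ w : Mn n, ∀ γ, u γ = w - adL n (SpecialLinearGroup.toGL (ρ₀ γ)) w := by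
  set R : Surf →* M2ˣ := (SpecialLinearGroup.toGL).comp ρ₀ with hR
  have hRmat : ∀ x, ((R x : M2ˣ) : M2) = mat (ρ₀ x) := fun x => rfl
  have hRinv : ∀ x, (((R x)⁻¹ : M2ˣ) : M2) = adjugate (mat (ρ₀ x)) := fun x => rfl
  set A := R a₁ with hAd
  set B := R b₁ with hBd
  set A2 := R a₂ with hA2d
  set B2 := R b₂ with hB2d
  set c : M2ˣ := GeneralLinearGroup.mkOfDetNeZero _ (det_comm_ne₁ hρ) with hcd
  have hcval : (c : M2) = mat (ρ₀ a₁) * mat (ρ₀ b₁) - mat (ρ₀ b₁) * mat (ρ₀ a₁) := rfl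
  have hcA : c * A = A⁻¹ * c := by
    apply Units.ext
    rw [Units.val_mul, Units.val_mul, hcval, hRmat, hRinv]
    exact comm_mul_left _ _
  have hcB : c * B = B⁻¹ * c := by
    apply Units.ext
    rw [Units.val_mul, Units.val_mul, hcval, hRmat, hRinv]
    exact comm_mul_right _ _
  have t₂ : (c : M2).trace = 0 := by rw [hcval]; exact trace_comm _ _
  have hcc : IsSc (c * c) := isSc_sq_of_trace t₂
  have tA : ((A * c : M2ˣ) : M2).trace = 0 := by
    rw [Units.val_mul, hcval, hRmat]; exact trace_mul_comm_left _ _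
  have tB : ((B * c : M2ˣ) : M2).trace = 0 := by
    rw [Units.val_mul, hcval, hRmat]; exact trace_mul_comm_right _ _
  have tcA : ((c * A : M2ˣ) : M2).trace = 0 := by
    rw [Units.val_mul, Matrix.trace_mul_comm, ← Units.val_mul]; exact tA
  obtain ⟨X₁, X₂, X₃, s₁, s₂, s₃, f₁, f₂, f₃, hrel, hX₁, hne⟩ :=
    exists_parts hn A B c hcc tcA t₂ tB
  set e₁ := eP n (A * c) X₁ (isSc_sq_of_trace tA) f₁ with he₁
  set e₂ := eP n c X₂ hcc f₂ with he₂
  set e₃ := eP n (B * c) X₃ (isSc_sq_of_trace tB) f₃ with he₃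
  have q₁ : e₁ * e₁ = 1 := eP_sq _ _ _ _ _
  have q₂ : e₂ * e₂ = 1 := eP_sq _ _ _ _ _
  have q₃ : e₃ * e₃ = 1 := eP_sq _ _ _ _ _
  set D : M2ˣ := A * B * c with hD
  have hdelta : ∀ Y, (e₁ * e₂ * e₃) Y = -adL n D Y := by
    intro Y
    have h0 : (e₁ * e₂ * e₃) Y =
        X₁ - adL n (A * c) (X₂ - adL n c (X₃ - adL n (B * c) Y)) := rfl
    have h1 : adL n (A * c) (adL n c (adL n (B * c) Y)) = adL n D Y := by
      rw [← adL_mul, ← adL_mul]
      have : A * c * c * (B * c) = A * (c * c) * (B * c) := by simp only [mul_assoc]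
      rw [this, adL_mul, adL_mul, adL_scalar n hcc, ← adL_mul, hD]
      simp only [mul_assoc]
    rw [h0, map_sub (adL n c), map_sub (adL n (A * c)), map_sub (adL n (A * c)), h1]
    have : X₁ - (adL n (A * c) X₂ - (adL n (A * c) (adL n c X₃) - adL n D Y)) =
        (X₁ - adL n (A * c) X₂ + adL n (A * c) (adL n c X₃)) - adL n D Y := by abel
    rw [this, hrel, zero_sub]
  have hDD : ∀ Y, adL n D (adL n D Y) = adL n (A * B * A⁻¹ * B⁻¹) Y := by
    intro Y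
    rw [← adL_mul]
    have : D * D = A * B * A⁻¹ * B⁻¹ * (c * c) := by
      calc D * D = A * B * (c * A) * B * c := by rw [hD]; simp only [mul_assoc]
        _ = A * B * A⁻¹ * (c * B) * c := by rw [hcA]; simp only [mul_assoc]
        _ = _ := by rw [hcB]; simp only [mul_assoc]
    rw [this, adL_mul, adL_scalar n hcc]
  have hsurf : A * B * A⁻¹ * B⁻¹ * (A2 * B2 * A2⁻¹ * B2⁻¹) = 1 := by
    have h := congrArg R surf_rel
    simpa only [map_mul, map_inv, map_one] using h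
  have hrelP : SurfRel (e₁ * e₂) (e₃ * e₂) (adP n A2) (adP n B2) := by
    unfold SurfRel
    rw [grp_comm q₁ q₂ q₃]
    have h1 : adP n A2 * adP n B2 * (adP n A2)⁻¹ * (adP n B2)⁻¹ =
        adP n (A2 * B2 * A2⁻¹ * B2⁻¹) := by simp only [map_mul, map_inv]
    rw [h1]
    ext1 Y
    change (e₁ * e₂ * e₃) ((e₁ * e₂ * e₃) (adL n (A2 * B2 * A2⁻¹ * B2⁻¹) Y)) = Y
    rw [hdelta, hdelta, map_neg, neg_neg, hDD, ← adL_mul, hsurf, adL_one]
  set ρh : Surf →* Equiv.Perm (Mn n) :=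
    surfLift (e₁ * e₂) (e₃ * e₂) (adP n A2) (adP n B2) hrelP with hρh
  -- affine structure
  have haff : ∀ γ, ∃ v ∈ skew n, ∀ Y, ρh γ Y = adL n (R γ) Y + v := by
    let H : Subgroup Surf :=
      { carrier := {γ | ∃ v ∈ skew n, ∀ Y, ρh γ Y = adL n (R γ) Y + v}
        mul_mem' := by
          rintro γ η ⟨v, hv, hvY⟩ ⟨w, hw, hwY⟩
          refine ⟨adL n (R γ) w + v, (skew n).add_mem (adL_skew n _ hw) hv, fun Y => ?_⟩
          rw [map_mul, Equiv.Perm.mul_apply, hwY, hvY, map_add, map_mul, adL_mul, add_assoc]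
        one_mem' := ⟨0, (skew n).zero_mem, fun Y => by simp [adL_one]⟩
        inv_mem' := by
          rintro γ ⟨v, hv, hvY⟩
          refine ⟨-adL n (R γ)⁻¹ v, (skew n).neg_mem (adL_skew n _ hv), fun Y => ?_⟩
          rw [map_inv, Equiv.Perm.inv_eq_iff_eq, hvY, map_inv, map_add, map_neg, adL_self_inv,
            adL_self_inv]
          abel }
    intro γ
    refine surf_induction H ?_ ?_ ?_ ?_ γ
    · refine ⟨X₁ - adL n A X₂, (skew n).sub_mem s₁ (adL_skew n _ s₂), fun Y => ?_⟩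
      rw [hρh, surfLift_a₁]
      change X₁ - adL n (A * c) (X₂ - adL n c Y) = _
      rw [map_sub, adL_mul, f₂, adL_mul, ← adL_mul n c c, adL_scalar n hcc]
      abel
    · refine ⟨X₃ - adL n B X₂, (skew n).sub_mem s₃ (adL_skew n _ s₂), fun Y => ?_⟩
      rw [hρh, surfLift_b₁]
      change X₃ - adL n (B * c) (X₂ - adL n c Y) = _
      rw [map_sub, adL_mul, f₂, adL_mul, ← adL_mul n c c, adL_scalar n hcc]
      abel
    · refine ⟨0, (skew n).zero_mem, fun Y => ?_⟩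
      rw [hρh, surfLift_a₂, adP_apply, add_zero]
    · refine ⟨0, (skew n).zero_mem, fun Y => ?_⟩
      rw [hρh, surfLift_b₂, adP_apply, add_zero]
  set u : Surf → Mn n := fun γ => ρh γ 0 with hu
  have huaff : ∀ γ Y, ρh γ Y = adL n (R γ) Y + u γ := by
    intro γ Y
    obtain ⟨v, -, hv⟩ := haff γ
    have : u γ = v := by rw [hu]; simp only; rw [hv, map_zero, zero_add]
    rw [this, hv]
  have hmatD : (D : M2) = mat (ρ₀ b₂) * mat (ρ₀ a₂) *
      (mat (ρ₀ b₂) * mat (ρ₀ a₂) - mat (ρ₀ a₂) * mat (ρ₀ b₂)) := by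
    rw [commutator_formula (det_mat _) (det_mat _), hD, Units.val_mul, Units.val_mul, hcval,
      hRmat, hRmat, commutator_formula (det_mat _) (det_mat _)]
    congr 1
    have h1 := rel_K' surf_rel
    have h2 := congrArg (fun x => mat (ρ₀ x)) h1
    simpa only [map_mul, map_inv, mat_inv] using h2.symm
  set c2 : M2 := mat (ρ₀ b₂) * mat (ρ₀ a₂) - mat (ρ₀ a₂) * mat (ρ₀ b₂) with hc2
  have hc2a : c2 * mat (ρ₀ a₂) = adjugate (mat (ρ₀ a₂)) * c2 := comm_mul_right _ _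
  have hc2b : c2 * mat (ρ₀ b₂) = adjugate (mat (ρ₀ b₂)) * c2 := comm_mul_left _ _
  have hDa2 : B2 * A2⁻¹ * B2⁻¹ * D = D * A2 := by
    apply Units.ext
    simp only [Units.val_mul, hRmat, hRinv, hA2d, hB2d]
    rw [hmatD]
    have k1 : adjugate (mat (ρ₀ b₂)) * mat (ρ₀ b₂) = 1 := adj_mul (det_mat _)
    have k2 : adjugate (mat (ρ₀ a₂)) * mat (ρ₀ a₂) = 1 := adj_mul (det_mat _)
    have k3 : mat (ρ₀ a₂) * adjugate (mat (ρ₀ a₂)) = 1 := mul_adj (det_mat _)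
    calc mat (ρ₀ b₂) * adjugate (mat (ρ₀ a₂)) * adjugate (mat (ρ₀ b₂)) *
          (mat (ρ₀ b₂) * mat (ρ₀ a₂) * c2)
        = mat (ρ₀ b₂) * adjugate (mat (ρ₀ a₂)) * (adjugate (mat (ρ₀ b₂)) * mat (ρ₀ b₂)) *
          mat (ρ₀ a₂) * c2 := by simp only [Matrix.mul_assoc]
      _ = mat (ρ₀ b₂) * (adjugate (mat (ρ₀ a₂)) * mat (ρ₀ a₂)) * c2 := by
          rw [k1, Matrix.mul_one]; simp only [Matrix.mul_assoc]
      _ = mat (ρ₀ b₂) * (mat (ρ₀ a₂) * adjugate (mat (ρ₀ a₂))) * c2 := by rw [k2, k3]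
      _ = mat (ρ₀ b₂) * mat (ρ₀ a₂) * (c2 * mat (ρ₀ a₂)) := by
          rw [hc2a]; simp only [Matrix.mul_assoc]
      _ = _ := by simp only [Matrix.mul_assoc]
  have hDb2 : B2 * A2 * B2⁻¹ * A2⁻¹ * B2⁻¹ * D = D * B2 := by
    apply Units.ext
    simp only [Units.val_mul, hRmat, hRinv, hA2d, hB2d]
    rw [hmatD]
    have k1 : adjugate (mat (ρ₀ b₂)) * mat (ρ₀ b₂) = 1 := adj_mul (det_mat _)
    have k2 : adjugate (mat (ρ₀ a₂)) * mat (ρ₀ a₂) = 1 := adj_mul (det_mat _)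
    calc mat (ρ₀ b₂) * mat (ρ₀ a₂) * adjugate (mat (ρ₀ b₂)) * adjugate (mat (ρ₀ a₂)) *
          adjugate (mat (ρ₀ b₂)) * (mat (ρ₀ b₂) * mat (ρ₀ a₂) * c2)
        = mat (ρ₀ b₂) * mat (ρ₀ a₂) * adjugate (mat (ρ₀ b₂)) * adjugate (mat (ρ₀ a₂)) *
          (adjugate (mat (ρ₀ b₂)) * mat (ρ₀ b₂)) * mat (ρ₀ a₂) * c2 := by
            simp only [Matrix.mul_assoc]
      _ = mat (ρ₀ b₂) * mat (ρ₀ a₂) * adjugate (mat (ρ₀ b₂)) *
          (adjugate (mat (ρ₀ a₂)) * mat (ρ₀ a₂)) * c2 := by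
          rw [k1, Matrix.mul_one]; simp only [Matrix.mul_assoc]
      _ = mat (ρ₀ b₂) * mat (ρ₀ a₂) * (adjugate (mat (ρ₀ b₂)) * c2) := by
          rw [k2, Matrix.mul_one]; simp only [Matrix.mul_assoc]
      _ = mat (ρ₀ b₂) * mat (ρ₀ a₂) * (c2 * mat (ρ₀ b₂)) := by rw [hc2b]
      _ = _ := by simp only [Matrix.mul_assoc]
  have hDa1 : A * B * A⁻¹ * B⁻¹ * A⁻¹ * D = D * A := by
    calc A * B * A⁻¹ * B⁻¹ * A⁻¹ * D = A * B * (A⁻¹ * c) := by rw [hD]; group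
      _ = D * A := by rw [← hcA, hD]; group
  have hDb1 : A * B⁻¹ * A⁻¹ * D = D * B := by
    calc A * B⁻¹ * A⁻¹ * D = A * B * (B⁻¹ * c) := by rw [hD]; group
      _ = D * B := by rw [← hcB, hD]; group
  -- intertwining for the representation
  have hint : ∀ γ, R (iota γ) * D = D * R γ := by
    have key : R.comp iota = (MulAut.conj D).toMonoidHom.comp R := by
      apply surf_hom_ext
      · simp only [MonoidHom.comp_apply, iota_a₁, map_mul, map_inv, MulEquiv.coe_toMonoidHom,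
          MulAut.conj_apply]
        rw [eq_mul_inv_iff_mul_eq]; exact hDa1
      · simp only [MonoidHom.comp_apply, iota_b₁, map_mul, map_inv, MulEquiv.coe_toMonoidHom,
          MulAut.conj_apply]
        rw [eq_mul_inv_iff_mul_eq]; exact hDb1
      · simp only [MonoidHom.comp_apply, iota_a₂, map_mul, map_inv, MulEquiv.coe_toMonoidHom,
          MulAut.conj_apply]
        rw [eq_mul_inv_iff_mul_eq]; exact hDa2
      · simp only [MonoidHom.comp_apply, iota_b₂, map_mul, map_inv, MulEquiv.coe_toMonoidHom,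
          MulAut.conj_apply]
        rw [eq_mul_inv_iff_mul_eq]; exact hDb2
    intro γ
    have := DFunLike.congr_fun key γ
    simp only [MonoidHom.comp_apply, MulEquiv.coe_toMonoidHom, MulAut.conj_apply] at this
    rw [this]; group
  -- intertwining for the affine action
  have hintP : ∀ γ, ρh (iota γ) * (e₁ * e₂ * e₃) = (e₁ * e₂ * e₃) * ρh γ := by
    have hP : ∀ g h : M2ˣ, g * D = D * h →
        adP n g * (e₁ * e₂ * e₃) = (e₁ * e₂ * e₃) * adP n h := by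
      intro g h hgh
      ext1 Y
      change adL n g ((e₁ * e₂ * e₃) Y) = (e₁ * e₂ * e₃) (adL n h Y)
      rw [hdelta, hdelta, map_neg, ← adL_mul, ← adL_mul, hgh]
    have key : ρh.comp iota = (MulAut.conj (e₁ * e₂ * e₃)).toMonoidHom.comp ρh := by
      apply surf_hom_ext
      · change ρh (iota a₁) = (e₁ * e₂ * e₃) * ρh a₁ * (e₁ * e₂ * e₃)⁻¹
        rw [eq_mul_inv_iff_mul_eq, iota_a₁, MonoidHom.map_mul, MonoidHom.map_mul,
          MonoidHom.map_mul, MonoidHom.map_mul, MonoidHom.map_inv, MonoidHom.map_inv, hρh,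
          surfLift_a₁, surfLift_b₁]
        exact grp_a q₁ q₂ q₃
      · change ρh (iota b₁) = (e₁ * e₂ * e₃) * ρh b₁ * (e₁ * e₂ * e₃)⁻¹
        rw [eq_mul_inv_iff_mul_eq, iota_b₁, MonoidHom.map_mul, MonoidHom.map_mul,
          MonoidHom.map_inv, MonoidHom.map_inv, hρh, surfLift_a₁, surfLift_b₁]
        exact grp_b q₁ q₂ q₃
      · change ρh (iota a₂) = (e₁ * e₂ * e₃) * ρh a₂ * (e₁ * e₂ * e₃)⁻¹
        rw [eq_mul_inv_iff_mul_eq]
        have := hP _ _ hDa2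
        rw [iota_a₂, MonoidHom.map_mul, MonoidHom.map_mul, MonoidHom.map_inv, MonoidHom.map_inv,
          hρh, surfLift_a₂, surfLift_b₂]
        simpa only [map_mul, map_inv] using this
      · change ρh (iota b₂) = (e₁ * e₂ * e₃) * ρh b₂ * (e₁ * e₂ * e₃)⁻¹
        rw [eq_mul_inv_iff_mul_eq]
        have := hP _ _ hDb2
        rw [iota_b₂, MonoidHom.map_mul, MonoidHom.map_mul, MonoidHom.map_mul, MonoidHom.map_mul,
          MonoidHom.map_inv, MonoidHom.map_inv, hρh, surfLift_a₂, surfLift_b₂]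
        simpa only [map_mul, map_inv] using this
    intro γ
    have := DFunLike.congr_fun key γ
    simp only [MonoidHom.comp_apply, MulEquiv.coe_toMonoidHom, MulAut.conj_apply] at this
    rw [this]; group
  refine ⟨D, u, ?_, ?_, ?_, hint, ?_⟩
  · intro γ
    obtain ⟨v, hv, hvY⟩ := haff γ
    have : u γ = v := by rw [hu]; simp only; rw [hvY, map_zero, zero_add]
    rw [this]; exact hv
  · intro γ η
    have : u (γ * η) = ρh γ (ρh η 0) := by rw [hu]; simp only; rw [map_mul]; rfl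
    rw [this, huaff γ]
    change adL n (R γ) (u η) + u γ = _
    rw [add_comm]
    rfl
  · intro γ
    have h1 := congrArg (fun e : Equiv.Perm (Mn n) => e 0) (hintP γ)
    simp only [Equiv.Perm.mul_apply] at h1
    have h2 : e₁ (e₂ (e₃ 0)) = 0 := by
      have := hdelta 0
      rw [LinearEquiv.map_zero, neg_zero] at this
      exact this
    have h3 : e₁ (e₂ (e₃ (ρh γ 0))) = -adL n D (ρh γ 0) := hdelta _
    rw [h2, h3] at h1
    exact h1
  · rintro ⟨w, hw⟩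
    have hza : u a₂ = 0 := by
      rw [hu]; simp only; rw [hρh, surfLift_a₂, adP_apply, map_zero]
    have hzb : u b₂ = 0 := by
      rw [hu]; simp only; rw [hρh, surfLift_b₂, adP_apply, map_zero]
    have hcommut : ∀ g : SL(2, ℝ), 0 = w - adL n (SpecialLinearGroup.toGL g) w →
        w * symM n (mat g) = symM n (mat g) * w := by
      intro g hg
      have h1 : w = adL n (SpecialLinearGroup.toGL g) w := (sub_eq_zero.1 hg.symm)
      rw [adL_apply] at h1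
      have h2 := congrArg (fun Z => Z * symM n (mat g)) h1
      simp only [Matrix.mul_assoc] at h2
      have h3 : symM n (((SpecialLinearGroup.toGL g)⁻¹ : M2ˣ) : M2) * symM n (mat g) = 1 :=
        symM_inv_mul n (SpecialLinearGroup.toGL g)
      rw [h3, Matrix.mul_one] at h2
      exact h2
    have hwa := hw a₂
    have hwb := hw b₂
    rw [hza] at hwa
    rw [hzb] at hwb
    obtain ⟨t, ht⟩ := scalar_of_comm_handle hρ w (hcommut _ hwa) (hcommut _ hwb)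
    have hall : ∀ γ, u γ = 0 := by
      intro γ
      have h1 : adL n (SpecialLinearGroup.toGL (ρ₀ γ)) w = w := by
        rw [ht, map_smul, adL_apply, Matrix.mul_one, symM_mul_inv]
      rw [hw γ, h1, sub_self]
    have hua : u a₁ = X₁ - adL n A X₂ := by
      rw [hu]; simp only
      rw [hρh, surfLift_a₁]
      change X₁ - adL n (A * c) (X₂ - adL n c 0) = _
      rw [map_zero, sub_zero, adL_mul, f₂]
    have hub : u b₁ = X₃ - adL n B X₂ := by
      rw [hu]; simp only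
      rw [hρh, surfLift_b₁]
      change X₃ - adL n (B * c) (X₂ - adL n c 0) = _
      rw [map_zero, sub_zero, adL_mul, f₂]
    rw [hall] at hua hub
    have hX₃ : X₃ = 0 := by
      rw [hX₁, map_sub] at hua
      have : adL n A X₃ = 0 := by
        have h1 : (0 : Mn n) = -adL n A X₃ := by
          rw [hua]; abel
        rw [eq_comm, neg_eq_zero] at h1
        exact h1
      exact (map_eq_zero_iff (adL n A) (adL n A).injective).1 this
    have hX₂ : X₂ = 0 := by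
      rw [hX₃, zero_sub, eq_comm, neg_eq_zero] at hub
      exact (map_eq_zero_iff (adL n B) (adL n B).injective).1 hub
    exact hne ⟨hX₂, hX₃⟩

end Pool.Agent.LibHyperelliptic
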