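import Pool.Agent.LibHyperelliptic.SurfDefs

set_option autoImplicit false

noncomputable section

open Matrix

namespace Pool.Agent.LibHyperelliptic

/-! ### The first cohomology group with coefficients in `𝔰𝔩(n, ℝ)` -/

/-- Maps from the surface group to `n × n` matrices. -/
def Coch (n : ℕ) : Type := Surf → Matrix (Fin n) (Fin n) ℝ

instance (n : ℕ) : AddCommGroup (Coch n) :=
  Pi.addCommGroup (f := fun _ : Surf => Matrix (Fin n) (Fin n) ℝ)

instance (n : ℕ) : Module ℝ (Coch n) := Pi.Function.module Surf ℝ (Matrix (Fin n) (Fin n) ℝ)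

/-- Linear endomorphisms of the space of matrices. -/
abbrev EndMat (n : ℕ) : Type := Matrix (Fin n) (Fin n) ℝ →ₗ[ℝ] Matrix (Fin n) (Fin n) ℝ

section
variable {n : ℕ}

/-- `u` is a cocycle with values in the trace zero matrices, on which the surface group acts
through `a`. -/
def IsCocycle (a : Surf → EndMat n) (u : Coch n) : Prop :=
  (∀ γ, (u γ).trace = 0) ∧ ∀ γ η, u (γ * η) = u γ + a γ (u η)

/-- `u` is a coboundary. -/
def IsCobound (a : Surf → EndMat n) (u : Coch n) : Prop :=
  ∃ X : Matrix (Fin n) (Fin n) ℝ, X.trace = 0 ∧ ∀ γ, u γ = X - a γ X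

lemma isCocycle_zero (a : Surf → EndMat n) : IsCocycle a 0 :=
  ⟨fun _ => Matrix.trace_zero _ _, fun γ η => by
    change (0 : Matrix (Fin n) (Fin n) ℝ) = 0 + a γ 0
    rw [map_zero, add_zero]⟩

lemma isCocycle_add (a : Surf → EndMat n) {u v : Coch n} (hu : IsCocycle a u)
    (hv : IsCocycle a v) : IsCocycle a (u + v) := by
  obtain ⟨h1, h2⟩ := hu
  obtain ⟨h3, h4⟩ := hv
  refine ⟨fun γ => ?_, fun γ η => ?_⟩
  · change (u γ + v γ).trace = 0
    rw [Matrix.trace_add, h1, h3, add_zero]
  · change u (γ * η) + v (γ * η) = u γ + v γ + a γ (u η + v η)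
    rw [h2, h4, map_add]; abel

lemma isCocycle_smul (a : Surf → EndMat n) (t : ℝ) {u : Coch n} (hu : IsCocycle a u) :
    IsCocycle a (t • u) := by
  obtain ⟨h1, h2⟩ := hu
  refine ⟨fun γ => ?_, fun γ η => ?_⟩
  · change (t • u γ).trace = 0
    rw [Matrix.trace_smul, h1, smul_zero]
  · change t • u (γ * η) = t • u γ + a γ (t • u η)
    rw [h2, map_smul, smul_add]

lemma isCobound_zero (a : Surf → EndMat n) : IsCobound a 0 :=
  ⟨0, Matrix.trace_zero _ _, fun γ => by
    change (0 : Matrix (Fin n) (Fin n) ℝ) = 0 - a γ 0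
    rw [map_zero, sub_zero]⟩

lemma isCobound_add (a : Surf → EndMat n) {u v : Coch n} (hu : IsCobound a u)
    (hv : IsCobound a v) : IsCobound a (u + v) := by
  obtain ⟨X, hX, h1⟩ := hu
  obtain ⟨Y, hY, h2⟩ := hv
  refine ⟨X + Y, by rw [Matrix.trace_add, hX, hY, add_zero], fun γ => ?_⟩
  change u γ + v γ = _
  rw [h1, h2, map_add]; abel

lemma isCobound_smul (a : Surf → EndMat n) (t : ℝ) {u : Coch n} (hu : IsCobound a u) :
    IsCobound a (t • u) := by
  obtain ⟨X, hX, h1⟩ := hu
  refine ⟨t • X, by rw [Matrix.trace_smul, hX, smul_zero], fun γ => ?_⟩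
  change t • u γ = _
  rw [h1, map_smul, smul_sub]

/-- The space of cocycles. -/
def Z1 (a : Surf → EndMat n) : Submodule ℝ (Coch n) where
  carrier := {u | IsCocycle a u}
  zero_mem' := isCocycle_zero a
  add_mem' := isCocycle_add a
  smul_mem' := isCocycle_smul a

/-- The space of coboundaries. -/
def B1 (a : Surf → EndMat n) : Submodule ℝ (Coch n) where
  carrier := {u | IsCobound a u}
  zero_mem' := isCobound_zero a
  add_mem' := isCobound_add a
  smul_mem' := isCobound_smul a

/-- The coboundaries, as a subspace of the space of cocycles. -/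
def BZ (a : Surf → EndMat n) : Submodule ℝ (Z1 a) := Submodule.comap (Z1 a).subtype (B1 a)

/-- The first cohomology group: cocycles modulo coboundaries. -/
def H1 (a : Surf → EndMat n) : Type := Z1 a ⧸ BZ a

instance (a : Surf → EndMat n) : AddCommGroup (H1 a) := Submodule.Quotient.addCommGroup (BZ a)

instance (a : Surf → EndMat n) : Module ℝ (H1 a) := Submodule.Quotient.module (BZ a)

/-- Evaluation of cocycles at `γ`, followed by the functional `D`. -/
def evalZ (a : Surf → EndMat n) (γ : Surf) (D : Matrix (Fin n) (Fin n) ℝ →ₗ[ℝ] ℝ) :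
    Z1 a →ₗ[ℝ] ℝ where
  toFun u := D (u.1 γ)
  map_add' u v := D.map_add (u.1 γ) (v.1 γ)
  map_smul' t u := D.map_smul t (u.1 γ)

lemma BZ_le_ker (a : Surf → EndMat n) (γ : Surf) (D : Matrix (Fin n) (Fin n) ℝ →ₗ[ℝ] ℝ)
    (hD : ∀ X, D (X - a γ X) = 0) : BZ a ≤ LinearMap.ker (evalZ a γ D) := by
  rintro u ⟨X, -, hX⟩
  rw [LinearMap.mem_ker]
  change D (u.1 γ) = 0
  have h : u.1 γ = X - a γ X := hX γ
  rw [h, hD]

/-- Evaluation at `γ` followed by a functional `D` which vanishes on the values at `γ` of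
coboundaries, as a functional on the cohomology group. -/
def evalH (a : Surf → EndMat n) (γ : Surf) (D : Matrix (Fin n) (Fin n) ℝ →ₗ[ℝ] ℝ)
    (hD : ∀ X, D (X - a γ X) = 0) : Module.Dual ℝ (H1 a) :=
  (BZ a).liftQ (evalZ a γ D) (BZ_le_ker a γ D hD)

end

end Pool.Agent.LibHyperelliptic
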