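import Pool.Agent.LibHyperelliptic.SymPow

set_option autoImplicit false

noncomputable section

open Matrix Polynomial

namespace Pool.Agent.LibHyperelliptic

/-- The space of real two by two matrices. -/
abbrev M2 : Type := Matrix (Fin 2) (Fin 2) ℝ

/-! ### Polynomial dependence on a scalar shift -/

/-- The entries of `symM n (τ • 1 + A)` as polynomials in `τ`. -/
def shiftPoly (n : ℕ) (A : M2) (i j : Fin n) : ℝ[X] :=
  ((C (X + C (A 0 0)) * X + C (C (A 1 0))) ^ (j : ℕ) *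
    (C (C (A 0 1)) * X + C (X + C (A 1 1))) ^ (n - 1 - (j : ℕ)) : ℝ[X][X]).coeff (i : ℕ)

lemma eval_shiftPoly (n : ℕ) (A : M2) (i j : Fin n) (t : ℝ) :
    (shiftPoly n A i j).eval t = symM n (t • 1 + A) i j := by
  rw [← coe_evalRingHom, shiftPoly, ← coeff_map]
  simp [symM, Polynomial.map_mul, Polynomial.map_pow]

lemma comm_of_infinite {n : ℕ} (F : Matrix (Fin n) (Fin n) ℝ) (A : M2) (S : Set ℝ)
    (hS : S.Infinite) (h : ∀ t ∈ S, F * symM n (t • 1 + A) = symM n (t • 1 + A) * F) (t : ℝ) :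
    F * symM n (t • 1 + A) = symM n (t • 1 + A) * F := by
  ext i j
  set q : ℝ[X] := ∑ k, C (F i k) * shiftPoly n A k j - ∑ k, shiftPoly n A i k * C (F k j) with hq
  have hev : ∀ s, q.eval s =
      (F * symM n (s • 1 + A)) i j - (symM n (s • 1 + A) * F) i j := by
    intro s
    simp only [hq, eval_sub, eval_finsetSum, eval_mul, eval_C, eval_shiftPoly,
      Matrix.mul_apply]
  have hq0 : q = 0 := by
    apply eq_zero_of_infinite_isRoot
    refine hS.mono fun s hs => ?_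
    simp only [Set.mem_ofPred_eq, IsRoot.def, hev, h s hs, sub_self]
  have := hev t
  rw [hq0, eval_zero] at this
  linarith

lemma comm_all_of_shift {n : ℕ} (F : Matrix (Fin n) (Fin n) ℝ) (A : M2)
    (h : ∀ t : ℝ, F * symM n (t • 1 + A) = symM n (t • 1 + A) * F) (a b : ℝ) :
    F * symM n (a • 1 + b • A) = symM n (a • 1 + b • A) * F := by
  by_cases hb : b = 0
  · subst hb
    rw [zero_smul, add_zero, symM_smul_one]
    simp
  · have h1 : a • (1 : M2) + b • A = b • ((a / b) • 1 + A) := by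
      rw [smul_add, smul_smul, mul_div_cancel₀ _ hb]
    rw [h1, symM_smul, Matrix.mul_smul, Matrix.smul_mul, h]

/-! ### The derivative -/

/-- The action of the Lie algebra element `N` on binary forms of degree `n - 1`. -/
def Dm (n : ℕ) (N : M2) : Matrix (Fin n) (Fin n) ℝ :=
  Matrix.of fun i j =>
    (if i = j then ((j : ℕ) : ℝ) * N 0 0 + ((n - 1 - (j : ℕ) : ℕ) : ℝ) * N 1 1 else 0) +
    (if (i : ℕ) + 1 = j then ((j : ℕ) : ℝ) * N 1 0 else 0) +
    (if (i : ℕ) = j + 1 then ((n - 1 - (j : ℕ) : ℕ) : ℝ) * N 0 1 else 0)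

lemma Dm_add (n : ℕ) (N N' : M2) : Dm n (N + N') = Dm n N + Dm n N' := by
  ext i j
  simp only [Dm, Matrix.of_apply, Matrix.add_apply]
  split_ifs <;> ring

lemma Dm_smul (n : ℕ) (t : ℝ) (N : M2) : Dm n (t • N) = t • Dm n N := by
  ext i j
  simp only [Dm, Matrix.of_apply, Matrix.smul_apply, smul_eq_mul]
  split_ifs <;> ring

lemma Dm_one (n : ℕ) : Dm n 1 = ((n - 1 : ℕ) : ℝ) • 1 := by
  ext i j
  simp only [Dm, Matrix.of_apply, Matrix.smul_apply, smul_eq_mul, Matrix.one_apply]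
  have h := fin_le_pred j
  have h2 : ((j : ℕ) : ℝ) + ((n - 1 - (j : ℕ) : ℕ) : ℝ) = ((n - 1 : ℕ) : ℝ) := by
    exact_mod_cast h
  by_cases hij : i = j
  · subst hij
    simp
    linarith
  · simp [hij]

lemma Ev_vecMul_Dm (n : ℕ) (N : M2) (z : Fin 2 → ℝ) (j : Fin n) :
    (Ev n z ᵥ* Dm n N) j =
      (((j : ℕ) : ℝ) * z 0 ^ ((j : ℕ) - 1) * (z 0 * N 0 0 + z 1 * N 1 0)) *
          z 1 ^ (n - 1 - (j : ℕ)) +
        z 0 ^ (j : ℕ) * (((n - 1 - (j : ℕ) : ℕ) : ℝ) * z 1 ^ (n - 1 - (j : ℕ) - 1) *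
          (z 0 * N 0 1 + z 1 * N 1 1)) := by
  simp only [vecMul, dotProduct, Dm, Matrix.of_apply, mul_add, Finset.sum_add_distrib]
  have s1 : ∑ x : Fin n, Ev n z x * (if x = j then ((j : ℕ) : ℝ) * N 0 0 +
      ((n - 1 - (j : ℕ) : ℕ) : ℝ) * N 1 1 else 0) =
      z 0 ^ (j : ℕ) * z 1 ^ (n - 1 - (j : ℕ)) *
        (((j : ℕ) : ℝ) * N 0 0 + ((n - 1 - (j : ℕ) : ℕ) : ℝ) * N 1 1) := by
    rw [Finset.sum_eq_single j]
    · simp [Ev]
    · intro b _ hb; simp [hb]
    · intro h; exact absurd (Finset.mem_univ _) h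
  have s2 : ∑ x : Fin n, Ev n z x * (if (x : ℕ) + 1 = j then ((j : ℕ) : ℝ) * N 1 0 else 0) =
      ((j : ℕ) : ℝ) * z 0 ^ ((j : ℕ) - 1) * z 1 * z 1 ^ (n - 1 - (j : ℕ)) * N 1 0 := by
    by_cases hj : (j : ℕ) = 0
    · rw [Finset.sum_eq_zero]
      · simp [hj]
      · intro x _
        have : ¬ ((x : ℕ) + 1 = j) := by omega
        simp [this]
    · have hlt : (j : ℕ) - 1 < n := by omega
      rw [Finset.sum_eq_single (⟨(j : ℕ) - 1, hlt⟩ : Fin n)]
      · have h1 : (j : ℕ) - 1 + 1 = j := by omega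
        have h2 : n - 1 - ((j : ℕ) - 1) = (n - 1 - (j : ℕ)) + 1 := by omega
        simp only [Ev, h1, if_true, h2, pow_succ]
        ring
      · intro b _ hb
        have : ¬ ((b : ℕ) + 1 = j) := by
          intro h; apply hb; ext; simp; omega
        simp [this]
      · intro h; exact absurd (Finset.mem_univ _) h
  have s3 : ∑ x : Fin n, Ev n z x * (if (x : ℕ) = j + 1 then
      ((n - 1 - (j : ℕ) : ℕ) : ℝ) * N 0 1 else 0) =
      ((n - 1 - (j : ℕ) : ℕ) : ℝ) * z 1 ^ (n - 1 - (j : ℕ) - 1) * z 0 * z 0 ^ (j : ℕ) * N 0 1 := by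
    by_cases hj : n - 1 - (j : ℕ) = 0
    · rw [Finset.sum_eq_zero]
      · simp [hj]
      · intro x _
        simp [hj]
    · have hlt : (j : ℕ) + 1 < n := by omega
      rw [Finset.sum_eq_single (⟨(j : ℕ) + 1, hlt⟩ : Fin n)]
      · have h2 : n - 1 - ((j : ℕ) + 1) = n - 1 - (j : ℕ) - 1 := by omega
        simp only [Ev, if_true, h2, pow_succ]
        ring
      · intro b _ hb
        have : ¬ ((b : ℕ) = j + 1) := by
          intro h; apply hb; ext; simp; omega
        simp [this]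
      · intro h; exact absurd (Finset.mem_univ _) h
  rw [s1, s2, s3]
  have h4 : ((j : ℕ) : ℝ) * z 0 ^ ((j : ℕ) - 1) * z 0 = ((j : ℕ) : ℝ) * z 0 ^ (j : ℕ) := by
    by_cases hj : (j : ℕ) = 0
    · simp [hj]
    · rw [mul_assoc, ← pow_succ]
      congr 3
      omega
  have h5 : ((n - 1 - (j : ℕ) : ℕ) : ℝ) * z 1 ^ (n - 1 - (j : ℕ) - 1) * z 1 =
      ((n - 1 - (j : ℕ) : ℕ) : ℝ) * z 1 ^ (n - 1 - (j : ℕ)) := by
    by_cases hj : n - 1 - (j : ℕ) = 0
    · simp [hj]
    · rw [mul_assoc, ← pow_succ]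
      congr 3
      omega
  linear_combination (-(N 0 0) * z 1 ^ (n - 1 - (j : ℕ))) * h4 - (z 0 ^ (j : ℕ) * N 1 1) * h5

lemma hasDerivAt_Ev (n : ℕ) (N : M2) (z : Fin 2 → ℝ) (j : Fin n) :
    HasDerivAt (fun ε : ℝ => Ev n (z ᵥ* (1 + ε • N)) j) ((Ev n z ᵥ* Dm n N) j) 0 := by
  rw [Ev_vecMul_Dm]
  have e0 : ∀ ε : ℝ, (z ᵥ* (1 + ε • N)) 0 = z 0 + ε * (z 0 * N 0 0 + z 1 * N 1 0) := by
    intro ε
    simp [vecMul, dotProduct, Fin.sum_univ_two]
    ring
  have e1 : ∀ ε : ℝ, (z ᵥ* (1 + ε • N)) 1 = z 1 + ε * (z 0 * N 0 1 + z 1 * N 1 1) := by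
    intro ε
    simp [vecMul, dotProduct, Fin.sum_univ_two]
    ring
  simp only [Ev, e0, e1]
  have d0 : HasDerivAt (fun ε : ℝ => z 0 + ε * (z 0 * N 0 0 + z 1 * N 1 0))
      (z 0 * N 0 0 + z 1 * N 1 0) 0 := by
    have := ((hasDerivAt_id (0 : ℝ)).mul_const (z 0 * N 0 0 + z 1 * N 1 0)).const_add (z 0)
    simpa using this
  have d1 : HasDerivAt (fun ε : ℝ => z 1 + ε * (z 0 * N 0 1 + z 1 * N 1 1))
      (z 0 * N 0 1 + z 1 * N 1 1) 0 := by
    have := ((hasDerivAt_id (0 : ℝ)).mul_const (z 0 * N 0 1 + z 1 * N 1 1)).const_add (z 1)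
    simpa using this
  have := (d0.fun_pow (j : ℕ)).fun_mul (d1.fun_pow (n - 1 - (j : ℕ)))
  simpa using this

lemma hasDerivAt_symM (n : ℕ) (N : M2) (i j : Fin n) :
    HasDerivAt (fun ε : ℝ => symM n (1 + ε • N) i j) (Dm n N i j) 0 := by
  set v : Fin n → ℝ := fun i => (i : ℝ) with hv
  have hinj : Function.Injective v := by
    intro i j hij
    have : ((i : ℕ) : ℝ) = ((j : ℕ) : ℝ) := hij
    exact Fin.ext (by exact_mod_cast this)
  have hdet : (vandermonde v).det ≠ 0 := det_vandermonde_ne_zero_iff.2 hinj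
  have hu : IsUnit (vandermonde v).det := isUnit_iff_ne_zero.2 hdet
  have hrow : ∀ i, (vandermonde v) i = Ev n ![v i, 1] := by
    intro i; ext j; simp [vandermonde, Ev]
  have hrep : ∀ Y : Matrix (Fin n) (Fin n) ℝ, ∀ i j,
      Y i j = ∑ k, (vandermonde v)⁻¹ i k * (Ev n ![v k, 1] ᵥ* Y) j := by
    intro Y i j
    have h1 : Y = (vandermonde v)⁻¹ * (vandermonde v * Y) := by
      rw [← Matrix.mul_assoc, Matrix.nonsing_inv_mul _ hu, Matrix.one_mul]
    conv_lhs => rw [h1]
    rw [Matrix.mul_apply]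
    refine Finset.sum_congr rfl fun k _ => ?_
    rw [← hrow]
    rfl
  have h2 : (fun ε : ℝ => symM n (1 + ε • N) i j) =
      fun ε : ℝ => ∑ k, (vandermonde v)⁻¹ i k * Ev n (![v k, 1] ᵥ* (1 + ε • N)) j := by
    funext ε
    rw [hrep (symM n (1 + ε • N)) i j]
    simp only [Ev_vecMul_symM]
  rw [h2, hrep (Dm n N) i j]
  exact HasDerivAt.fun_sum fun k _ => (hasDerivAt_Ev n N ![v k, 1] j).const_mul _

lemma hasDerivAt_mul_symM (n : ℕ) (N : M2) (F : Matrix (Fin n) (Fin n) ℝ) (i j : Fin n) :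
    HasDerivAt (fun ε : ℝ => (F * symM n (1 + ε • N)) i j) ((F * Dm n N) i j) 0 := by
  simp only [Matrix.mul_apply]
  exact HasDerivAt.fun_sum fun k _ => (hasDerivAt_symM n N k j).const_mul _

lemma hasDerivAt_symM_mul (n : ℕ) (N : M2) (F : Matrix (Fin n) (Fin n) ℝ) (i j : Fin n) :
    HasDerivAt (fun ε : ℝ => (symM n (1 + ε • N) * F) i j) ((Dm n N * F) i j) 0 := by
  simp only [Matrix.mul_apply]
  exact HasDerivAt.fun_sum fun k _ => (hasDerivAt_symM n N i k).mul_const _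

/-- Differentiating an intertwining relation. -/
lemma Dm_intertwine {n : ℕ} (F G : Matrix (Fin n) (Fin n) ℝ) (N N' : M2)
    (h : ∀ ε : ℝ, F * symM n (1 + ε • N) = symM n (1 + ε • N') * G) :
    F * Dm n N = Dm n N' * G := by
  ext i j
  have h1 := hasDerivAt_mul_symM n N F i j
  have h2 := hasDerivAt_symM_mul n N' G i j
  have h3 : (fun ε : ℝ => (F * symM n (1 + ε • N)) i j) =
      fun ε : ℝ => (symM n (1 + ε • N') * G) i j := by
    funext ε; rw [h ε]
  rw [h3] at h1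
  exact h1.unique h2

lemma symM_mul_Dm {n : ℕ} (g N N' : M2) (h : g * N = N' * g) :
    symM n g * Dm n N = Dm n N' * symM n g := by
  apply Dm_intertwine
  intro ε
  rw [← symM_mul, ← symM_mul]
  congr 1
  rw [Matrix.mul_add, Matrix.add_mul, Matrix.mul_one, Matrix.one_mul, Matrix.mul_smul,
    Matrix.smul_mul, h]

/-- A matrix commuting with the whole Lie algebra is scalar. -/
lemma scalar_of_comm_Dm {n : ℕ} (F : Matrix (Fin n) (Fin n) ℝ)
    (h : ∀ N : M2, F * Dm n N = Dm n N * F) : ∃ c : ℝ, F = c • 1 := by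
  rcases Nat.eq_zero_or_pos n with rfl | hn
  · exact ⟨0, by ext i; exact i.elim0⟩
  have hdiag : ∀ i j : Fin n, i ≠ j → F i j = 0 := by
    intro i j hij
    have h1 := congrFun (congrFun (h !![1, 0; 0, 0]) i) j
    have hD : Dm n !![1, 0; 0, 0] = Matrix.diagonal fun k : Fin n => ((k : ℕ) : ℝ) := by
      ext a b
      simp only [Dm, Matrix.of_apply, Matrix.diagonal_apply, Matrix.cons_val', Matrix.cons_val_zero,
        Matrix.cons_val_one, Matrix.cons_val_fin_one]
      by_cases hab : a = b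
      · subst hab; simp
      · simp [hab]
    rw [hD, Matrix.mul_diagonal, Matrix.diagonal_mul] at h1
    have h2 : F i j * (((j : ℕ) : ℝ) - ((i : ℕ) : ℝ)) = 0 := by linarith
    rcases mul_eq_zero.1 h2 with h3 | h3
    · exact h3
    · exfalso
      apply hij
      ext
      have : ((i : ℕ) : ℝ) = ((j : ℕ) : ℝ) := by linarith
      exact_mod_cast this
  have hstep : ∀ (k : ℕ) (hk : k + 1 < n),
      F ⟨k, by omega⟩ ⟨k, by omega⟩ = F ⟨k + 1, hk⟩ ⟨k + 1, hk⟩ := by
    intro k hk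
    have h1 := congrFun (congrFun (h !![0, 0; 1, 0]) ⟨k, by omega⟩) ⟨k + 1, hk⟩
    have hD : ∀ a b : Fin n, Dm n !![0, 0; 1, 0] a b =
        if (a : ℕ) + 1 = b then ((b : ℕ) : ℝ) else 0 := by
      intro a b
      simp [Dm]
    simp only [Matrix.mul_apply, hD] at h1
    rw [Finset.sum_eq_single (⟨k, by omega⟩ : Fin n),
      Finset.sum_eq_single (⟨k + 1, hk⟩ : Fin n)] at h1
    · simp only [if_true] at h1
      have hpos : (((k + 1 : ℕ)) : ℝ) ≠ 0 := by positivity
      have h2 : (((k + 1 : ℕ)) : ℝ) * F ⟨k, by omega⟩ ⟨k, by omega⟩ =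
          (((k + 1 : ℕ)) : ℝ) * F ⟨k + 1, hk⟩ ⟨k + 1, hk⟩ := by linarith
      exact mul_left_cancel₀ hpos h2
    · intro b _ hb
      have : ¬ ((⟨k, by omega⟩ : Fin n) : ℕ) + 1 = b := by
        intro hh; apply hb; ext; simp at hh ⊢; omega
      simp only [this, if_false, zero_mul]
    · intro hh; exact absurd (Finset.mem_univ _) hh
    · intro b _ hb
      have : ¬ (b : ℕ) + 1 = ((⟨k + 1, hk⟩ : Fin n) : ℕ) := by
        intro hh; apply hb; ext; simp at hh ⊢; omega
      simp only [this, if_false, mul_zero]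
    · intro hh; exact absurd (Finset.mem_univ _) hh
  have hall : ∀ (k : ℕ) (hk : k < n), F ⟨k, hk⟩ ⟨k, hk⟩ = F ⟨0, hn⟩ ⟨0, hn⟩ := by
    intro k
    induction k with
    | zero => intro hk; rfl
    | succ k ih =>
      intro hk
      rw [← hstep k hk, ih]
  refine ⟨F ⟨0, hn⟩ ⟨0, hn⟩, ?_⟩
  ext i j
  by_cases hij : i = j
  · subst hij
    simp [hall i i.2]
  · simp [hij, hdiag i j hij]

/-! ### Two matrices without common eigenvector -/

lemma cayley2 (A : M2) : A * A = A.trace • A - A.det • 1 := by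
  ext i j
  fin_cases i <;> fin_cases j <;>
    simp [Matrix.mul_apply, Fin.sum_univ_two, Matrix.trace_fin_two, Matrix.det_fin_two] <;> ring

lemma conj_formula (A B : M2) (hA : A.det = 1) :
    A * B = (A.trace • (A * B) - B - (A * B).trace • A + B.trace • 1) * A := by
  have hd := hA
  rw [Matrix.det_fin_two] at hd
  ext i j
  fin_cases i <;> fin_cases j <;>
    simp [Matrix.mul_apply, Fin.sum_univ_two, Matrix.trace_fin_two]
  · linear_combination (-((A 0 0 + A 1 1) * B 0 0 + (A 0 0 * B 0 0 + A 0 1 * B 1 0 +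
      (A 1 0 * B 0 1 + A 1 1 * B 1 1)) - (A 0 0 + A 1 1) * (B 0 0 + B 1 1))) * hd
  · linear_combination (-((A 0 0 + A 1 1) * B 0 1)) * hd
  · linear_combination (-((A 0 0 + A 1 1) * B 1 0)) * hd
  · linear_combination (-((A 0 0 + A 1 1) * B 1 1 + (A 0 0 * B 0 0 + A 0 1 * B 1 0 +
      (A 1 0 * B 0 1 + A 1 1 * B 1 1)) - (A 0 0 + A 1 1) * (B 0 0 + B 1 1))) * hd

lemma span_four (A B : M2) (hc : (A * B - B * A).det ≠ 0) (N : M2) :
    ∃ a b c d : ℝ, N = a • 1 + b • A + c • B + d • (A * B) := by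
  have hcne : A * B - B * A ≠ 0 := by
    intro h; apply hc; rw [h]; simp
  have hli : LinearIndependent ℝ ![(1 : M2), A, B, A * B] := by
    rw [Fintype.linearIndependent_iff]
    intro g hg
    simp only [Fin.sum_univ_four, Matrix.cons_val_zero, Matrix.cons_val_one, Matrix.cons_val] at hg
    have h3 : g 3 = 0 := by
      have h := congrArg (fun Y : M2 => (Y * (A * B - B * A)).trace) hg
      have e : ∀ a b c d : ℝ, ((a • (1 : M2) + b • A + c • B + d • (A * B)) *
          (A * B - B * A)).trace = -d * (A * B - B * A).det := by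
        intro a b c d
        simp only [Matrix.trace_fin_two, Matrix.det_fin_two, Matrix.mul_apply,
          Fin.sum_univ_two, Matrix.add_apply, Matrix.smul_apply, Matrix.sub_apply, smul_eq_mul,
          Matrix.one_apply_eq]
        simp
        ring
      simp only [e, Matrix.zero_mul, Matrix.trace_zero] at h
      rcases mul_eq_zero.1 h with h' | h'
      · linarith
      · exact absurd h' hc
    have h1 : g 1 = 0 := by
      have h : (g 0 • (1 : M2) + g 1 • A + g 2 • B) * B - B * (g 0 • (1 : M2) + g 1 • A + g 2 • B)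
          = 0 := by
        rw [h3, zero_smul, add_zero] at hg
        rw [hg]; simp
      have h' : g 1 • (A * B - B * A) = 0 := by
        rw [← h]
        simp only [Matrix.add_mul, Matrix.mul_add, Matrix.smul_mul, Matrix.mul_smul,
          Matrix.one_mul, Matrix.mul_one, smul_sub]
        abel
      exact (smul_eq_zero.1 h').resolve_right hcne
    have h2 : g 2 = 0 := by
      have h : A * (g 0 • (1 : M2) + g 1 • A + g 2 • B) - (g 0 • (1 : M2) + g 1 • A + g 2 • B) * A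
          = 0 := by
        rw [h3, zero_smul, add_zero] at hg
        rw [hg]; simp
      have h' : g 2 • (A * B - B * A) = 0 := by
        rw [← h]
        simp only [Matrix.add_mul, Matrix.mul_add, Matrix.smul_mul, Matrix.mul_smul,
          Matrix.one_mul, Matrix.mul_one, smul_sub]
        abel
      exact (smul_eq_zero.1 h').resolve_right hcne
    have h0 : g 0 = 0 := by
      rw [h1, h2, h3] at hg
      have := congrFun (congrFun hg 0) 0
      simpa using this
    intro i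
    fin_cases i
    · exact h0
    · exact h1
    · exact h2
    · exact h3
  have hspan := hli.span_eq_top_of_card_eq_finrank' (by simp [Module.finrank_matrix])
  have hN : N ∈ Submodule.span ℝ (Set.range ![(1 : M2), A, B, A * B]) := by
    rw [hspan]; trivial
  obtain ⟨c, hc'⟩ := (Submodule.mem_span_range_iff_exists_fun ℝ).1 hN
  refine ⟨c 0, c 1, c 2, c 3, ?_⟩
  rw [← hc']
  simp [Fin.sum_univ_four]

lemma symM_mul_adjugate (n : ℕ) (A : M2) (hA : A.det = 1) :
    symM n A * symM n (adjugate A) = 1 := by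
  rw [← symM_mul, Matrix.mul_adjugate, hA, one_smul, symM_one]

lemma comm_Dm_of_comm {n : ℕ} (F : Matrix (Fin n) (Fin n) ℝ) (A : M2)
    (h : ∀ a b : ℝ, F * symM n (a • 1 + b • A) = symM n (a • 1 + b • A) * F) :
    F * Dm n A = Dm n A * F := by
  apply Dm_intertwine
  intro ε
  have := h 1 ε
  rwa [one_smul] at this

/-- If `F` commutes with the images of `ℝ[A]` and of `ℝ[B]`, where `A`, `B` have no common
eigenvector, then `F` is scalar. -/
lemma scalar_of_comm {n : ℕ} (F : Matrix (Fin n) (Fin n) ℝ) (A B : M2) (hA : A.det = 1)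
    (ht : A.trace ≠ 0) (hc : (A * B - B * A).det ≠ 0)
    (h1 : ∀ a b : ℝ, F * symM n (a • 1 + b • A) = symM n (a • 1 + b • A) * F)
    (h2 : ∀ a b : ℝ, F * symM n (a • 1 + b • B) = symM n (a • 1 + b • B) * F) :
    ∃ c : ℝ, F = c • 1 := by
  have hDA := comm_Dm_of_comm F A h1
  have hDB := comm_Dm_of_comm F B h2
  have hD1 : F * Dm n 1 = Dm n 1 * F := by rw [Dm_one]; simp
  have hFA : F * symM n A = symM n A * F := by
    have := h1 0 1
    simpa using this
  set N' : M2 := A.trace • (A * B) - B - (A * B).trace • A + B.trace • 1 with hN'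
  have hint : symM n A * Dm n B = Dm n N' * symM n A := symM_mul_Dm A B N' (conj_formula A B hA)
  have hFN : F * Dm n N' = Dm n N' * F := by
    have e1 : F * Dm n N' * symM n A = Dm n N' * F * symM n A := by
      rw [Matrix.mul_assoc, ← hint, ← Matrix.mul_assoc, hFA, Matrix.mul_assoc, hDB,
        ← Matrix.mul_assoc, hint, Matrix.mul_assoc, Matrix.mul_assoc, hFA]
    have e2 := congrArg (fun Y => Y * symM n (adjugate A)) e1
    simpa only [Matrix.mul_assoc, symM_mul_adjugate n A hA, Matrix.mul_one] using e2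
  have hDN' : Dm n N' = A.trace • Dm n (A * B) - Dm n B - (A * B).trace • Dm n A +
      B.trace • Dm n 1 := by
    have : N' = A.trace • (A * B) + (-1 : ℝ) • B + (-(A * B).trace) • A + B.trace • 1 := by
      rw [hN', neg_smul, neg_smul, one_smul]; abel
    rw [this, Dm_add, Dm_add, Dm_add, Dm_smul, Dm_smul, Dm_smul, Dm_smul, neg_smul, neg_smul,
      one_smul]
    abel
  have hDAB : F * Dm n (A * B) = Dm n (A * B) * F := by
    have e3 : A.trace • Dm n (A * B) = Dm n N' + Dm n B + (A * B).trace • Dm n A -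
        B.trace • Dm n 1 := by rw [hDN']; abel
    have e4 : A.trace • (F * Dm n (A * B)) = A.trace • (Dm n (A * B) * F) := by
      rw [← Matrix.mul_smul, ← Matrix.smul_mul, e3]
      simp only [Matrix.mul_add, Matrix.mul_sub, Matrix.add_mul, Matrix.sub_mul, Matrix.mul_smul,
        Matrix.smul_mul, hFN, hDA, hDB, hD1]
    exact smul_right_injective _ ht e4
  apply scalar_of_comm_Dm
  intro N
  obtain ⟨a, b, c, d, rfl⟩ := span_four A B hc N
  simp only [Dm_add, Dm_smul, Matrix.mul_add, Matrix.add_mul, Matrix.mul_smul, Matrix.smul_mul,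
    hD1, hDA, hDB, hDAB]

/-! ### The commutant of `ℝ[g]` -/

lemma exists_cyclic (g : M2) (hg : ¬ ∃ c : ℝ, g = c • 1) :
    ∃ v : Fin 2 → ℝ, ∀ w : Fin 2 → ℝ, ∃ a b : ℝ, v ᵥ* (a • 1 + b • g) = w := by
  have key : ∀ v : Fin 2 → ℝ, v 0 * (v ᵥ* g) 1 - v 1 * (v ᵥ* g) 0 ≠ 0 →
      ∀ w : Fin 2 → ℝ, ∃ a b : ℝ, v ᵥ* (a • 1 + b • g) = w := by
    intro v hv w
    set p := (v ᵥ* g) 0 with hp
    set q := (v ᵥ* g) 1 with hq
    refine ⟨(w 0 * q - w 1 * p) / (v 0 * q - v 1 * p), (v 0 * w 1 - v 1 * w 0) /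
      (v 0 * q - v 1 * p), ?_⟩
    rw [vecMul_add, vecMul_smul, vecMul_smul, vecMul_one]
    ext i
    fin_cases i
    · simp only [Fin.zero_eta, Pi.add_apply, Pi.smul_apply, smul_eq_mul, ← hp]
      rw [div_mul_eq_mul_div, div_mul_eq_mul_div, ← add_div, div_eq_iff hv]
      ring
    · simp only [Fin.mk_one, Pi.add_apply, Pi.smul_apply, smul_eq_mul, ← hq]
      rw [div_mul_eq_mul_div, div_mul_eq_mul_div, ← add_div, div_eq_iff hv]
      ring
  by_cases h01 : g 0 1 = 0
  · by_cases h10 : g 1 0 = 0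
    · have h2 : g 0 0 ≠ g 1 1 := by
        intro h
        apply hg
        refine ⟨g 0 0, ?_⟩
        ext i j
        fin_cases i <;> fin_cases j <;> simp [h01, h10, h]
      refine ⟨![1, 1], key _ ?_⟩
      simp only [vecMul, dotProduct, Fin.sum_univ_two, Matrix.cons_val_zero, Matrix.cons_val_one,
        h01, h10]
      intro h; apply h2; linarith
    · refine ⟨![0, 1], key _ ?_⟩
      simp only [vecMul, dotProduct, Fin.sum_univ_two, Matrix.cons_val_zero, Matrix.cons_val_one]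
      intro h; apply h10; linarith
  · refine ⟨![1, 0], key _ ?_⟩
    simp only [vecMul, dotProduct, Fin.sum_univ_two, Matrix.cons_val_zero, Matrix.cons_val_one]
    intro h; apply h01; linarith

lemma exists_comb_Ev {n : ℕ} (r : Fin n → ℝ) :
    ∃ l : Fin n → ℝ, r = ∑ k : Fin n, l k • Ev n ![(k : ℝ), 1] := by
  set v : Fin n → ℝ := fun i => (i : ℝ) with hv
  have hinj : Function.Injective v := by
    intro i j hij
    have : ((i : ℕ) : ℝ) = ((j : ℕ) : ℝ) := hij
    exact Fin.ext (by exact_mod_cast this)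
  have hdet : (vandermonde v).det ≠ 0 := det_vandermonde_ne_zero_iff.2 hinj
  have hu : IsUnit (vandermonde v).det := isUnit_iff_ne_zero.2 hdet
  refine ⟨r ᵥ* (vandermonde v)⁻¹, ?_⟩
  have h1 : r = (r ᵥ* (vandermonde v)⁻¹) ᵥ* vandermonde v := by
    rw [vecMul_vecMul, Matrix.nonsing_inv_mul _ hu, vecMul_one]
  conv_lhs => rw [h1]
  ext j
  simp [vecMul, dotProduct, vandermonde, Ev, hv]

/-- A matrix commuting with the image of `ℝ[g]`, `g` not scalar, is a combination of
elements of that image. -/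
lemma mem_span_of_comm {n : ℕ} (F : Matrix (Fin n) (Fin n) ℝ) (g : M2)
    (hg : ¬ ∃ c : ℝ, g = c • 1)
    (h : ∀ a b : ℝ, F * symM n (a • 1 + b • g) = symM n (a • 1 + b • g) * F) :
    ∃ (l : Fin n → ℝ) (a b : Fin n → ℝ), F = ∑ k, l k • symM n (a k • 1 + b k • g) := by
  obtain ⟨v, hv⟩ := exists_cyclic g hg
  obtain ⟨l, hl⟩ := exists_comb_Ev (Ev n v ᵥ* F)
  choose a b hab using fun k : Fin n => hv ![(k : ℝ), 1]
  refine ⟨l, a, b, ?_⟩
  set A : Matrix (Fin n) (Fin n) ℝ := ∑ k, l k • symM n (a k • 1 + b k • g) with hA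
  have hvA : Ev n v ᵥ* A = Ev n v ᵥ* F := by
    rw [hl, hA]
    rw [Matrix.vecMul_sum]
    refine Finset.sum_congr rfl fun k _ => ?_
    rw [vecMul_smul, Ev_vecMul_symM, hab]
  have hcommA : ∀ c d : ℝ, A * symM n (c • 1 + d • g) = symM n (c • 1 + d • g) * A := by
    intro c d
    rw [hA, Finset.sum_mul, Finset.mul_sum]
    refine Finset.sum_congr rfl fun k _ => ?_
    rw [Matrix.smul_mul, Matrix.mul_smul, ← symM_mul, ← symM_mul]
    congr 2
    simp only [Matrix.add_mul, Matrix.mul_add, Matrix.smul_mul, Matrix.mul_smul, Matrix.one_mul,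
      Matrix.mul_one, smul_add, smul_smul, mul_comm]
    abel
  apply ext_Ev
  intro w
  obtain ⟨c, d, hcd⟩ := hv w
  rw [← hcd, ← Ev_vecMul_symM, vecMul_vecMul, vecMul_vecMul, ← h, ← hcommA, ← vecMul_vecMul,
    ← vecMul_vecMul, hvA]

end Pool.Agent.LibHyperelliptic
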