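import Pool.Agent.LibHyperelliptic.Commutant

set_option autoImplicit false

noncomputable section

open Matrix Module

namespace Pool.Agent.LibHyperelliptic

/-- The space of real `n × n` matrices. -/
abbrev Mn (n : ℕ) : Type := Matrix (Fin n) (Fin n) ℝ

/-- `X ↦ A * X * B`. -/
def sand {n : ℕ} (A B : Mn n) : End ℝ (Mn n) where
  toFun X := A * X * B
  map_add' X Y := by simp [Matrix.mul_add, Matrix.add_mul]
  map_smul' t X := by simp

/-- `X ↦ A * Xᵀ * B`. -/
def sandT {n : ℕ} (A B : Mn n) : End ℝ (Mn n) where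
  toFun X := A * Xᵀ * B
  map_add' X Y := by simp [Matrix.mul_add, Matrix.add_mul]
  map_smul' t X := by simp

@[simp] lemma sand_apply {n : ℕ} (A B X : Mn n) : sand A B X = A * X * B := rfl
@[simp] lemma sandT_apply {n : ℕ} (A B X : Mn n) : sandT A B X = A * Xᵀ * B := rfl

lemma trace_end {n : ℕ} (f : End ℝ (Mn n)) :
    LinearMap.trace ℝ (Mn n) f = ∑ i, ∑ j, f (Matrix.single i j 1) i j := by
  have hrepr : ∀ (Y : Mn n) (i j : Fin n),
      (Matrix.stdBasis ℝ (Fin n) (Fin n)).repr Y (i, j) = Y i j := by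
    intro Y i j
    simp [Matrix.stdBasis]
  rw [LinearMap.trace_eq_matrix_trace ℝ (Matrix.stdBasis ℝ (Fin n) (Fin n)), Matrix.trace]
  simp only [Matrix.diag_apply, LinearMap.toMatrix_apply]
  rw [Fintype.sum_prod_type]
  refine Finset.sum_congr rfl fun i _ => Finset.sum_congr rfl fun j _ => ?_
  rw [hrepr, Matrix.stdBasis_eq_single]

lemma trace_sand {n : ℕ} (A B : Mn n) :
    LinearMap.trace ℝ (Mn n) (sand A B) = A.trace * B.trace := by
  rw [trace_end, Matrix.trace, Matrix.trace, Finset.sum_mul_sum]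
  refine Finset.sum_congr rfl fun i _ => Finset.sum_congr rfl fun j _ => ?_
  simp [Matrix.mul_apply, Matrix.single_apply, ite_and]

lemma trace_sandT {n : ℕ} (A B : Mn n) :
    LinearMap.trace ℝ (Mn n) (sandT A B) = (A * Bᵀ).trace := by
  rw [trace_end, Matrix.trace]
  refine Finset.sum_congr rfl fun i _ => ?_
  simp only [Matrix.diag_apply, Matrix.mul_apply, Matrix.transpose_apply, sandT_apply]
  refine Finset.sum_congr rfl fun j _ => ?_
  simp [Matrix.single_apply, ite_and]

/-- The anti-involution attached to the invariant form. -/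
def starE (n : ℕ) : End ℝ (Mn n) := sandT (Pm n) (Qm n)

/-- The sign of the form. -/
def sgn (n : ℕ) : ℝ := (-1) ^ (n - 1)

lemma sgn_sq (n : ℕ) : sgn n * sgn n = 1 := by
  rw [sgn, ← mul_pow]; simp

lemma Qm_transpose (n : ℕ) : (Qm n)ᵀ = sgn n • Qm n := by
  have h1 : (Qm n)ᵀ * (Pm n)ᵀ = 1 := by
    rw [← Matrix.transpose_mul, Pm_mul_Qm, Matrix.transpose_one]
  rw [Pm_transpose] at h1
  have h2 := congrArg (fun Y => Y * (sgn n • Qm n)) h1
  simp only [Matrix.mul_assoc, Matrix.smul_mul, Matrix.mul_smul, Pm_mul_Qm, Matrix.mul_one,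
    Matrix.one_mul, smul_smul] at h2
  rw [← h2]
  change _ = ((sgn n * sgn n) • (Qm n)ᵀ)
  rw [sgn_sq, one_smul]

lemma starE_apply (n : ℕ) (X : Mn n) : starE n X = Pm n * Xᵀ * Qm n := rfl

lemma starE_sq (n : ℕ) : starE n * starE n = 1 := by
  apply LinearMap.ext
  intro X
  simp only [Module.End.mul_apply, starE_apply, Module.End.one_apply, Matrix.transpose_mul,
    Matrix.transpose_transpose, Pm_transpose, Qm_transpose]
  have : Pm n * (sgn n • Qm n * (X * (-1 : ℝ) ^ (n - 1) • Pm n)) * Qm n =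
      (sgn n * sgn n) • ((Pm n * Qm n) * X * (Pm n * Qm n)) := by
    simp only [Matrix.mul_assoc, Matrix.smul_mul, Matrix.mul_smul, smul_smul]
    rfl
  rw [this, sgn_sq, Pm_mul_Qm]
  simp

lemma starE_mul (n : ℕ) (X Y : Mn n) : starE n (X * Y) = starE n Y * starE n X := by
  simp only [starE_apply, Matrix.transpose_mul]
  have : Pm n * Yᵀ * Qm n * (Pm n * Xᵀ * Qm n) = Pm n * Yᵀ * (Qm n * Pm n) * Xᵀ * Qm n := by
    simp only [Matrix.mul_assoc]
  rw [this, Qm_mul_Pm]
  simp only [Matrix.mul_assoc, Matrix.mul_one]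

lemma starE_symM (n : ℕ) (g : M2) : starE n (symM n g) = symM n (adjugate g) := by
  have h := symM_mul_Pm n (adjugate g)
  have h0 : adjugate (adjugate g) = g := by
    rw [adjugate_fin_two, adjugate_fin_two]
    ext i j; fin_cases i <;> fin_cases j <;> simp
  rw [h0] at h
  rw [starE_apply, ← h, Matrix.mul_assoc, Pm_mul_Qm, Matrix.mul_one]

lemma trace_starE (n : ℕ) : LinearMap.trace ℝ (Mn n) (starE n) = sgn n * n := by
  rw [starE, trace_sandT, Qm_transpose, Matrix.mul_smul, Pm_mul_Qm, Matrix.trace_smul,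
    Matrix.trace_one]
  simp

/-! ### Skew elements commuting with an involution -/

/-- Data: a traceless invertible `2 × 2` matrix. -/
structure Inv2 where
  c : M2
  tr : c.trace = 0
  det : c.det ≠ 0

lemma Inv2.adj (e : Inv2) : adjugate e.c = -e.c := by
  have h := e.tr
  rw [Matrix.trace_fin_two] at h
  rw [adjugate_fin_two]
  ext i j; fin_cases i <;> fin_cases j <;> simp <;> linarith

lemma Inv2.sq (e : Inv2) : e.c * e.c = (-e.c.det) • 1 := by
  rw [cayley2, e.tr, zero_smul, zero_sub, neg_smul]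

/-- image of the involution -/
def Inv2.C (n : ℕ) (e : Inv2) : Mn n := symM n e.c

/-- The scalar square of `Inv2.C`. -/
def Inv2.k (n : ℕ) (e : Inv2) : ℝ := (-e.c.det) ^ (n - 1)

/-- The inverse of `Inv2.C`. -/
def Inv2.C' (n : ℕ) (e : Inv2) : Mn n := (e.k n)⁻¹ • e.C n

lemma Inv2.k_ne (n : ℕ) (e : Inv2) : e.k n ≠ 0 := pow_ne_zero _ (neg_ne_zero.2 e.det)

lemma Inv2.C_sq (n : ℕ) (e : Inv2) : e.C n * e.C n = e.k n • 1 := by
  rw [Inv2.C, ← symM_mul, e.sq, symM_smul_one]; rfl

lemma Inv2.C_mul_C' (n : ℕ) (e : Inv2) : e.C n * e.C' n = 1 := by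
  rw [Inv2.C', Matrix.mul_smul, e.C_sq, smul_smul, inv_mul_cancel₀ (e.k_ne n), one_smul]

lemma Inv2.C'_mul_C (n : ℕ) (e : Inv2) : e.C' n * e.C n = 1 := by
  rw [Inv2.C', Matrix.smul_mul, e.C_sq, smul_smul, inv_mul_cancel₀ (e.k_ne n), one_smul]

lemma symM_neg (n : ℕ) (g : M2) : symM n (-g) = sgn n • symM n g := by
  rw [← neg_one_smul ℝ g, symM_smul]; rfl

lemma Inv2.star_C (n : ℕ) (e : Inv2) : starE n (e.C n) = sgn n • e.C n := by
  rw [Inv2.C, starE_symM, e.adj, symM_neg]

lemma Inv2.star_C' (n : ℕ) (e : Inv2) : starE n (e.C' n) = sgn n • e.C' n := by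
  rw [Inv2.C', map_smul, e.star_C, smul_comm]

/-- Conjugation by the involution. -/
def Inv2.T (n : ℕ) (e : Inv2) : End ℝ (Mn n) := sand (e.C n) (e.C' n)

lemma Inv2.T_apply (n : ℕ) (e : Inv2) (X : Mn n) : e.T n X = e.C n * X * e.C' n := rfl

lemma Inv2.T_sq (n : ℕ) (e : Inv2) : e.T n * e.T n = 1 := by
  apply LinearMap.ext
  intro X
  simp only [Module.End.mul_apply, Inv2.T_apply, Module.End.one_apply]
  have h : e.C n * (e.C n * X * e.C' n) * e.C' n = (e.C n * e.C n) * X * (e.C' n * e.C' n) := by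
    simp only [Matrix.mul_assoc]
  have h2 : e.C' n * e.C' n = (e.k n)⁻¹ • 1 := by
    rw [Inv2.C', Matrix.smul_mul, Matrix.mul_smul, e.C_sq, smul_smul, smul_smul]
    congr 1
    have := e.k_ne n
    field_simp
  rw [h, e.C_sq, h2]
  simp only [Matrix.smul_mul, Matrix.mul_smul, Matrix.one_mul, Matrix.mul_one, smul_smul]
  rw [inv_mul_cancel₀ (e.k_ne n), one_smul]

lemma Inv2.T_star (n : ℕ) (e : Inv2) : e.T n * starE n = starE n * e.T n := by
  apply LinearMap.ext
  intro X
  simp only [Module.End.mul_apply, Inv2.T_apply]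
  rw [starE_mul, starE_mul, e.star_C, e.star_C']
  have h : sgn n • e.C' n * (starE n X * sgn n • e.C n) =
      (sgn n * sgn n) • (e.C' n * starE n X * e.C n) := by
    simp only [Matrix.smul_mul, Matrix.mul_smul, smul_smul, Matrix.mul_assoc]
  rw [h, sgn_sq, one_smul, Inv2.C']
  simp only [Matrix.smul_mul, Matrix.mul_smul]

lemma Inv2.trace_T (n : ℕ) (e : Inv2) :
    LinearMap.trace ℝ (Mn n) (e.T n) = (e.C n).trace * (e.C' n).trace := trace_sand _ _

lemma Inv2.trace_T_star (n : ℕ) (e : Inv2) :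
    LinearMap.trace ℝ (Mn n) (e.T n * starE n) = n := by
  have h : e.T n * starE n = sandT (e.C n * Pm n) (Qm n * e.C' n) := by
    apply LinearMap.ext
    intro X
    simp only [Module.End.mul_apply, Inv2.T_apply, starE_apply, sandT_apply, Matrix.mul_assoc]
  rw [h, trace_sandT, Matrix.transpose_mul, Qm_transpose]
  have h2 : e.C n * Pm n * ((e.C' n)ᵀ * sgn n • Qm n) = sgn n • (e.C n * starE n (e.C' n)) := by
    rw [starE_apply]
    simp only [Matrix.mul_smul, Matrix.mul_assoc]
  rw [h2, e.star_C', Matrix.mul_smul, smul_smul, sgn_sq, one_smul, e.C_mul_C', Matrix.trace_one]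
  simp

lemma Inv2.trace_nonneg (n : ℕ) (e : Inv2) : 0 ≤ (e.C n).trace * (e.C' n).trace := by
  rcases Nat.even_or_odd (n - 1) with hev | hodd
  · rw [Inv2.C', Matrix.trace_smul, smul_eq_mul]
    have hk : 0 < e.k n := by
      rw [Inv2.k]
      exact hev.pow_pos (neg_ne_zero.2 e.det)
    have : (e.C n).trace * ((e.k n)⁻¹ * (e.C n).trace) = (e.k n)⁻¹ * ((e.C n).trace) ^ 2 := by
      ring
    rw [this]
    positivity
  · have h1 := trace_symM_adjugate n e.c
    rw [e.adj, symM_neg, Matrix.trace_smul, sgn, hodd.neg_one_pow] at h1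
    have h2 : (e.C n).trace = 0 := by
      rw [Inv2.C]
      simp only [neg_smul, one_smul] at h1
      linarith
    rw [h2, zero_mul]

/-- The space of skew matrices. -/
def skew (n : ℕ) : Submodule ℝ (Mn n) where
  carrier := {X | starE n X = -X}
  add_mem' := by
    intro X Y hX hY
    simp only [Set.mem_ofPred_eq] at *
    rw [map_add, hX, hY, neg_add]
  zero_mem' := by simp
  smul_mem' := by
    intro t X hX
    simp only [Set.mem_ofPred_eq] at *
    rw [map_smul, hX, smul_neg]

lemma mem_skew {n : ℕ} {X : Mn n} : X ∈ skew n ↔ starE n X = -X := Iff.rfl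

/-- The space of skew matrices fixed by the involution. -/
def Inv2.U (n : ℕ) (e : Inv2) : Submodule ℝ (Mn n) where
  carrier := {X | starE n X = -X ∧ e.T n X = X}
  add_mem' := by
    intro X Y hX hY
    simp only [Set.mem_ofPred_eq] at *
    exact ⟨by rw [map_add, hX.1, hY.1, neg_add], by rw [map_add, hX.2, hY.2]⟩
  zero_mem' := by simp
  smul_mem' := by
    intro t X hX
    simp only [Set.mem_ofPred_eq] at *
    exact ⟨by rw [map_smul, hX.1, smul_neg], by rw [map_smul, hX.2]⟩

lemma Inv2.mem_U {n : ℕ} {e : Inv2} {X : Mn n} :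
    X ∈ e.U n ↔ starE n X = -X ∧ e.T n X = X := Iff.rfl

lemma finrank_skew (n : ℕ) :
    (finrank ℝ (skew n) : ℝ) = (1 / 2) * ((n : ℝ) * n - sgn n * n) := by
  set p : End ℝ (Mn n) := (1 / 2 : ℝ) • (1 - starE n) with hp
  have hproj : LinearMap.IsProj (skew n) p := by
    constructor
    · intro X
      rw [mem_skew, hp]
      have h2 : starE n (starE n X) = X := by
        have := congrArg (fun f : End ℝ (Mn n) => f X) (starE_sq n)
        simpa using this
      simp only [LinearMap.smul_apply, LinearMap.sub_apply, Module.End.one_apply, map_smul,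
        map_sub, h2]
      rw [← smul_neg, neg_sub]
    · intro X hX
      rw [mem_skew] at hX
      rw [hp]
      simp only [LinearMap.smul_apply, LinearMap.sub_apply, Module.End.one_apply, hX, sub_neg_eq_add]
      rw [← two_smul ℝ X, smul_smul]
      norm_num
  have htr := hproj.trace
  rw [← htr, hp, map_smul, map_sub, LinearMap.trace_one, trace_starE]
  simp [Module.finrank_matrix]

lemma Inv2.finrank_U (n : ℕ) (e : Inv2) :
    (finrank ℝ (e.U n) : ℝ) = (1 / 4) * ((n : ℝ) * n - sgn n * n +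
      (e.C n).trace * (e.C' n).trace - n) := by
  set p : End ℝ (Mn n) := (1 / 4 : ℝ) • (1 - starE n + e.T n - e.T n * starE n) with hp
  have h2 : ∀ X, starE n (starE n X) = X := by
    intro X
    have := congrArg (fun f : End ℝ (Mn n) => f X) (starE_sq n)
    simpa using this
  have h3 : ∀ X, e.T n (e.T n X) = X := by
    intro X
    have := congrArg (fun f : End ℝ (Mn n) => f X) (e.T_sq n)
    simpa using this
  have h4 : ∀ X, e.T n (starE n X) = starE n (e.T n X) := by
    intro X
    have := congrArg (fun f : End ℝ (Mn n) => f X) (e.T_star n)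
    simpa using this
  have hproj : LinearMap.IsProj (e.U n) p := by
    constructor
    · intro X
      rw [Inv2.mem_U, hp]
      simp only [LinearMap.smul_apply, LinearMap.sub_apply, LinearMap.add_apply,
        Module.End.one_apply, Module.End.mul_apply, map_smul, map_sub, map_add, h2, h3, h4]
      constructor
      · rw [← smul_neg]
        congr 1
        abel
      · congr 1
        abel
    · intro X hX
      rw [Inv2.mem_U] at hX
      rw [hp]
      simp only [LinearMap.smul_apply, LinearMap.sub_apply, LinearMap.add_apply,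
        Module.End.one_apply, Module.End.mul_apply, hX.1, hX.2, map_neg]
      have : X - -X + X - -X = (4 : ℝ) • X := by
        have : (4 : ℝ) • X = X + X + X + X := by
          rw [show (4 : ℝ) = 1 + 1 + 1 + 1 by norm_num]; simp only [add_smul, one_smul]
        rw [this]; abel
      rw [this, smul_smul]
      norm_num
  have htr := hproj.trace
  rw [← htr, hp, map_smul, map_sub, map_add, map_sub, LinearMap.trace_one, trace_starE,
    e.trace_T, e.trace_T_star]
  simp [Module.finrank_matrix]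

/-- The dimension count. -/
lemma exists_triple {n : ℕ} (hn : 4 ≤ n) (e₁ e₂ e₃ : Inv2) :
    ∃ X₁ ∈ e₁.U n, ∃ X₂ ∈ e₂.U n, ∃ X₃ ∈ e₃.U n,
      X₁ + X₂ + X₃ = 0 ∧ ¬ (X₁ = 0 ∧ X₂ = 0 ∧ X₃ = 0) := by
  set L : ((e₁.U n × e₂.U n) × e₃.U n) →ₗ[ℝ] skew n :=
    { toFun := fun x => ⟨(x.1.1 : Mn n) + x.1.2 + x.2, by
        rw [mem_skew, map_add, map_add, x.1.1.2.1, x.1.2.2.1, x.2.2.1]; abel⟩
      map_add' := by
        intro x y
        ext : 1
        simp
        abel
      map_smul' := by
        intro t x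
        ext : 1
        simp } with hL
  have hlt : finrank ℝ (skew n) < finrank ℝ ((e₁.U n × e₂.U n) × e₃.U n) := by
    rw [Module.finrank_prod, Module.finrank_prod]
    have h0 := finrank_skew n
    have h1 := e₁.finrank_U n
    have h2 := e₂.finrank_U n
    have h3 := e₃.finrank_U n
    have t1 := e₁.trace_nonneg n
    have t2 := e₂.trace_nonneg n
    have t3 := e₃.trace_nonneg n
    have hreal : (finrank ℝ (skew n) : ℝ) < (finrank ℝ (e₁.U n) : ℝ) + finrank ℝ (e₂.U n) +
        finrank ℝ (e₃.U n) := by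
      rw [h0, h1, h2, h3]
      have hn' : (4 : ℝ) ≤ n := by exact_mod_cast hn
      rcases Nat.even_or_odd (n - 1) with hev | hodd
      · have hs : sgn n = 1 := hev.neg_one_pow
        have hn5 : (5 : ℝ) ≤ n := by
          have : 5 ≤ n := by
            rcases hev with ⟨k, hk⟩
            omega
          exact_mod_cast this
        rw [hs]
        nlinarith
      · have hs : sgn n = -1 := hodd.neg_one_pow
        rw [hs]
        nlinarith
    exact_mod_cast hreal
  have hker := LinearMap.ker_ne_bot_of_finrank_lt (f := L) hlt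
  obtain ⟨x, hx, hx0⟩ := (Submodule.ne_bot_iff _).1 hker
  refine ⟨x.1.1, x.1.1.2, x.1.2, x.1.2.2, x.2, x.2.2, ?_, ?_⟩
  · have := congrArg (Subtype.val) (LinearMap.mem_ker.1 hx)
    simpa [hL] using this
  · rintro ⟨h1, h2, h3⟩
    apply hx0
    apply Prod.ext
    · apply Prod.ext
      · exact Subtype.ext h1
      · exact Subtype.ext h2
    · exact Subtype.ext h3

end Pool.Agent.LibHyperelliptic
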