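import Pool.Agent.LibHyperelliptic.Hexagon
import Pool.Agent.LibHyperelliptic.CharVar

set_option autoImplicit false

noncomputable section

open Matrix
open scoped MatrixGroups

namespace Pool.Agent.LibHyperelliptic

/-! ### The ping-pong -/

/-- `Q ↦ R Q Rᵀ` for the six reflections. -/
def hexT (i : Fin 6) : Equiv.Perm M2 :=
  Function.Involutive.toPerm (fun Q => hexR i * Q * (hexR i)ᵀ) (by
    intro Q
    have h2 : (hexR i)ᵀ * (hexR i)ᵀ = 1 := by
      rw [← Matrix.transpose_mul, hexR_sq, Matrix.transpose_one]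
    calc hexR i * (hexR i * Q * (hexR i)ᵀ) * (hexR i)ᵀ =
        (hexR i * hexR i) * Q * ((hexR i)ᵀ * (hexR i)ᵀ) := by simp only [Matrix.mul_assoc]
      _ = Q := by rw [hexR_sq, h2, Matrix.one_mul, Matrix.mul_one])

lemma hexT_apply (i : Fin 6) (Q : M2) : hexT i Q = hexR i * Q * (hexR i)ᵀ := rfl

lemma hexT_sq (i : Fin 6) : hexT i * hexT i = 1 := by
  ext1 x
  exact (Function.Involutive.toPerm_involutive _) x

lemma hexR_anti' (i j : Fin 6) (h : hexAdj i j) : hexR i * hexR j = -(hexR j * hexR i) := by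
  rcases h with rfl | rfl
  · exact hexR_anti i
  · rw [hexR_anti, neg_neg]

lemma hexT_comm (i j : Fin 6) (h : hexAdj i j) : hexT i * hexT j = hexT j * hexT i := by
  ext1 Q
  change hexR i * (hexR j * Q * (hexR j)ᵀ) * (hexR i)ᵀ =
    hexR j * (hexR i * Q * (hexR i)ᵀ) * (hexR j)ᵀ
  have h1 := hexR_anti' i j h
  have h2 : (hexR j)ᵀ * (hexR i)ᵀ = -((hexR i)ᵀ * (hexR j)ᵀ) := by
    rw [← Matrix.transpose_mul, h1, Matrix.transpose_neg, Matrix.transpose_mul]
  calc _ = (hexR i * hexR j) * Q * ((hexR j)ᵀ * (hexR i)ᵀ) := by simp only [Matrix.mul_assoc]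
    _ = (hexR j * hexR i) * Q * ((hexR i)ᵀ * (hexR j)ᵀ) := by
        rw [h1, h2, Matrix.neg_mul, Matrix.neg_mul, Matrix.mul_neg, neg_neg]
    _ = _ := by simp only [Matrix.mul_assoc]

/-- The quarter turn. -/
def hexE : M2 := !![0, 1; -1, 0]

/-- The defining functions of the half planes. -/
def hexF (i : Fin 6) (Q : M2) : ℝ := -(hexR i * Q * hexE).trace

/-- Positive definite symmetric matrices. -/
def PD (Q : M2) : Prop := Q 0 1 = Q 1 0 ∧ 0 < Q 0 0 ∧ 0 < Q 1 1 ∧ Q 0 1 * Q 0 1 < Q 0 0 * Q 1 1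

lemma det_hexR (i : Fin 6) : (hexR i).det = -1 := by
  have h := r3_sq
  fin_cases i <;> simp [hexR, Matrix.det_fin_two] <;> nlinarith

lemma trace_hexR (i : Fin 6) : hexR i 1 1 = -hexR i 0 0 := by
  fin_cases i <;> simp [hexR]

lemma PD_hexT (i : Fin 6) (Q : M2) (hQ : PD Q) : PD (hexT i Q) := by
  obtain ⟨h1, h2, h3, h4⟩ := hQ
  have hd := det_hexR i
  rw [Matrix.det_fin_two] at hd
  set a := hexR i 0 0
  set b := hexR i 0 1
  set c := hexR i 1 0
  set d := hexR i 1 1
  have key : ∀ x y : ℝ, (x ≠ 0 ∨ y ≠ 0) → 0 < x * x * Q 0 0 + 2 * x * y * Q 0 1 + y * y * Q 1 1 := by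
    intro x y hxy
    have h5 : 0 < Q 0 0 * (x * x * Q 0 0 + 2 * x * y * Q 0 1 + y * y * Q 1 1) := by
      have h6 : Q 0 0 * (x * x * Q 0 0 + 2 * x * y * Q 0 1 + y * y * Q 1 1) =
          (x * Q 0 0 + y * Q 0 1) ^ 2 + y ^ 2 * (Q 0 0 * Q 1 1 - Q 0 1 * Q 0 1) := by ring
      rw [h6]
      by_cases hy : y = 0
      · subst hy
        have hx : x ≠ 0 := by simpa using hxy
        have : 0 < (x * Q 0 0) ^ 2 := by positivity
        simpa using this
      · have : 0 < y ^ 2 * (Q 0 0 * Q 1 1 - Q 0 1 * Q 0 1) :=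
          mul_pos (by positivity) (by linarith)
        have := sq_nonneg (x * Q 0 0 + y * Q 0 1)
        linarith
    exact (mul_pos_iff_of_pos_left h2).1 h5
  have e00 : (hexT i Q) 0 0 = a * a * Q 0 0 + 2 * a * b * Q 0 1 + b * b * Q 1 1 := by
    rw [hexT_apply]
    simp only [Matrix.mul_apply, Fin.sum_univ_two, Matrix.transpose_apply, ← h1]
    ring
  have e11 : (hexT i Q) 1 1 = c * c * Q 0 0 + 2 * c * d * Q 0 1 + d * d * Q 1 1 := by
    rw [hexT_apply]
    simp only [Matrix.mul_apply, Fin.sum_univ_two, Matrix.transpose_apply, ← h1]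
    ring
  have e01 : (hexT i Q) 0 1 = a * c * Q 0 0 + (a * d + b * c) * Q 0 1 + b * d * Q 1 1 := by
    rw [hexT_apply]
    simp only [Matrix.mul_apply, Fin.sum_univ_two, Matrix.transpose_apply, ← h1]
    ring
  have e10 : (hexT i Q) 1 0 = a * c * Q 0 0 + (a * d + b * c) * Q 0 1 + b * d * Q 1 1 := by
    rw [hexT_apply]
    simp only [Matrix.mul_apply, Fin.sum_univ_two, Matrix.transpose_apply, ← h1]
    ring
  refine ⟨by rw [e01, e10], ?_, ?_, ?_⟩
  · rw [e00]
    apply key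
    by_contra hcon
    push Not at hcon
    rw [hcon.1, hcon.2] at hd
    norm_num at hd
  · rw [e11]
    apply key
    by_contra hcon
    push Not at hcon
    rw [hcon.1, hcon.2] at hd
    norm_num at hd
  · have e : (hexT i Q) 0 0 * (hexT i Q) 1 1 - (hexT i Q) 0 1 * (hexT i Q) 0 1 =
        (a * d - b * c) ^ 2 * (Q 0 0 * Q 1 1 - Q 0 1 * Q 0 1) := by
      rw [e00, e11, e01]; ring
    rw [hd] at e
    have : 0 < Q 0 0 * Q 1 1 - Q 0 1 * Q 0 1 := by linarith
    nlinarith

lemma hexR_transpose_mul (i : Fin 6) : (hexR i)ᵀ * hexE = -(hexE * hexR i) := by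
  have h := trace_hexR i
  ext k l
  fin_cases k <;> fin_cases l <;>
    simp [hexE, Matrix.mul_apply, Matrix.vecMul, dotProduct, Fin.sum_univ_two, h]

lemma hexF_self (i : Fin 6) (Q : M2) : hexF i (hexT i Q) = -hexF i Q := by
  unfold hexF
  rw [hexT_apply]
  have h1 : hexR i * (hexR i * Q * (hexR i)ᵀ) * hexE = -(Q * hexE * hexR i) := by
    calc _ = (hexR i * hexR i) * Q * ((hexR i)ᵀ * hexE) := by simp only [Matrix.mul_assoc]
      _ = _ := by
        rw [hexR_sq, Matrix.one_mul, hexR_transpose_mul, Matrix.mul_neg, Matrix.mul_assoc]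
  rw [h1, Matrix.trace_neg, Matrix.trace_mul_comm, ← Matrix.mul_assoc]

lemma hexF_adj (i j : Fin 6) (Q : M2) (h : hexAdj i j) : hexF j (hexT i Q) = hexF j Q := by
  unfold hexF
  rw [hexT_apply]
  have h0 := hexR_anti' i j h
  have h1 : hexR j * (hexR i * Q * (hexR i)ᵀ) * hexE =
      -(hexR j * hexR i * Q * hexE * hexR i) := by
    calc _ = hexR j * hexR i * Q * ((hexR i)ᵀ * hexE) := by simp only [Matrix.mul_assoc]
      _ = _ := by rw [hexR_transpose_mul, Matrix.mul_neg, Matrix.mul_assoc _ hexE]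
  rw [h1, Matrix.trace_neg, Matrix.trace_mul_comm]
  have h2 : hexR i * (hexR j * hexR i * Q * hexE) = -(hexR j * Q * hexE) := by
    calc _ = (hexR i * hexR j) * hexR i * Q * hexE := by simp only [Matrix.mul_assoc]
      _ = -(hexR j * (hexR i * hexR i) * Q * hexE) := by
          rw [h0]; simp only [Matrix.neg_mul, Matrix.mul_assoc]
      _ = _ := by rw [hexR_sq, Matrix.mul_one]
  rw [h2, Matrix.trace_neg, neg_neg]

lemma hexF_eq (i : Fin 6) (Q : M2) (hQ : Q 0 1 = Q 1 0) :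
    hexF i Q = hexR i 0 1 * Q 1 1 - hexR i 1 0 * Q 0 0 + 2 * hexR i 0 0 * Q 0 1 := by
  unfold hexF
  simp [Matrix.trace_fin_two, Matrix.mul_apply, Fin.sum_univ_two, trace_hexR, hexE, ← hQ]
  ring

lemma pos_aux {p q s X Y Z : ℝ} (hp : 0 < p) (hs : 0 < s) (hd : q * q < p * s) (hY : 0 < Y)
    (hZ : 0 < Z) (hN : X * X < Y * Z) : 0 < Y * s + Z * p + 2 * X * q := by
  by_contra hcon
  push Not at hcon
  have h1 : 0 < Y * s + Z * p := by positivity
  have h2 : Y * s + Z * p ≤ -(2 * X * q) := by linarith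
  have h3 : (Y * s + Z * p) ^ 2 ≤ (2 * X * q) ^ 2 := by nlinarith
  have h4 : 4 * (Y * Z) * (p * s) ≤ (Y * s + Z * p) ^ 2 := by
    nlinarith [sq_nonneg (Y * s - Z * p)]
  have h5 : X * X * (q * q) < (Y * Z) * (p * s) := by
    have h6 : X * X * (q * q) ≤ (X * X) * (p * s) :=
      mul_le_mul_of_nonneg_left hd.le (mul_self_nonneg X)
    have h7 : (X * X) * (p * s) < (Y * Z) * (p * s) :=
      mul_lt_mul_of_pos_right hN (by positivity)
    linarith
  nlinarith

lemma hexF_sum_pos (i j : Fin 6) (Q : M2) (hQ : PD Q) (hij : i ≠ j) (hadj : ¬ hexAdj i j) :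
    0 < hexF i Q + hexF j Q := by
  obtain ⟨h1, h2, h3, h4⟩ := hQ
  rw [hexF_eq i Q h1, hexF_eq j Q h1]
  have h5 : hexR i 0 1 * Q 1 1 - hexR i 1 0 * Q 0 0 + 2 * hexR i 0 0 * Q 0 1 +
      (hexR j 0 1 * Q 1 1 - hexR j 1 0 * Q 0 0 + 2 * hexR j 0 0 * Q 0 1) =
      (hexR i 0 1 + hexR j 0 1) * Q 1 1 + (-hexR i 1 0 - hexR j 1 0) * Q 0 0 +
        2 * (hexR i 0 0 + hexR j 0 0) * Q 0 1 := by ring
  rw [h5]
  have hr := r3_sq
  have hr1 := r3_gt
  have hr2 := r3_lt
  have key : 0 < hexR i 0 1 + hexR j 0 1 ∧ 0 < -hexR i 1 0 - hexR j 1 0 ∧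
      (hexR i 0 0 + hexR j 0 0) * (hexR i 0 0 + hexR j 0 0) <
        (hexR i 0 1 + hexR j 0 1) * (-hexR i 1 0 - hexR j 1 0) := by
    revert hij hadj
    fin_cases i <;> fin_cases j <;> intro hij hadj <;>
      first
      | (exact absurd rfl hij)
      | (exact absurd (by decide) hadj)
      | (refine ⟨?_, ?_, ?_⟩ <;> simp [hexR] <;> linarith)
  exact pos_aux h2 h3 h4 key.1 key.2.1 key.2.2

lemma hex_pingpong (L : List (Fin 6)) (hL : red hexAdj L)
    (hfix : (L.map hexT).prod !![2, 1 / 2; 1 / 2, 1] = !![2, 1 / 2; 1 / 2, 1]) : L = [] := by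
  apply pingpong_ne hexAdj hexT PD hexF !![2, 1 / 2; 1 / 2, 1] _ _ PD_hexT hexF_self
    (fun i j v h => hexF_adj i j v h) _ L hL hfix
  · refine ⟨?_, ?_, ?_, ?_⟩ <;> simp
    norm_num
  · intro i
    have hr1 := r3_gt
    have hr2 := r3_lt
    rw [hexF_eq _ _ (by simp)]
    fin_cases i <;> simp [hexR] <;> linarith
  · intro i j v hij hadj hP hlt
    have := hexF_sum_pos i j v hP hij hadj
    linarith

/-! ### The quaternion order -/

/-- The elements of a quaternion order with `i² = 3`, `j² = -1`. -/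
def qm (x y z w : ℤ) : M2 := !![x + y * r3, z + w * r3; -z + w * r3, x - y * r3]

lemma qm_mul (x y z w x' y' z' w' : ℤ) : qm x y z w * qm x' y' z' w' =
    qm (x * x' + 3 * y * y' - z * z' + 3 * w * w') (x * y' + y * x' + z * w' - w * z')
      (x * z' + z * x' + 3 * y * w' - 3 * w * y') (x * w' + w * x' + y * z' - z * y') := by
  have h := r3_sq
  ext i j
  fin_cases i <;> fin_cases j <;> simp [qm, Matrix.mul_apply, Fin.sum_univ_two]
  · linear_combination ((y : ℝ) * y' + w * w') * h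
  · linear_combination ((y : ℝ) * w' - w * y') * h
  · linear_combination (-(y : ℝ) * w' + w * y') * h
  · linear_combination ((y : ℝ) * y' + w * w') * h

lemma qm_det (x y z w : ℤ) : (qm x y z w).det = x * x - 3 * y * y + z * z - 3 * w * w := by
  have h := r3_sq
  simp [qm, Matrix.det_fin_two]
  linear_combination (-(y : ℝ) * y - w * w) * h

lemma qm_adj (x y z w : ℤ) : adjugate (qm x y z w) = qm x (-y) (-z) (-w) := by
  rw [Matrix.adjugate_fin_two]
  ext i j
  fin_cases i <;> fin_cases j <;> simp [qm] <;> ring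

lemma qm_one : qm 1 0 0 0 = 1 := by
  ext i j
  fin_cases i <;> fin_cases j <;> simp [qm]

/-- The images of the generators. -/
def hA₁ : SL(2, ℝ) := ⟨qm (-2) (-1) 0 0, by rw [qm_det]; norm_num⟩
/-- The images of the generators. -/
def hB₁ : SL(2, ℝ) := ⟨qm (-2) 0 0 (-1), by rw [qm_det]; norm_num⟩
/-- The images of the generators. -/
def hA₂ : SL(2, ℝ) := ⟨qm (-2) 3 (-6) (-2), by rw [qm_det]; norm_num⟩
/-- The images of the generators. -/
def hB₂ : SL(2, ℝ) := ⟨qm (-2) (-2) 6 3, by rw [qm_det]; norm_num⟩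

lemma mat_hA₁ : mat hA₁ = qm (-2) (-1) 0 0 := rfl
lemma mat_hB₁ : mat hB₁ = qm (-2) 0 0 (-1) := rfl
lemma mat_hA₂ : mat hA₂ = qm (-2) 3 (-6) (-2) := rfl
lemma mat_hB₂ : mat hB₂ = qm (-2) (-2) 6 3 := rfl

lemma hex_rel : SurfRel hA₁ hB₁ hA₂ hB₂ := by
  unfold SurfRel
  apply mat_injective
  simp only [map_mul, mat_inv, mat_hA₁, mat_hB₁, mat_hA₂, mat_hB₂, qm_adj, qm_mul, map_one]
  rw [← qm_one]
  norm_num

/-- A Fuchsian representation of the surface group. -/
def hexRho : Surf →* SL(2, ℝ) := surfLift hA₁ hB₁ hA₂ hB₂ hex_rel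

lemma hexR_a₁ : hexR 0 * hexR 2 = mat hA₁ := by
  rw [mat_hA₁]
  ext i j
  fin_cases i <;> fin_cases j <;> simp [qm, hexR, Matrix.mul_apply, Fin.sum_univ_two] <;> ring

lemma hexR_b₁ : hexR 3 * hexR 1 = mat hB₁ := by
  rw [mat_hB₁]
  ext i j
  fin_cases i <;> fin_cases j <;> simp [qm, hexR, Matrix.mul_apply, Fin.sum_univ_two]

lemma hexR_a₂ : hexR 3 * hexR 5 = mat hA₂ := by
  have h := r3_sq
  rw [mat_hA₂]
  ext i j
  fin_cases i <;> fin_cases j <;> simp [qm, hexR, Matrix.mul_apply, Fin.sum_univ_two] <;> linarith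

lemma hexR_b₂ : hexR 0 * hexR 4 = mat hB₂ := by
  have h := r3_sq
  rw [mat_hB₂]
  ext i j
  fin_cases i <;> fin_cases j <;> simp [qm, hexR, Matrix.mul_apply, Fin.sum_univ_two] <;> linarith

/-- The action on quadratic forms. -/
def cong : SL(2, ℝ) →* Equiv.Perm M2 where
  toFun g :=
    { toFun := fun Q => mat g * Q * (mat g)ᵀ
      invFun := fun Q => mat g⁻¹ * Q * (mat g⁻¹)ᵀ
      left_inv := fun Q => by
        have h1 : mat g⁻¹ * mat g = 1 := by rw [← map_mul, inv_mul_cancel, map_one]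
        have h2 : (mat g)ᵀ * (mat g⁻¹)ᵀ = 1 := by
          rw [← Matrix.transpose_mul, h1, Matrix.transpose_one]
        calc mat g⁻¹ * (mat g * Q * (mat g)ᵀ) * (mat g⁻¹)ᵀ =
            (mat g⁻¹ * mat g) * Q * ((mat g)ᵀ * (mat g⁻¹)ᵀ) := by simp only [Matrix.mul_assoc]
          _ = Q := by rw [h1, h2, Matrix.one_mul, Matrix.mul_one]
      right_inv := fun Q => by
        have h1 : mat g * mat g⁻¹ = 1 := by rw [← map_mul, mul_inv_cancel, map_one]
        have h2 : (mat g⁻¹)ᵀ * (mat g)ᵀ = 1 := by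
          rw [← Matrix.transpose_mul, h1, Matrix.transpose_one]
        calc mat g * (mat g⁻¹ * Q * (mat g⁻¹)ᵀ) * (mat g)ᵀ =
            (mat g * mat g⁻¹) * Q * ((mat g⁻¹)ᵀ * (mat g)ᵀ) := by simp only [Matrix.mul_assoc]
          _ = Q := by rw [h1, h2, Matrix.one_mul, Matrix.mul_one] }
  map_one' := by
    ext1 Q
    change mat 1 * Q * (mat 1)ᵀ = Q
    rw [map_one, Matrix.transpose_one, Matrix.one_mul, Matrix.mul_one]
  map_mul' g h := by
    ext1 Q
    change mat (g * h) * Q * (mat (g * h))ᵀ = mat g * (mat h * Q * (mat h)ᵀ) * (mat g)ᵀ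
    rw [map_mul, Matrix.transpose_mul]
    simp only [Matrix.mul_assoc]

lemma cong_apply (g : SL(2, ℝ)) (Q : M2) : cong g Q = mat g * Q * (mat g)ᵀ := rfl

lemma hexT_mul (i j : Fin 6) (g : SL(2, ℝ)) (h : hexR i * hexR j = mat g) :
    hexT i * hexT j = cong g := by
  ext1 Q
  change hexR i * (hexR j * Q * (hexR j)ᵀ) * (hexR i)ᵀ = mat g * Q * (mat g)ᵀ
  rw [← h, Matrix.transpose_mul]
  simp only [Matrix.mul_assoc]

/-- Left multiplication. -/
def leftMul : Surf →* Equiv.Perm Surf where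
  toFun := Equiv.mulLeft
  map_one' := by ext1 x; exact one_mul x
  map_mul' a b := by ext1 x; exact mul_assoc a b x

/-- The pair of actions. -/
def hexPair (i : Fin 6) : Equiv.Perm Surf × Equiv.Perm M2 := (hexS i, hexT i)

/-- The pair of actions. -/
def hexPhi : Surf →* Equiv.Perm Surf × Equiv.Perm M2 := leftMul.prod (cong.comp hexRho)

lemma hexPhi_mem (x : Surf) : hexPhi x ∈ Subgroup.closure (Set.range hexPair) := by
  have hmem : ∀ i, hexPair i ∈ Subgroup.closure (Set.range hexPair) :=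
    fun i => Subgroup.subset_closure ⟨i, rfl⟩
  refine surf_induction ((Subgroup.closure (Set.range hexPair)).comap hexPhi) ?_ ?_ ?_ ?_ x
  · rw [Subgroup.mem_comap]
    have : hexPhi a₁ = hexPair 0 * hexPair 2 := by
      refine Prod.ext hexS_a₁.symm ?_
      change cong (hexRho a₁) = hexT 0 * hexT 2
      rw [hexRho, surfLift_a₁, hexT_mul _ _ _ hexR_a₁]
    rw [this]; exact mul_mem (hmem _) (hmem _)
  · rw [Subgroup.mem_comap]
    have : hexPhi b₁ = hexPair 3 * hexPair 1 := by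
      refine Prod.ext hexS_b₁.symm ?_
      change cong (hexRho b₁) = hexT 3 * hexT 1
      rw [hexRho, surfLift_b₁, hexT_mul _ _ _ hexR_b₁]
    rw [this]; exact mul_mem (hmem _) (hmem _)
  · rw [Subgroup.mem_comap]
    have : hexPhi a₂ = hexPair 3 * hexPair 5 := by
      refine Prod.ext hexS_a₂.symm ?_
      change cong (hexRho a₂) = hexT 3 * hexT 5
      rw [hexRho, surfLift_a₂, hexT_mul _ _ _ hexR_a₂]
    rw [this]; exact mul_mem (hmem _) (hmem _)
  · rw [Subgroup.mem_comap]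
    have : hexPhi b₂ = hexPair 0 * hexPair 4 := by
      refine Prod.ext hexS_b₂.symm ?_
      change cong (hexRho b₂) = hexT 0 * hexT 4
      rw [hexRho, surfLift_b₂, hexT_mul _ _ _ hexR_b₂]
    rw [this]; exact mul_mem (hmem _) (hmem _)

lemma hexPair_sq (i : Fin 6) : hexPair i * hexPair i = 1 := Prod.ext (hexS_sq i) (hexT_sq i)

lemma hexPair_comm (i j : Fin 6) (h : hexAdj i j) :
    hexPair i * hexPair j = hexPair j * hexPair i :=
  Prod.ext (hexS_comm i j h) (hexT_comm i j h)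

lemma exists_word (g : Equiv.Perm Surf × Equiv.Perm M2)
    (hg : g ∈ Subgroup.closure (Set.range hexPair)) :
    ∃ L : List (Fin 6), (L.map hexPair).prod = g := by
  induction hg using Subgroup.closure_induction with
  | mem g hg =>
    obtain ⟨i, rfl⟩ := hg
    exact ⟨[i], by simp⟩
  | one => exact ⟨[], rfl⟩
  | mul g h _ _ h1 h2 =>
    obtain ⟨L, rfl⟩ := h1
    obtain ⟨L', rfl⟩ := h2
    exact ⟨L ++ L', by rw [List.map_append, List.prod_append]⟩
  | inv g _ h1 =>
    obtain ⟨L, rfl⟩ := h1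
    refine ⟨L.reverse, ?_⟩
    have hinv : (L.map hexPair).map (fun z => z⁻¹) = L.map hexPair := by
      rw [List.map_map]
      apply List.map_congr_left
      intro i _
      exact inv_eq_of_mul_eq_one_left (hexPair_sq i)
    rw [List.prod_inv_reverse, hinv, List.map_reverse]

lemma hexRho_inj : InjPM hexRho := by
  intro x c hc
  obtain ⟨L, hL⟩ := exists_word _ (hexPhi_mem x)
  obtain ⟨L', h1, h2, -⟩ := exists_red hexAdj hexPair hexPair_sq hexPair_comm L.length L le_rfl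
  rw [hL] at h2
  have h3 : (L'.map hexT).prod = cong (hexRho x) := by
    have h4 := congrArg Prod.snd h2
    have h5 : ((L'.map hexPair).prod).2 = (L'.map hexT).prod := by
      change (MonoidHom.snd _ _) (L'.map hexPair).prod = _
      rw [map_list_prod, List.map_map]
      rfl
    rw [← h5, h4]; rfl
  have hc2 : c * c = 1 := by
    have h := det_mat (hexRho x)
    rw [hc, Matrix.det_smul, Matrix.det_one, Fintype.card_fin] at h
    linarith [sq c]
  have h4 : cong (hexRho x) !![2, 1 / 2; 1 / 2, 1] = !![2, 1 / 2; 1 / 2, 1] := by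
    rw [cong_apply, hc, Matrix.transpose_smul, Matrix.transpose_one, Matrix.smul_mul,
      Matrix.one_mul, Matrix.mul_smul, Matrix.mul_one, smul_smul, hc2, one_smul]
  have h5 := hex_pingpong L' h1 (by rw [h3]; exact h4)
  subst h5
  have h6 := congrArg (fun z => z.1 1) h2
  simp only [List.map_nil, List.prod_nil] at h6
  change (1 : Surf) = x * 1 at h6
  rw [mul_one] at h6
  exact h6.symm

end Pool.Agent.LibHyperelliptic
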