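import Pool.Agent.LibHyperelliptic.SymDet

set_option autoImplicit false

noncomputable section

open Matrix
open scoped MatrixGroups

namespace Pool.Agent.LibHyperelliptic

/-- The irreducible representation of `SL(2, ℝ)` on binary forms of degree `n - 1`. -/
def symSL (n : ℕ) : SL(2, ℝ) →* SL(n, ℝ) where
  toFun g := ⟨symM n g.1, det_symM_SL n g⟩
  map_one' := Subtype.val_injective (symM_one_SL n)
  map_mul' g h := Subtype.val_injective (symM_mul_SL n g h)

end Pool.Agent.LibHyperelliptic
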