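import Pool.Agent.LibHyperelliptic.Cocycle

set_option autoImplicit false

noncomputable section

open Matrix Module
open scoped MatrixGroups

namespace Pool.Agent.LibHyperelliptic

lemma trace_starE_eq (n : ℕ) (X : Mn n) : (starE n X).trace = X.trace := by
  rw [starE_apply, Matrix.trace_mul_comm, ← Matrix.mul_assoc, Qm_mul_Pm, Matrix.one_mul,
    Matrix.trace_transpose]

lemma trace_starE_mul_skew {n : ℕ} (F : Mn n) {Y : Mn n} (hY : Y ∈ skew n) :
    (starE n F * Y).trace = -(F * Y).trace := by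
  rw [mem_skew] at hY
  have h : starE n F * Y = -starE n (Y * F) := by
    rw [starE_mul, hY, Matrix.mul_neg, neg_neg]
  rw [h, Matrix.trace_neg, trace_starE_eq, Matrix.trace_mul_comm]

lemma adjugate_lin (a b : ℝ) (g : M2) : adjugate (a • 1 + b • g) = a • 1 + b • adjugate g := by
  rw [adjugate_fin_two, adjugate_fin_two]
  ext i j; fin_cases i <;> fin_cases j <;> simp

lemma trace_adL_of_comm {n : ℕ} (F : Mn n) (k : M2ˣ) (Y : Mn n)
    (h : F * symM n (k : M2) = symM n (k : M2) * F) :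
    (F * adL n k Y).trace = (F * Y).trace := by
  rw [adL_apply, Matrix.trace_mul_comm]
  have h2 : symM n (k : M2) * Y * symM n ((k⁻¹ : M2ˣ) : M2) * F =
      symM n (k : M2) * Y * (symM n ((k⁻¹ : M2ˣ) : M2) * F) := by simp only [Matrix.mul_assoc]
  have h3 : symM n ((k⁻¹ : M2ˣ) : M2) * F = F * symM n ((k⁻¹ : M2ˣ) : M2) := by
    calc symM n ((k⁻¹ : M2ˣ) : M2) * F =
        symM n ((k⁻¹ : M2ˣ) : M2) * (F * symM n (k : M2)) * symM n ((k⁻¹ : M2ˣ) : M2) := by
          simp only [Matrix.mul_assoc, symM_mul_inv, Matrix.mul_one]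
      _ = symM n ((k⁻¹ : M2ˣ) : M2) * symM n (k : M2) * F * symM n ((k⁻¹ : M2ˣ) : M2) := by
          rw [h]; simp only [Matrix.mul_assoc]
      _ = _ := by rw [symM_inv_mul, Matrix.one_mul]
  rw [h2, h3, ← Matrix.mul_assoc, Matrix.trace_mul_comm, ← Matrix.mul_assoc, ← Matrix.mul_assoc,
    symM_inv_mul, Matrix.one_mul, Matrix.trace_mul_comm]

/-- The vanishing of the derivatives along the anti-invariant cocycle. -/
theorem main_zero {n : ℕ} {ρ₀ : Surf →* SL(2, ℝ)} (hρ : InjPM ρ₀) {D : M2ˣ} {u : Surf → Mn n}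
    (hskew : ∀ γ, u γ ∈ skew n)
    (hcoc : ∀ γ η, u (γ * η) = u γ + adL n (SpecialLinearGroup.toGL (ρ₀ γ)) (u η))
    (hanti : ∀ γ, u (iota γ) = -adL n D (u γ))
    (hint : ∀ γ, SpecialLinearGroup.toGL (ρ₀ (iota γ)) * D = D * SpecialLinearGroup.toGL (ρ₀ γ))
    (γ : Surf) (hs : IsSimple γ) (F : Mn n)
    (hF : ∀ a b : ℝ, F * symM n (a • 1 + b • mat (ρ₀ γ)) =
      symM n (a • 1 + b • mat (ρ₀ γ)) * F) :
    (F * u γ).trace = 0 := by
  set G : Surf →* M2ˣ := (SpecialLinearGroup.toGL).comp ρ₀ with hG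
  have hcoc' : ∀ γ η, u (γ * η) = u γ + adL n (G γ) (u η) := hcoc
  have hGmat : ∀ x, ((G x : M2ˣ) : M2) = mat (ρ₀ x) := fun x => rfl
  have hGinv : ∀ x, (((G x)⁻¹ : M2ˣ) : M2) = adjugate (mat (ρ₀ x)) := fun x => rfl
  have hu1 : u 1 = 0 := by
    have h := hcoc' 1 1
    rw [map_one, adL_one, mul_one] at h
    simpa using h
  have huinv : ∀ x, u x⁻¹ = -adL n (G x)⁻¹ (u x) := by
    intro x
    have h := hcoc' x⁻¹ x
    rw [inv_mul_cancel, hu1, map_inv] at h
    exact eq_neg_of_add_eq_zero_left h.symm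
  by_cases h1 : γ = 1
  · rw [h1, hu1, Matrix.mul_zero, Matrix.trace_zero]
  have hns : ¬ ∃ c : ℝ, mat (ρ₀ γ) = c • 1 := by
    rintro ⟨c, hc⟩
    exact h1 (hρ γ c hc)
  obtain ⟨l, a, b, hFl⟩ := mem_span_of_comm F (mat (ρ₀ γ)) hns hF
  have hFg : F * symM n (G γ : M2) = symM n (G γ : M2) * F := by
    have := hF 0 1
    rw [zero_smul, one_smul, zero_add] at this
    exact this
  have hFg' : F * symM n (((G γ)⁻¹ : M2ˣ) : M2) = symM n (((G γ)⁻¹ : M2ˣ) : M2) * F := by
    have := hF (mat (ρ₀ γ)).trace (-1)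
    rw [hGinv, adj_eq, sub_eq_add_neg, ← neg_one_smul ℝ (mat (ρ₀ γ))]
    exact this
  obtain ⟨h, hcase⟩ := iota_simple γ hs
  set k : M2ˣ := (G h)⁻¹ * D with hk
  set y : Mn n := adL n (G h)⁻¹ (u h) with hy
  rcases hcase with hc | hc
  · -- orientation preserved
    have e1 : u (h * γ * h⁻¹) = u h + adL n (G h) (u γ) - adL n (G h * G γ * (G h)⁻¹) (u h) := by
      rw [hcoc', hcoc', huinv, map_neg, map_mul, ← adL_mul, sub_eq_add_neg]
    have e2 := hanti γ
    rw [hc, e1] at e2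
    have e3 := congrArg (adL n (G h)⁻¹) e2
    rw [map_sub, map_add, adL_inv_self, map_neg, ← adL_mul, ← adL_mul] at e3
    have e4 : (G h)⁻¹ * (G h * G γ * (G h)⁻¹) = G γ * (G h)⁻¹ := by group
    rw [e4, adL_mul n (G γ) (G h)⁻¹] at e3
    -- e3 : y + u γ - adL (G γ) y = - adL k (u γ)
    have hkc : G γ * k = k * G γ := by
      have h2 := hint γ
      change G (iota γ) * D = D * G γ at h2
      rw [hc, map_mul, map_mul, map_inv] at h2
      have h3 := congrArg (fun z => (G h)⁻¹ * z) h2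
      calc G γ * k = (G h)⁻¹ * (G h * G γ * (G h)⁻¹ * D) := by rw [hk]; group
        _ = (G h)⁻¹ * (D * G γ) := h3
        _ = k * G γ := by rw [hk]; group
    have hkc' : mat (ρ₀ γ) * (k : M2) = (k : M2) * mat (ρ₀ γ) := by
      exact congrArg (fun z : M2ˣ => (z : M2)) hkc
    have hFk : F * symM n (k : M2) = symM n (k : M2) * F := by
      rw [hFl, Finset.sum_mul, Finset.mul_sum]
      refine Finset.sum_congr rfl fun i _ => ?_
      rw [Matrix.smul_mul, Matrix.mul_smul, ← symM_mul, ← symM_mul]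
      congr 2
      rw [Matrix.add_mul, Matrix.mul_add, Matrix.smul_mul, Matrix.smul_mul, Matrix.mul_smul,
        Matrix.mul_smul, hkc', Matrix.one_mul, Matrix.mul_one]
    have e5 := congrArg (fun Z => (F * Z).trace) e3
    simp only [Matrix.mul_sub, Matrix.mul_add, Matrix.mul_neg, Matrix.trace_sub, Matrix.trace_add,
      Matrix.trace_neg] at e5
    rw [trace_adL_of_comm F (G γ) _ hFg, trace_adL_of_comm F k _ hFk] at e5
    linarith
  · -- orientation reversed
    have e1 : u (h * γ⁻¹ * h⁻¹) =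
        u h - adL n (G h * (G γ)⁻¹) (u γ) - adL n (G h * (G γ)⁻¹ * (G h)⁻¹) (u h) := by
      rw [hcoc', hcoc', huinv, huinv, map_neg, map_neg, map_mul, map_inv, ← adL_mul, ← adL_mul,
        sub_eq_add_neg, sub_eq_add_neg]
    have e2 := hanti γ
    rw [hc, e1] at e2
    have e3 := congrArg (adL n (G h)⁻¹) e2
    rw [map_sub, map_sub, map_neg, ← adL_mul, ← adL_mul, ← adL_mul] at e3
    have e4 : (G h)⁻¹ * (G h * (G γ)⁻¹ * (G h)⁻¹) = (G γ)⁻¹ * (G h)⁻¹ := by group
    have e4' : (G h)⁻¹ * (G h * (G γ)⁻¹) = (G γ)⁻¹ := by group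
    rw [e4, e4', adL_mul n (G γ)⁻¹ (G h)⁻¹] at e3
    have hkc : (G γ)⁻¹ * k = k * G γ := by
      have h2 := hint γ
      change G (iota γ) * D = D * G γ at h2
      rw [hc, map_mul, map_mul, map_inv, map_inv] at h2
      have h3 := congrArg (fun z => (G h)⁻¹ * z) h2
      calc (G γ)⁻¹ * k = (G h)⁻¹ * (G h * (G γ)⁻¹ * (G h)⁻¹ * D) := by rw [hk]; group
        _ = (G h)⁻¹ * (D * G γ) := h3
        _ = k * G γ := by rw [hk]; group
    have hkc' : (k : M2) * adjugate (mat (ρ₀ γ)) = mat (ρ₀ γ) * (k : M2) := by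
      have h2 : k * (G γ)⁻¹ = G γ * k := by
        have h3 := congrArg (fun z => G γ * z * (G γ)⁻¹) hkc
        calc k * (G γ)⁻¹ = G γ * ((G γ)⁻¹ * k) * (G γ)⁻¹ := by group
          _ = G γ * (k * G γ) * (G γ)⁻¹ := h3
          _ = G γ * k := by group
      exact congrArg (fun z : M2ˣ => (z : M2)) h2
    have hFk : F * symM n (k : M2) = symM n (k : M2) * starE n F := by
      rw [hFl, map_sum, Finset.sum_mul, Finset.mul_sum]
      refine Finset.sum_congr rfl fun i _ => ?_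
      rw [map_smul, starE_symM, Matrix.smul_mul, Matrix.mul_smul, ← symM_mul, ← symM_mul,
        adjugate_lin]
      congr 2
      rw [Matrix.add_mul, Matrix.mul_add, Matrix.smul_mul, Matrix.smul_mul, Matrix.mul_smul,
        Matrix.mul_smul, hkc', Matrix.one_mul, Matrix.mul_one]
    have hk2 : (F * adL n k (u γ)).trace = (starE n F * u γ).trace := by
      rw [adL_apply]
      have : F * (symM n (k : M2) * u γ * symM n ((k⁻¹ : M2ˣ) : M2)) =
          (F * symM n (k : M2)) * u γ * symM n ((k⁻¹ : M2ˣ) : M2) := by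
        simp only [Matrix.mul_assoc]
      rw [this, hFk, Matrix.trace_mul_comm, ← Matrix.mul_assoc, ← Matrix.mul_assoc,
        symM_inv_mul, Matrix.one_mul]
    have e5 := congrArg (fun Z => (F * Z).trace) e3
    simp only [Matrix.mul_sub, Matrix.mul_neg, Matrix.trace_sub, Matrix.trace_neg] at e5
    rw [trace_adL_of_comm F (G γ)⁻¹ _ hFg', trace_adL_of_comm F (G γ)⁻¹ _ hFg', hk2,
      trace_starE_mul_skew F (hskew γ)] at e5
    linarith

end Pool.Agent.LibHyperelliptic
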