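import Pool.Agent.LibHyperelliptic.UnimodLemmas
import Pool.Agent.LibHyperelliptic.SymRep
import Pool.Agent.LibHyperelliptic.Vanish

set_option autoImplicit false

noncomputable section

open Matrix Module
open scoped MatrixGroups Topology

namespace Pool.Agent.LibHyperelliptic

/-- The function `f` on `SL(n, ℝ)`, read in the chart `Y ↦ det(Y)^(-1/n) Y M` around `M`. -/
def sChart {n : ℕ} (f : SL(n, ℝ) → ℝ) (M : SL(n, ℝ)) (Y : Matrix (Fin n) (Fin n) ℝ) : ℝ :=
  f (unimod n Y * M)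

/-- Conjugation invariant functions on a group. -/
def ConjInv {G : Type*} [Group G] (f : G → ℝ) : Prop := ∀ g h, f (g * h * g⁻¹) = f h

lemma unimod_conj {n : ℕ} (h : SL(n, ℝ)) (Y : Matrix (Fin n) (Fin n) ℝ) :
    unimod n ((h : Mn n) * Y * ((h⁻¹ : SL(n, ℝ)) : Mn n)) = h * unimod n Y * h⁻¹ := by
  have e1 : ((h : Mn n)).det = 1 := h.2
  have e2 : (((h⁻¹ : SL(n, ℝ)) : Mn n)).det = 1 := (h⁻¹).2
  by_cases hY : 0 < Y.det
  · have h1 : 0 < ((h : Mn n) * Y).det := by rw [Matrix.det_mul, e1, one_mul]; exact hY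
    rw [unimod_mul h1 (by rw [e2]; exact one_pos), unimod_mul (by rw [e1]; exact one_pos) hY,
      unimod_coe, unimod_coe]
  · have h1 : ¬ 0 < ((h : Mn n) * Y * ((h⁻¹ : SL(n, ℝ)) : Mn n)).det := by
      rw [Matrix.det_mul, Matrix.det_mul, e1, e2, one_mul, mul_one]; exact hY
    rw [unimod, dif_neg h1, unimod, dif_neg hY]
    group

lemma sChart_conj {n : ℕ} {f : SL(n, ℝ) → ℝ} (hf : ConjInv f) {M h : SL(n, ℝ)}
    (hM : h * M = M * h) (Y : Mn n) :
    sChart f M ((h : Mn n) * Y * ((h⁻¹ : SL(n, ℝ)) : Mn n)) = sChart f M Y := by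
  unfold sChart
  rw [unimod_conj, ← hf h (unimod n Y * M)]
  congr 1
  have : h⁻¹ * M = M * h⁻¹ := by
    rw [inv_mul_eq_iff_eq_mul, ← mul_assoc, hM, mul_assoc, mul_inv_cancel, mul_one]
  rw [mul_assoc, this]; simp only [mul_assoc]

/-- Conjugation as a continuous linear map. -/
def conjCLM {n : ℕ} (A B : Mn n) : Mn n →L[ℝ] Mn n where
  toFun X := A * X * B
  map_add' X Y := by simp [Matrix.mul_add, Matrix.add_mul]
  map_smul' t X := by simp
  cont := by fun_prop

lemma fderiv_conj {n : ℕ} {f : SL(n, ℝ) → ℝ} (hf : ConjInv f) {M h : SL(n, ℝ)}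
    (hM : h * M = M * h) (hd : DifferentiableAt ℝ (sChart f M) 1) (X : Mn n) :
    fderiv ℝ (sChart f M) 1 ((h : Mn n) * X * ((h⁻¹ : SL(n, ℝ)) : Mn n)) =
      fderiv ℝ (sChart f M) 1 X := by
  let _ : NormedAddCommGroup (Mn n) := Matrix.normedAddCommGroup
  let _ : NormedSpace ℝ (Mn n) := Matrix.normedSpace
  set A := conjCLM (h : Mn n) ((h⁻¹ : SL(n, ℝ)) : Mn n) with hA
  have hA1 : A 1 = 1 := by
    change (h : Mn n) * 1 * ((h⁻¹ : SL(n, ℝ)) : Mn n) = 1
    rw [Matrix.mul_one]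
    exact congrArg Subtype.val (mul_inv_cancel h)
  have h1 : HasFDerivAt (sChart f M) (fderiv ℝ (sChart f M) 1) 1 := hd.hasFDerivAt
  have h2 : HasFDerivAt (sChart f M) (fderiv ℝ (sChart f M) 1) (A 1) := by rw [hA1]; exact h1
  have h3 : HasFDerivAt (sChart f M ∘ A) ((fderiv ℝ (sChart f M) 1).comp A) 1 :=
    HasFDerivAt.comp (𝕜 := ℝ) (E := Mn n) (F := Mn n) (G := ℝ) 1 h2 A.hasFDerivAt
  have h4 : (sChart f M ∘ A) = sChart f M := by
    funext Y; exact sChart_conj hf hM Y
  rw [h4] at h3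
  have h5 := h3.unique h1
  exact DFunLike.congr_fun h5 X

lemma hasDerivAt_inv_one_add {n : ℕ} (w : Mn n) (i j : Fin n) :
    HasDerivAt (fun t : ℝ => ((1 + t • w : Mn n)⁻¹) i j) (-w i j) 0 := by
  have hdet : Continuous fun t : ℝ => (1 + t • w : Mn n).det := by fun_prop
  have hdet0 : (1 + (0 : ℝ) • w : Mn n).det = 1 := by simp
  have hpos : ∀ᶠ t : ℝ in 𝓝 0, 0 < (1 + t • w : Mn n).det :=
    hdet.continuousAt.eventually_const_lt (by simp only [hdet0]; exact one_pos)
  have hcont : Filter.Tendsto (fun t : ℝ => ((1 + t • w : Mn n)⁻¹)) (𝓝 0) (𝓝 1) := by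
    have h1 : ∀ t : ℝ, ((1 + t • w : Mn n)⁻¹) =
        ((1 + t • w : Mn n).det)⁻¹ • adjugate (1 + t • w : Mn n) := by
      intro t
      rw [Matrix.inv_def, Ring.inverse_eq_inv']
    have h2 : Continuous fun t : ℝ => adjugate (1 + t • w : Mn n) := by
      apply Continuous.matrix_adjugate
      fun_prop
    have h3 : Filter.Tendsto (fun t : ℝ => ((1 + t • w : Mn n).det)⁻¹ •
        adjugate (1 + t • w : Mn n)) (𝓝 0)
        (𝓝 (((1 + (0 : ℝ) • w : Mn n).det)⁻¹ • adjugate (1 + (0 : ℝ) • w : Mn n))) := by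
      apply Filter.Tendsto.smul
      · exact (hdet.tendsto 0).inv₀ (by rw [hdet0]; exact one_ne_zero)
      · exact h2.tendsto 0
    rw [hdet0] at h3
    simpa [h1] using h3
  rw [hasDerivAt_iff_tendsto_slope]
  have h4 : Filter.Tendsto (fun t : ℝ => -(w * (1 + t • w : Mn n)⁻¹) i j) (𝓝 0)
      (𝓝 (-w i j)) := by
    have h5 : Filter.Tendsto (fun t : ℝ => w * (1 + t • w : Mn n)⁻¹) (𝓝 0) (𝓝 (w * 1)) :=
      (continuous_const.matrix_mul continuous_id).continuousAt.tendsto.comp hcont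
    rw [Matrix.mul_one] at h5
    have h6 := (continuous_apply_apply i j).continuousAt.tendsto.comp h5
    exact h6.neg
  refine (h4.mono_left nhdsWithin_le_nhds).congr' ?_
  filter_upwards [hpos.filter_mono nhdsWithin_le_nhds, self_mem_nhdsWithin] with t ht ht0
  have ht0' : t ≠ 0 := ht0
  have h7 : (1 + t • w : Mn n) * (1 + t • w : Mn n)⁻¹ = 1 :=
    Matrix.mul_nonsing_inv _ ht.ne'.isUnit
  have h8 := congrFun (congrFun h7 i) j
  rw [Matrix.add_mul, Matrix.one_mul, Matrix.smul_mul, Matrix.add_apply, Matrix.smul_apply,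
    smul_eq_mul] at h8
  rw [slope_def_field]
  simp only [zero_smul, add_zero, inv_one, sub_zero]
  rw [eq_div_iff ht0']
  linarith

lemma fderiv_cobound {n : ℕ} {f : SL(n, ℝ) → ℝ} (hf : ConjInv f) {M : SL(n, ℝ)}
    (hd : DifferentiableAt ℝ (sChart f M) 1) (w : Mn n) :
    fderiv ℝ (sChart f M) 1 (w - (M : Mn n) * w * ((M⁻¹ : SL(n, ℝ)) : Mn n)) = 0 := by
  let _ : NormedAddCommGroup (Mn n) := Matrix.normedAddCommGroup
  let _ : NormedSpace ℝ (Mn n) := Matrix.normedSpace
  set c : ℝ → Mn n := fun t => (1 + t • w) * (M : Mn n) * (1 + t • w)⁻¹ *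
    ((M⁻¹ : SL(n, ℝ)) : Mn n) with hc
  have hM1 : (M : Mn n) * ((M⁻¹ : SL(n, ℝ)) : Mn n) = 1 := congrArg Subtype.val (mul_inv_cancel M)
  have hc0 : c 0 = 1 := by
    have : c 0 = (M : Mn n) * ((M⁻¹ : SL(n, ℝ)) : Mn n) := by
      simp only [hc, zero_smul, add_zero, inv_one, Matrix.one_mul, Matrix.mul_one]
    rw [this, hM1]
  have hcd : HasDerivAt c (w - (M : Mn n) * w * ((M⁻¹ : SL(n, ℝ)) : Mn n)) 0 := by
    refine hasDerivAt_pi.2 fun i => hasDerivAt_pi.2 fun j => ?_
    have h1 : ∀ k l : Fin n, HasDerivAt (fun t : ℝ => ((1 + t • w) * (M : Mn n)) k l)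
        ((w * (M : Mn n)) k l) 0 := by
      intro k l
      have h2 : (fun t : ℝ => ((1 + t • w) * (M : Mn n)) k l) =
          fun t => (M : Mn n) k l + t * (w * (M : Mn n)) k l := by
        funext t
        rw [Matrix.add_mul, Matrix.one_mul, Matrix.smul_mul]; rfl
      rw [h2]
      simpa using ((hasDerivAt_id (0 : ℝ)).mul_const ((w * (M : Mn n)) k l)).const_add
        ((M : Mn n) k l)
    have h3 : (fun t : ℝ => c t i j) = fun t => ∑ l, (∑ k, ((1 + t • w) * (M : Mn n)) i k *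
        ((1 + t • w : Mn n)⁻¹) k l) * ((M⁻¹ : SL(n, ℝ)) : Mn n) l j := by
      funext t
      simp only [hc, Matrix.mul_apply]
    have h4 : HasDerivAt (fun t : ℝ => c t i j)
        (∑ l, (∑ k, ((w * (M : Mn n)) i k * ((1 + (0 : ℝ) • w : Mn n)⁻¹) k l +
          ((1 + (0 : ℝ) • w) * (M : Mn n)) i k * (-w k l))) * ((M⁻¹ : SL(n, ℝ)) : Mn n) l j) 0 := by
      rw [h3]
      refine HasDerivAt.fun_sum fun l _ => HasDerivAt.mul_const ?_ _
      exact HasDerivAt.fun_sum fun k _ => (h1 i k).mul (hasDerivAt_inv_one_add w k l)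
    have h5 : (∑ l, (∑ k, ((w * (M : Mn n)) i k * ((1 + (0 : ℝ) • w : Mn n)⁻¹) k l +
          ((1 + (0 : ℝ) • w) * (M : Mn n)) i k * (-w k l))) * ((M⁻¹ : SL(n, ℝ)) : Mn n) l j) =
        (w - (M : Mn n) * w * ((M⁻¹ : SL(n, ℝ)) : Mn n)) i j := by
      have h6 : ∀ l, (∑ k, ((w * (M : Mn n)) i k * ((1 + (0 : ℝ) • w : Mn n)⁻¹) k l +
          ((1 + (0 : ℝ) • w) * (M : Mn n)) i k * (-w k l))) =
          (w * (M : Mn n) - (M : Mn n) * w) i l := by
        intro l
        rw [Finset.sum_add_distrib]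
        simp only [zero_smul, add_zero, inv_one, Matrix.one_mul, mul_neg, Finset.sum_neg_distrib,
          Matrix.sub_apply]
        rw [← Matrix.mul_apply, Matrix.mul_one, ← Matrix.mul_apply, sub_eq_add_neg]
      simp only [h6]
      rw [← Matrix.mul_apply, Matrix.sub_mul, Matrix.mul_assoc w, hM1, Matrix.mul_one]
    rw [h5] at h4
    exact h4
  have h1 : HasFDerivAt (sChart f M) (fderiv ℝ (sChart f M) 1) (c 0) := by
    rw [hc0]; exact hd.hasFDerivAt
  have h2 : HasDerivAt (sChart f M ∘ c)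
      (fderiv ℝ (sChart f M) 1 (w - (M : Mn n) * w * ((M⁻¹ : SL(n, ℝ)) : Mn n))) 0 :=
    HasFDerivAt.comp_hasDerivAt (𝕜 := ℝ) (F := Mn n) (E := ℝ) (0 : ℝ) h1 hcd
  have hdet : Continuous fun t : ℝ => (1 + t • w : Mn n).det := by fun_prop
  have hdet0 : (1 + (0 : ℝ) • w : Mn n).det = 1 := by simp
  have hpos : ∀ᶠ t : ℝ in 𝓝 0, 0 < (1 + t • w : Mn n).det :=
    hdet.continuousAt.eventually_const_lt (by simp only [hdet0]; exact one_pos)
  have h3 : (sChart f M ∘ c) =ᶠ[𝓝 0] fun _ => f M := by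
    filter_upwards [hpos] with t ht
    have e0 : 0 < (M : Mn n).det := by
      have : (M : Mn n).det = 1 := M.2
      rw [this]; exact one_pos
    have e0' : 0 < ((M⁻¹ : SL(n, ℝ)) : Mn n).det := by
      have : ((M⁻¹ : SL(n, ℝ)) : Mn n).det = 1 := (M⁻¹).2
      rw [this]; exact one_pos
    have e1 : 0 < ((1 + t • w : Mn n)⁻¹).det := by
      rw [Matrix.det_nonsing_inv, Ring.inverse_eq_inv']; positivity
    have e2 : 0 < ((1 + t • w) * (M : Mn n)).det := by rw [Matrix.det_mul]; positivity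
    have e3 : 0 < ((1 + t • w) * (M : Mn n) * (1 + t • w)⁻¹).det := by
      rw [Matrix.det_mul]; positivity
    change f (unimod n ((1 + t • w) * (M : Mn n) * (1 + t • w)⁻¹ *
      ((M⁻¹ : SL(n, ℝ)) : Mn n)) * M) = f M
    rw [unimod_mul e3 e0', unimod_mul e2 e1, unimod_mul ht e0, unimod_inv ht, unimod_coe,
      unimod_coe, inv_mul_cancel_right, hf]
  have h4 : HasDerivAt (sChart f M ∘ c) 0 0 :=
    (hasDerivAt_const (0 : ℝ) (f M)).congr_of_eventuallyEq h3
  exact h2.unique h4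

/-- The vanishing on coboundaries, for a quotient `q : SL(n, ℝ) → G`. -/
lemma fderiv_cobound_of_cover {n : ℕ} {G : Type*} [Group G] (q : SL(n, ℝ) →* G) {f : G → ℝ}
    (hf : ConjInv f) {M : SL(n, ℝ)}
    (hd : DifferentiableAt ℝ (fun Y : Mn n => f (q (unimod n Y) * q M)) 1) (w : Mn n) :
    fderiv ℝ (fun Y : Mn n => f (q (unimod n Y) * q M)) 1
      (w - (M : Mn n) * w * ((M⁻¹ : SL(n, ℝ)) : Mn n)) = 0 := by
  have heq : (fun Y : Mn n => f (q (unimod n Y) * q M)) = sChart (fun N => f (q N)) M := by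
    funext Y
    change f (q (unimod n Y) * q M) = f (q (unimod n Y * M))
    rw [map_mul]
  have hinv : ConjInv fun N => f (q N) := by
    intro g h
    simp only [map_mul, map_inv]
    exact hf _ _
  rw [heq] at hd ⊢
  exact fderiv_cobound hinv hd w

lemma symSL_val (n : ℕ) (g : SL(2, ℝ)) : (symSL n g : Mn n) = symM n (mat g) := rfl

lemma symSL_inv_val (n : ℕ) (g : SL(2, ℝ)) :
    (((symSL n g)⁻¹ : SL(n, ℝ)) : Mn n) = symM n (adjugate (mat g)) := by
  rw [← map_inv]; rfl

/-! ### The gradient -/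

lemma exists_gradient {n : ℕ} (L : Mn n →L[ℝ] ℝ) : ∃ F : Mn n, ∀ X, L X = (F * X).trace := by
  refine ⟨Matrix.of fun j i => L (Matrix.single i j 1), fun X => ?_⟩
  have h1 : L X = ∑ i, ∑ j, X i j * L (Matrix.single i j 1) := by
    conv_lhs => rw [Matrix.matrix_eq_sum_single X]
    rw [map_sum]
    refine Finset.sum_congr rfl fun i _ => ?_
    rw [map_sum]
    refine Finset.sum_congr rfl fun j _ => ?_
    have : Matrix.single i j (X i j) = X i j • Matrix.single i j (1 : ℝ) := by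
      rw [Matrix.smul_single, smul_eq_mul, mul_one]
    rw [this, map_smul, smul_eq_mul]
  rw [h1, Matrix.trace, Finset.sum_comm]
  refine Finset.sum_congr rfl fun j _ => ?_
  rw [Matrix.diag_apply, Matrix.mul_apply]
  refine Finset.sum_congr rfl fun i _ => ?_
  rw [Matrix.of_apply, mul_comm]

lemma trace_ext {n : ℕ} {A B : Mn n} (h : ∀ X, (A * X).trace = (B * X).trace) : A = B := by
  ext i j
  have := h (Matrix.single j i 1)
  have key : ∀ C : Mn n, (C * Matrix.single j i 1).trace = C i j := by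
    intro C
    rw [Matrix.trace_mul_single]; simp
  rw [key, key] at this
  exact this

/-- The gradient of a conjugation invariant function at a Fuchsian point commutes with the
image of the algebra generated by the underlying `2 × 2` matrix. -/
theorem gradient_comm {n : ℕ} {f : SL(n, ℝ) → ℝ} (hf : ConjInv f) (g : SL(2, ℝ))
    (hd : DifferentiableAt ℝ (sChart f (symSL n g)) 1) :
    ∃ F : Mn n, (∀ X, fderiv ℝ (sChart f (symSL n g)) 1 X = (F * X).trace) ∧
      ∀ a b : ℝ, F * symM n (a • 1 + b • mat g) = symM n (a • 1 + b • mat g) * F := by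
  obtain ⟨F, hF⟩ := exists_gradient (fderiv ℝ (sChart f (symSL n g)) 1)
  refine ⟨F, hF, ?_⟩
  have key : ∀ x : M2, 0 < x.det → x * mat g = mat g * x → F * symM n x = symM n x * F := by
    intro x hx hcomm
    have hpos : 0 < (symM n x).det := det_symM_pos n hx
    set h : SL(n, ℝ) := unimod n (symM n x) with hh
    set c : ℝ := (symM n x).det ^ (-(1 / (n : ℝ))) with hc
    have hc0 : c ≠ 0 := (Real.rpow_pos_of_pos hpos _).ne'
    have hval : (h : Mn n) = c • symM n x := unimod_val hpos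
    have hM : h * symSL n g = symSL n g * h := by
      have h1 : (h : Mn n) * (symSL n g : Mn n) = (symSL n g : Mn n) * (h : Mn n) := by
        rw [hval, symSL_val, Matrix.smul_mul, Matrix.mul_smul, ← symM_mul, ← symM_mul, hcomm]
      exact sl_ext h1
    have hinv1 : ((h⁻¹ : SL(n, ℝ)) : Mn n) * (h : Mn n) = 1 :=
      congrArg Subtype.val (inv_mul_cancel h)
    have hinv2 : (h : Mn n) * ((h⁻¹ : SL(n, ℝ)) : Mn n) = 1 :=
      congrArg Subtype.val (mul_inv_cancel h)
    have h2 : ((h⁻¹ : SL(n, ℝ)) : Mn n) * F * (h : Mn n) = F := by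
      apply trace_ext
      intro X
      have h3 := fderiv_conj hf hM hd X
      rw [hF, hF] at h3
      rw [← h3]
      rw [Matrix.trace_mul_comm F]
      calc (((h⁻¹ : SL(n, ℝ)) : Mn n) * F * (h : Mn n) * X).trace =
          (((h⁻¹ : SL(n, ℝ)) : Mn n) * (F * (h : Mn n) * X)).trace := by
            simp only [Matrix.mul_assoc]
        _ = (F * (h : Mn n) * X * ((h⁻¹ : SL(n, ℝ)) : Mn n)).trace := Matrix.trace_mul_comm _ _
        _ = (F * ((h : Mn n) * X * ((h⁻¹ : SL(n, ℝ)) : Mn n))).trace := by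
            simp only [Matrix.mul_assoc]
        _ = _ := Matrix.trace_mul_comm _ _
    have h4 : F * (h : Mn n) = (h : Mn n) * F := by
      have h5 := congrArg (fun Z => (h : Mn n) * Z) h2
      simp only [← Matrix.mul_assoc, hinv2, Matrix.one_mul] at h5
      exact h5
    rw [hval, Matrix.mul_smul, Matrix.smul_mul] at h4
    exact smul_right_injective _ hc0 h4
  apply comm_all_of_shift
  intro t
  apply comm_of_infinite F (mat g) {s : ℝ | 0 < (s • 1 + mat g).det}
  · have hdet : ∀ s : ℝ, (s • (1 : M2) + mat g).det = s ^ 2 + s * (mat g).trace + 1 := by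
      intro s
      have hg : (mat g).det = 1 := det_mat g
      rw [Matrix.det_fin_two] at hg ⊢
      simp only [Matrix.add_apply, Matrix.smul_apply, Matrix.one_apply_eq, smul_eq_mul,
        Matrix.trace_fin_two]
      simp
      linear_combination hg
    apply Set.infinite_of_not_bddAbove
    rintro ⟨B, hB⟩
    have h1 : max B 0 + |(mat g).trace| + 1 ∈ {s : ℝ | 0 < (s • 1 + mat g).det} := by
      rw [Set.mem_ofPred_eq, hdet]
      have h2 := abs_nonneg (mat g).trace
      have h3 := neg_abs_le (mat g).trace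
      have h4 := le_max_right B 0
      nlinarith
    have h2 := hB h1
    have h3 := le_max_left B 0
    have h4 := abs_nonneg (mat g).trace
    linarith
  · intro s hs
    apply key _ hs
    rw [Matrix.add_mul, Matrix.mul_add, Matrix.smul_mul, Matrix.mul_smul, Matrix.one_mul,
      Matrix.mul_one]

end Pool.Agent.LibHyperelliptic
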