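import Pool.Agent.LibHyperelliptic.Dimension
import Pool.Agent.LibHyperelliptic.Surface

set_option autoImplicit false

noncomputable section

open Matrix Module
open scoped MatrixGroups

namespace Pool.Agent.LibHyperelliptic

/-! ### Two by two matrices of determinant one -/

lemma adj_eq (A : M2) : adjugate A = A.trace • 1 - A := by
  rw [adjugate_fin_two]
  ext i j; fin_cases i <;> fin_cases j <;> simp [Matrix.trace_fin_two]

lemma comm_mul_left (A B : M2) : (A * B - B * A) * A = adjugate A * (A * B - B * A) := by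
  rw [adjugate_fin_two]
  ext i j; fin_cases i <;> fin_cases j <;>
    simp [Matrix.mul_apply, Fin.sum_univ_two] <;> ring

lemma comm_mul_right (A B : M2) : (A * B - B * A) * B = adjugate B * (A * B - B * A) := by
  rw [adjugate_fin_two]
  ext i j; fin_cases i <;> fin_cases j <;>
    simp [Matrix.mul_apply, Fin.sum_univ_two] <;> ring

lemma trace_comm (A B : M2) : (A * B - B * A).trace = 0 := by
  rw [Matrix.trace_sub, Matrix.trace_mul_comm, sub_self]

lemma trace_mul_comm_left (A B : M2) : (A * (A * B - B * A)).trace = 0 := by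
  rw [Matrix.mul_sub, Matrix.trace_sub, ← Matrix.mul_assoc, ← Matrix.mul_assoc,
    Matrix.trace_mul_comm (A * B) A, ← Matrix.mul_assoc, sub_self]

lemma trace_mul_comm_right (A B : M2) : (B * (A * B - B * A)).trace = 0 := by
  rw [Matrix.mul_sub, Matrix.trace_sub, ← Matrix.mul_assoc, ← Matrix.mul_assoc,
    Matrix.trace_mul_comm (B * A) B, ← Matrix.mul_assoc, sub_self]

lemma mul_adj {A : M2} (h : A.det = 1) : A * adjugate A = 1 := by
  rw [Matrix.mul_adjugate, h, one_smul]

lemma adj_mul {A : M2} (h : A.det = 1) : adjugate A * A = 1 := by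
  rw [Matrix.adjugate_mul, h, one_smul]

/-- `A B [A, B]_add = [A, B]_mult - 1`. -/
lemma commutator_formula {A B : M2} (hA : A.det = 1) (hB : B.det = 1) :
    A * B * (A * B - B * A) = A * B * adjugate A * adjugate B - 1 := by
  have h1 : adjugate (B * A) = adjugate A * adjugate B := Matrix.adjugate_mul_distrib _ _
  have h2 : (A * B).det = 1 := by rw [Matrix.det_mul, hA, hB, one_mul]
  have h3 : adjugate (A * B) = (A * B).trace • 1 - A * B := adj_eq _
  have h4 : adjugate (B * A) = (A * B).trace • 1 - B * A := by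
    rw [adj_eq, Matrix.trace_mul_comm]
  have h5 : A * B * (A * B - B * A) = A * B * (adjugate (B * A) - adjugate (A * B)) := by
    rw [h3, h4]; congr 1; abel
  rw [h5, Matrix.mul_sub, mul_adj h2, h1]
  simp only [Matrix.mul_assoc]

lemma adj_comm {A B : M2} : A * adjugate B - adjugate B * A = -(A * B - B * A) := by
  rw [adj_eq B]
  simp only [Matrix.mul_sub, Matrix.sub_mul, Matrix.mul_smul, Matrix.smul_mul, Matrix.mul_one,
    Matrix.one_mul]
  abel

/-- If the additive commutator is singular, the multiplicative commutators `[A, B]` and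
`[A, B⁻¹]` commute. -/
lemma commute_of_det_eq_zero {A B : M2} (hA : A.det = 1) (hB : B.det = 1)
    (hc : (A * B - B * A).det = 0) :
    (A * B * adjugate A * adjugate B) * (A * adjugate B * adjugate A * B) =
      (A * adjugate B * adjugate A * B) * (A * B * adjugate A * adjugate B) := by
  set c := A * B - B * A with hcdef
  have hcc : c * c = 0 := by
    rw [cayley2, hc, hcdef, trace_comm]; simp
  have hcA : c * A = adjugate A * c := comm_mul_left A B
  have hcB : c * B = adjugate B * c := comm_mul_right A B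
  have hB'det : (adjugate B).det = 1 := by
    have := Matrix.det_adjugate B
    rw [this, hB]; simp
  have hBB : adjugate (adjugate B) = B := by
    rw [adjugate_fin_two, adjugate_fin_two]
    ext i j; fin_cases i <;> fin_cases j <;> simp
  have hcB' : c * adjugate B = B * c := by
    calc c * adjugate B = B * (adjugate B * c) * adjugate B := by
          rw [← Matrix.mul_assoc, mul_adj hB, Matrix.one_mul]
      _ = B * c * (B * adjugate B) := by rw [← hcB]; simp only [Matrix.mul_assoc]
      _ = B * c := by rw [mul_adj hB, Matrix.mul_one]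
  have hK : A * B * adjugate A * adjugate B = 1 + A * B * c := by
    rw [hcdef, commutator_formula hA hB]; abel
  have hK' : A * adjugate B * adjugate A * B = 1 - A * adjugate B * c := by
    have h := commutator_formula hA hB'det
    rw [adj_comm, hBB, ← hcdef] at h
    have h' : A * adjugate B * -c = -(A * adjugate B * c) := by rw [Matrix.mul_neg]
    rw [h'] at h
    rw [sub_eq_add_neg, h]; abel
  have z1 : A * B * c * (A * adjugate B * c) = 0 := by
    calc A * B * c * (A * adjugate B * c) = A * B * (c * A) * (adjugate B * c) := by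
          simp only [Matrix.mul_assoc]
      _ = A * B * adjugate A * (c * adjugate B) * c := by rw [hcA]; simp only [Matrix.mul_assoc]
      _ = A * B * adjugate A * B * (c * c) := by rw [hcB']; simp only [Matrix.mul_assoc]
      _ = 0 := by rw [hcc, Matrix.mul_zero]
  have z2 : A * adjugate B * c * (A * B * c) = 0 := by
    calc A * adjugate B * c * (A * B * c) = A * adjugate B * (c * A) * (B * c) := by
          simp only [Matrix.mul_assoc]
      _ = A * adjugate B * adjugate A * (c * B) * c := by rw [hcA]; simp only [Matrix.mul_assoc]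
      _ = A * adjugate B * adjugate A * adjugate B * (c * c) := by
          rw [hcB]; simp only [Matrix.mul_assoc]
      _ = 0 := by rw [hcc, Matrix.mul_zero]
  rw [hK, hK']
  simp only [Matrix.mul_sub, Matrix.sub_mul, Matrix.add_mul, Matrix.mul_add, Matrix.mul_one,
    Matrix.one_mul, z1, z2]
  abel

/-! ### Representations injective modulo sign -/

/-- The underlying matrix. -/
def mat : SL(2, ℝ) →* M2 where
  toFun g := g.1
  map_one' := rfl
  map_mul' _ _ := rfl

@[simp] lemma mat_inv (g : SL(2, ℝ)) : mat g⁻¹ = adjugate (mat g) := rfl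
lemma det_mat (g : SL(2, ℝ)) : (mat g).det = 1 := g.2
lemma mat_injective : Function.Injective mat := Subtype.val_injective

/-- `ρ₀ x = ±1` only for `x = 1`. -/
def InjPM (ρ₀ : Surf →* SL(2, ℝ)) : Prop := ∀ x, ∀ c : ℝ, mat (ρ₀ x) = c • 1 → x = 1

lemma dbl_coe (A B : SL(2, ℝ)) (hc : (mat A * mat B - mat B * mat A).det = 0) :
    dbl A B = 1 := by
  have h := commute_of_det_eq_zero (det_mat A) (det_mat B) hc
  have h2 : (A * B * A⁻¹ * B⁻¹) * (A * B⁻¹ * A⁻¹ * B) =
      (A * B⁻¹ * A⁻¹ * B) * (A * B * A⁻¹ * B⁻¹) := by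
    apply mat_injective
    simpa only [map_mul, mat_inv] using h
  unfold dbl
  rw [h2]; group

section
variable {ρ₀ : Surf →* SL(2, ℝ)} (hρ : InjPM ρ₀)
include hρ

lemma det_comm_ne₁ :
    (mat (ρ₀ a₁) * mat (ρ₀ b₁) - mat (ρ₀ b₁) * mat (ρ₀ a₁)).det ≠ 0 := by
  intro h
  have h1 := dbl_coe _ _ h
  have h2 : ρ₀ (dbl a₁ b₁) = 1 := by
    rw [← h1]; simp only [dbl, map_mul, map_inv]
  apply dbl_ne_one₁
  apply hρ _ 1
  rw [h2]; simp

lemma det_comm_ne₂ :
    (mat (ρ₀ a₂) * mat (ρ₀ b₂) - mat (ρ₀ b₂) * mat (ρ₀ a₂)).det ≠ 0 := by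
  intro h
  have h1 := dbl_coe _ _ h
  have h2 : ρ₀ (dbl a₂ b₂) = 1 := by
    rw [← h1]; simp only [dbl, map_mul, map_inv]
  apply dbl_ne_one₂
  apply hρ _ 1
  rw [h2]; simp

end

/-- powers of a matrix in `SL₂` as combinations of `1` and the matrix -/
lemma pow_comb (A : M2) (k : ℕ) : ∃ a b : ℝ, A ^ k = a • 1 + b • A := by
  induction k with
  | zero => exact ⟨1, 0, by simp⟩
  | succ k ih =>
    obtain ⟨a, b, h⟩ := ih
    refine ⟨-(b * A.det), a + b * A.trace, ?_⟩
    rw [pow_succ, h, Matrix.add_mul, Matrix.smul_mul, Matrix.smul_mul, Matrix.one_mul, cayley2]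
    rw [smul_sub, smul_smul, smul_smul, add_smul, neg_smul]
    abel

/-- If `F` commutes with `M(A)` and `A` has infinite order modulo sign, then `F` commutes with
the image of `ℝ[A]`. -/
lemma comm_all_of_infinite_order {n : ℕ} (F : Mn n) (A : M2) (hdet : A.det = 1)
    (hA : ∀ k : ℕ, k ≠ 0 → ∀ c : ℝ, A ^ k ≠ c • 1)
    (hF : F * symM n A = symM n A * F) (a b : ℝ) :
    F * symM n (a • 1 + b • A) = symM n (a • 1 + b • A) * F := by
  have hpow : ∀ k : ℕ, F * symM n (A ^ k) = symM n (A ^ k) * F := by
    intro k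
    have h1 : symM n (A ^ k) = symM n A ^ k := by
      have := map_pow (symHom n) A k
      simpa using this
    rw [h1]
    have : Commute F (symM n A) := hF
    exact this.pow_right k
  choose al be hab using fun k : ℕ => pow_comb A k
  have hbe : ∀ k, k ≠ 0 → be k ≠ 0 := by
    intro k hk hb
    apply hA k hk (al k)
    rw [hab k, hb, zero_smul, add_zero]
  apply comm_all_of_shift
  apply comm_of_infinite F A (Set.range fun k : ℕ => al (k + 1) / be (k + 1))
  · apply Set.infinite_range_of_injective
    intro k l hkl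
    by_contra hne
    -- powers are proportional
    have hgen : ∀ k l : ℕ, k < l → al (k + 1) / be (k + 1) ≠ al (l + 1) / be (l + 1) := by
      intro k l hlt heq
      have hbk := hbe (k + 1) (by omega)
      have hbl := hbe (l + 1) (by omega)
      have h1 : A ^ (l + 1) = (be (l + 1) / be (k + 1)) • A ^ (k + 1) := by
        rw [hab (l + 1), hab (k + 1), smul_add, smul_smul, smul_smul, div_mul_cancel₀ _ hbk]
        congr 2
        rw [div_eq_div_iff hbk hbl] at heq
        field_simp
        linarith
      have h2 : A ^ (l + 1) = A ^ (l - k) * A ^ (k + 1) := by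
        rw [← pow_add]; congr 1; omega
      have h3 : A ^ (k + 1) * (adjugate A) ^ (k + 1) = 1 := by
        have hc : Commute A (adjugate A) := by
          change A * adjugate A = adjugate A * A
          rw [mul_adj hdet, adj_mul hdet]
        rw [← hc.mul_pow, mul_adj hdet, one_pow]
      have h4 : A ^ (l - k) = (be (l + 1) / be (k + 1)) • 1 := by
        have h5 := congrArg (fun Y => Y * (adjugate A) ^ (k + 1)) (h2.symm.trans h1)
        simpa only [Matrix.mul_assoc, h3, Matrix.mul_one, Matrix.smul_mul] using h5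
      exact hA (l - k) (by omega) _ h4
    rcases lt_or_gt_of_ne hne with h | h
    · exact hgen k l h hkl
    · exact hgen l k h hkl.symm
  · rintro _ ⟨k, rfl⟩
    have hb := hbe (k + 1) (by omega)
    have h1 : (al (k + 1) / be (k + 1)) • (1 : M2) + A = (be (k + 1))⁻¹ • A ^ (k + 1) := by
      rw [hab (k + 1), smul_add, smul_smul, smul_smul, inv_mul_cancel₀ hb, one_smul]
      congr 2
      rw [div_eq_inv_mul]
    simp only [h1]
    rw [symM_smul, Matrix.mul_smul, Matrix.smul_mul, hpow]

/-- The commutant of the second handle is trivial. -/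
lemma scalar_of_comm_handle {n : ℕ} {ρ₀ : Surf →* SL(2, ℝ)} (hρ : InjPM ρ₀) (F : Mn n)
    (h1 : F * symM n (mat (ρ₀ a₂)) = symM n (mat (ρ₀ a₂)) * F)
    (h2 : F * symM n (mat (ρ₀ b₂)) = symM n (mat (ρ₀ b₂)) * F) :
    ∃ c : ℝ, F = c • 1 := by
  have hord : ∀ x : Surf, (∀ k : ℕ, k ≠ 0 → x ^ k ≠ 1) →
      ∀ k : ℕ, k ≠ 0 → ∀ c : ℝ, (mat (ρ₀ x)) ^ k ≠ c • 1 := by
    intro x hx k hk c hc
    apply hx k hk
    apply hρ _ c
    rw [map_pow, map_pow, hc]
  have ha := hord a₂ a₂_pow_ne
  have hb := hord b₂ b₂_pow_ne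
  refine scalar_of_comm F (mat (ρ₀ a₂)) (mat (ρ₀ b₂)) (det_mat _) ?_ (det_comm_ne₂ hρ)
    (comm_all_of_infinite_order F _ (det_mat _) ha h1)
    (comm_all_of_infinite_order F _ (det_mat _) hb h2)
  intro ht
  apply ha 2 (by norm_num) (-1)
  rw [pow_two, cayley2, ht, det_mat]
  simp

end Pool.Agent.LibHyperelliptic
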