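import Mathlib

set_option autoImplicit false

namespace Pool.Agent.LibHyperelliptic

/-! ### Words in right angled Coxeter groups -/

section words
variable {ι : Type*} (adj : ι → ι → Prop)

/-- The letter `j` can be moved to the front of the word. -/
def cancels (j : ι) : List ι → Prop
  | [] => False
  | i :: L => i = j ∨ (adj i j ∧ cancels j L)

/-- Reduced words. -/
def red : List ι → Prop
  | [] => True
  | i :: L => ¬ cancels adj i L ∧ red L

lemma exists_cancel {G : Type*} [Group G] (t : ι → G) (ht : ∀ i, t i * t i = 1)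
    (hc : ∀ i j, adj i j → t i * t j = t j * t i) (j : ι) (L : List ι) (h : cancels adj j L) :
    ∃ L' : List ι, (L'.map t).prod = t j * (L.map t).prod ∧ L'.length < L.length := by
  induction L with
  | nil => exact h.elim
  | cons i L ih =>
    rcases h with rfl | ⟨h1, h2⟩
    · refine ⟨L, ?_, by simp⟩
      rw [List.map_cons, List.prod_cons, ← mul_assoc, ht, one_mul]
    · obtain ⟨L', h3, h4⟩ := ih h2
      refine ⟨i :: L', ?_, by simpa using h4⟩
      rw [List.map_cons, List.prod_cons, h3, List.map_cons, List.prod_cons, ← mul_assoc,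
        hc i j h1, mul_assoc]

lemma exists_red {G : Type*} [Group G] (t : ι → G) (ht : ∀ i, t i * t i = 1)
    (hc : ∀ i j, adj i j → t i * t j = t j * t i) (k : ℕ) (L : List ι) (hk : L.length ≤ k) :
    ∃ L' : List ι, red adj L' ∧ (L'.map t).prod = (L.map t).prod ∧ L'.length ≤ L.length := by
  induction k generalizing L with
  | zero =>
    have : L = [] := List.length_eq_zero_iff.1 (Nat.le_zero.1 hk)
    subst this
    exact ⟨[], trivial, rfl, le_rfl⟩
  | succ k ih =>
    cases L with
    | nil => exact ⟨[], trivial, rfl, le_rfl⟩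
    | cons i L =>
      have hL : L.length ≤ k := by simpa using hk
      obtain ⟨L₁, h1, h2, h3⟩ := ih L hL
      by_cases hcan : cancels adj i L₁
      · obtain ⟨L₂, h4, h5⟩ := exists_cancel adj t ht hc i L₁ hcan
        obtain ⟨L₃, h6, h7, h8⟩ := ih L₂ (by omega)
        refine ⟨L₃, h6, ?_, by simp; omega⟩
        rw [h7, h4, h2, List.map_cons, List.prod_cons]
      · refine ⟨i :: L₁, ⟨hcan, h1⟩, ?_, by simpa using h3⟩
        rw [List.map_cons, List.prod_cons, h2, List.map_cons, List.prod_cons]

/-- The ping-pong lemma for right angled Coxeter groups. -/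
lemma pingpong {X : Type*} (t : ι → Equiv.Perm X) (P : X → Prop) (f : ι → X → ℝ) (x : X)
    (hx : P x) (hfx : ∀ i, 0 < f i x) (hP : ∀ i v, P v → P (t i v))
    (h1 : ∀ i v, f i (t i v) = -f i v)
    (h2 : ∀ i j v, adj i j → f j (t i v) = f j v)
    (h3 : ∀ i j v, i ≠ j → ¬ adj i j → P v → f i v < 0 → 0 < f j v)
    (L : List ι) (hL : red adj L) :
    P ((L.map t).prod x) ∧ ∀ j, ¬ cancels adj j L → 0 < f j ((L.map t).prod x) := by
  induction L with
  | nil => exact ⟨hx, fun j _ => hfx j⟩
  | cons i L ih =>
    obtain ⟨h4, h5⟩ := ih hL.2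
    have h6 : ((i :: L).map t).prod x = t i ((L.map t).prod x) := by
      rw [List.map_cons, List.prod_cons]; rfl
    have h7 : f i (((i :: L).map t).prod x) < 0 := by
      rw [h6, h1]
      have := h5 i hL.1
      linarith
    have h8 : P (((i :: L).map t).prod x) := by rw [h6]; exact hP _ _ h4
    refine ⟨h8, fun j hj => ?_⟩
    have hij : i ≠ j := fun h => hj (Or.inl h)
    by_cases hadj : adj i j
    · rw [h6, h2 _ _ _ hadj]
      exact h5 j fun h => hj (Or.inr ⟨hadj, h⟩)
    · exact h3 i j _ hij hadj h8 h7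

lemma pingpong_ne {X : Type*} (t : ι → Equiv.Perm X) (P : X → Prop) (f : ι → X → ℝ) (x : X)
    (hx : P x) (hfx : ∀ i, 0 < f i x) (hP : ∀ i v, P v → P (t i v))
    (h1 : ∀ i v, f i (t i v) = -f i v)
    (h2 : ∀ i j v, adj i j → f j (t i v) = f j v)
    (h3 : ∀ i j v, i ≠ j → ¬ adj i j → P v → f i v < 0 → 0 < f j v)
    (L : List ι) (hL : red adj L) (hfix : (L.map t).prod x = x) : L = [] := by
  cases L with
  | nil => rfl
  | cons i L =>
    exfalso
    obtain ⟨-, h5⟩ := pingpong adj t P f x hx hfx hP h1 h2 h3 L hL.2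
    have h7 : f i (((i :: L).map t).prod x) < 0 := by
      have h6 : ((i :: L).map t).prod x = t i ((L.map t).prod x) := by
        rw [List.map_cons, List.prod_cons]; rfl
      rw [h6, h1]
      have := h5 i hL.1
      linarith
    rw [hfix] at h7
    exact lt_asymm h7 (hfx i)

end words

end Pool.Agent.LibHyperelliptic
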