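import Pool.Agent.LibHyperelliptic.Surface
import Pool.Agent.LibHyperelliptic.Words

set_option autoImplicit false

noncomputable section

namespace Pool.Agent.LibHyperelliptic

/-! ### An action of the right angled hexagon reflection group on the surface group -/

section rel
variable {G : Type*} [Group G] {a b c d : G} (h : SurfRel a b c d)
include h

lemma rel_s3 : SurfRel a⁻¹ b (b * a⁻¹ * b⁻¹ * c * a) (a⁻¹ * d⁻¹ * a) := by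
  have h2 := rel_K' h
  unfold SurfRel
  calc _ = a⁻¹ * (c * d⁻¹ * c⁻¹ * (a * b * a⁻¹ * b⁻¹)⁻¹ * d) * a := by group
      _ = 1 := by rw [← h2]; group

lemma rel_s2 : SurfRel a b⁻¹ (b⁻¹ * c⁻¹ * b) (a * b⁻¹ * a⁻¹ * d * b) := by
  have h2 := rel_K' h
  unfold SurfRel
  calc _ = a * b⁻¹ * a⁻¹ * c⁻¹ * (a * b * a⁻¹ * b⁻¹)⁻¹ * d * c * d⁻¹ * a * b * a⁻¹ := by
        group
      _ = 1 := by rw [← h2]; group

end rel

/-- The reflection `σ₃`. -/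
def σ₃ : Surf →* Surf :=
  surfLift a₁⁻¹ b₁ (b₁ * a₁⁻¹ * b₁⁻¹ * a₂ * a₁) (a₁⁻¹ * b₂⁻¹ * a₁) (rel_s3 surf_rel)

/-- The reflection `σ₂`. -/
def σ₂ : Surf →* Surf :=
  surfLift a₁ b₁⁻¹ (b₁⁻¹ * a₂⁻¹ * b₁) (a₁ * b₁⁻¹ * a₁⁻¹ * b₂ * b₁) (rel_s2 surf_rel)

@[simp] lemma σ₃_a₁ : σ₃ a₁ = a₁⁻¹ := surfLift_a₁ _ _ _ _ _
@[simp] lemma σ₃_b₁ : σ₃ b₁ = b₁ := surfLift_b₁ _ _ _ _ _
@[simp] lemma σ₃_a₂ : σ₃ a₂ = b₁ * a₁⁻¹ * b₁⁻¹ * a₂ * a₁ := surfLift_a₂ _ _ _ _ _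
@[simp] lemma σ₃_b₂ : σ₃ b₂ = a₁⁻¹ * b₂⁻¹ * a₁ := surfLift_b₂ _ _ _ _ _
@[simp] lemma σ₂_a₁ : σ₂ a₁ = a₁ := surfLift_a₁ _ _ _ _ _
@[simp] lemma σ₂_b₁ : σ₂ b₁ = b₁⁻¹ := surfLift_b₁ _ _ _ _ _
@[simp] lemma σ₂_a₂ : σ₂ a₂ = b₁⁻¹ * a₂⁻¹ * b₁ := surfLift_a₂ _ _ _ _ _
@[simp] lemma σ₂_b₂ : σ₂ b₂ = a₁ * b₁⁻¹ * a₁⁻¹ * b₂ * b₁ := surfLift_b₂ _ _ _ _ _

lemma σ₃_σ₃ (x : Surf) : σ₃ (σ₃ x) = x := by
  have h : σ₃.comp σ₃ = MonoidHom.id Surf := by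
    apply surf_hom_ext <;> simp [mul_assoc]
  exact DFunLike.congr_fun h x

lemma σ₂_σ₂ (x : Surf) : σ₂ (σ₂ x) = x := by
  have h : σ₂.comp σ₂ = MonoidHom.id Surf := by
    apply surf_hom_ext <;> simp [mul_assoc]
  exact DFunLike.congr_fun h x

lemma σ₂_σ₃ (x : Surf) : σ₂ (σ₃ x) = σ₃ (σ₂ x) := by
  have h : σ₂.comp σ₃ = σ₃.comp σ₂ := by
    apply surf_hom_ext <;> simp [mul_assoc]
  exact DFunLike.congr_fun h x

/-- The six involutions. -/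
def hexFun : Fin 6 → (Surf → Surf) :=
  ![fun x => a₁ * σ₃ x, fun x => σ₂ x, fun x => σ₃ x, fun x => b₁ * σ₂ x,
    fun x => a₁ * σ₃ (b₂ * x), fun x => b₁ * σ₂ (a₂ * x)]

lemma hexFun_invol (i : Fin 6) : Function.Involutive (hexFun i) := by
  intro x
  fin_cases i <;> simp [hexFun, σ₃_σ₃, σ₂_σ₂, mul_assoc]

/-- The six involutions, as permutations of the surface group. -/
def hexS (i : Fin 6) : Equiv.Perm Surf := (hexFun_invol i).toPerm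

lemma hexS_apply (i : Fin 6) (x : Surf) : hexS i x = hexFun i x := rfl

lemma hexS_sq (i : Fin 6) : hexS i * hexS i = 1 := by
  ext1 x
  exact hexFun_invol i x

/-- Adjacency of the sides of the hexagon. -/
def hexAdj (i j : Fin 6) : Prop := i + 1 = j ∨ j + 1 = i

instance : DecidableRel hexAdj := fun i j => by unfold hexAdj; infer_instance

lemma hexS_comm_succ (i : Fin 6) : hexS i * hexS (i + 1) = hexS (i + 1) * hexS i := by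
  ext1 x
  change hexFun i (hexFun (i + 1) x) = hexFun (i + 1) (hexFun i x)
  fin_cases i
  · simp [hexFun, σ₂_σ₃]
  · simp [hexFun, σ₂_σ₃]
  · simp [hexFun, σ₂_σ₃]
  · simp [hexFun, σ₂_σ₃, mul_assoc]
  · have h := rel_K' surf_rel
    change a₁ * σ₃ (b₂ * (b₁ * σ₂ (a₂ * x))) = b₁ * σ₂ (a₂ * (a₁ * σ₃ (b₂ * x)))
    simp only [map_mul, σ₂_σ₃, σ₃_b₂, σ₃_b₁, σ₂_a₂, σ₂_a₁, σ₂_b₂, map_inv]
    rw [σ₃_a₂]
    generalize σ₃ (σ₂ x) = y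
    calc _ = a₂⁻¹ * b₂⁻¹ * (b₂ * a₂ * b₂⁻¹ * a₂⁻¹) * b₁ * a₁ * y := by group
      _ = _ := by rw [h]; group
  · change b₁ * σ₂ (a₂ * (a₁ * σ₃ x)) = a₁ * σ₃ (b₁ * σ₂ (a₂ * x))
    simp [σ₂_σ₃, mul_assoc]

lemma hexS_comm (i j : Fin 6) (h : hexAdj i j) : hexS i * hexS j = hexS j * hexS i := by
  rcases h with rfl | rfl
  · exact hexS_comm_succ i
  · exact (hexS_comm_succ j).symm

lemma hexS_a₁ : hexS 0 * hexS 2 = Equiv.mulLeft a₁ := by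
  ext1 x
  change a₁ * σ₃ (σ₃ x) = a₁ * x
  rw [σ₃_σ₃]

lemma hexS_b₁ : hexS 3 * hexS 1 = Equiv.mulLeft b₁ := by
  ext1 x
  change b₁ * σ₂ (σ₂ x) = b₁ * x
  rw [σ₂_σ₂]

lemma hexS_a₂ : hexS 3 * hexS 5 = Equiv.mulLeft a₂ := by
  ext1 x
  change b₁ * σ₂ (b₁ * σ₂ (a₂ * x)) = a₂ * x
  rw [map_mul, σ₂_σ₂, σ₂_b₁, mul_inv_cancel_left]

lemma hexS_b₂ : hexS 0 * hexS 4 = Equiv.mulLeft b₂ := by
  ext1 x
  change a₁ * σ₃ (a₁ * σ₃ (b₂ * x)) = b₂ * x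
  rw [map_mul, σ₃_σ₃, σ₃_a₁, mul_inv_cancel_left]

/-! ### The right angled hexagon -/

/-- A square root of three. -/
def r3 : ℝ := Real.sqrt 3

lemma r3_sq : r3 * r3 = 3 := Real.mul_self_sqrt (by norm_num)
lemma r3_pos : 0 < r3 := Real.sqrt_pos.2 (by norm_num)
lemma r3_lt : r3 < 1.7321 := by
  rw [r3, Real.sqrt_lt' (by norm_num)]; norm_num
lemma r3_gt : 1.732 < r3 := by
  rw [r3, Real.lt_sqrt (by norm_num)]; norm_num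

/-- The reflections in the sides of a right angled hexagon. -/
def hexR : Fin 6 → Matrix (Fin 2) (Fin 2) ℝ :=
  ![!![0, 2 + r3; 2 - r3, 0], !![1, 0; 0, -1], !![0, -1; -1, 0], !![-2, r3; -r3, 2],
    !![-3, 2 + 2 * r3; 2 - 2 * r3, 3], !![-2, 3 + 2 * r3; 3 - 2 * r3, 2]]

lemma hexR_sq (i : Fin 6) : hexR i * hexR i = 1 := by
  have h := r3_sq
  fin_cases i <;> ext k l <;> fin_cases k <;> fin_cases l <;>
    simp [hexR, Matrix.mul_apply, Fin.sum_univ_two] <;> nlinarith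

lemma hexR_anti (i : Fin 6) : hexR i * hexR (i + 1) = -(hexR (i + 1) * hexR i) := by
  have h := r3_sq
  fin_cases i <;> ext k l <;> fin_cases k <;> fin_cases l <;>
    simp [hexR, Matrix.mul_apply, Fin.sum_univ_two] <;> nlinarith

end Pool.Agent.LibHyperelliptic
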