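import Pool.Agent.LibHyperelliptic.Functional

set_option autoImplicit false

noncomputable section

open Matrix Module Polynomial
open scoped MatrixGroups

namespace Pool.Agent.LibHyperelliptic

lemma mem_of_dual {E : Type*} [AddCommGroup E] [Module ℝ E] (V : Submodule ℝ E) (x : E)
    (h : ∀ φ : Module.Dual ℝ E, (∀ v ∈ V, φ v = 0) → φ x = 0) : x ∈ V := by
  rw [← Submodule.Quotient.mk_eq_zero, ← Module.forall_dual_apply_eq_zero_iff ℝ]
  intro ψ
  refine h (ψ.comp V.mkQ) fun v hv => ?_
  rw [LinearMap.comp_apply, Submodule.mkQ_apply, (Submodule.Quotient.mk_eq_zero V).2 hv, map_zero]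

lemma dual_expand {n : ℕ} (φ : Module.Dual ℝ (Mn n)) (X : Mn n) :
    φ X = ∑ i, ∑ j, X i j * φ (Matrix.single i j 1) := by
  conv_lhs => rw [Matrix.matrix_eq_sum_single X]
  rw [map_sum]
  refine Finset.sum_congr rfl fun i _ => ?_
  rw [map_sum]
  refine Finset.sum_congr rfl fun j _ => ?_
  have : Matrix.single i j (X i j) = X i j • Matrix.single i j (1 : ℝ) := by
    rw [Matrix.smul_single, smul_eq_mul, mul_one]
  rw [this, map_smul, smul_eq_mul]

lemma dual_zero_of_infinite {n : ℕ} (φ : Module.Dual ℝ (Mn n)) (A : M2) (S : Set ℝ)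
    (hS : S.Infinite) (h : ∀ t ∈ S, φ (symM n (t • 1 + A)) = 0) (t : ℝ) :
    φ (symM n (t • 1 + A)) = 0 := by
  set q : ℝ[X] := ∑ i, ∑ j, shiftPoly n A i j * C (φ (Matrix.single i j 1)) with hq
  have hev : ∀ s, q.eval s = φ (symM n (s • 1 + A)) := by
    intro s
    rw [dual_expand]
    simp only [hq, eval_finsetSum, eval_mul, eval_C, eval_shiftPoly]
  have hq0 : q = 0 := by
    apply eq_zero_of_infinite_isRoot
    refine hS.mono fun s hs => ?_
    simp only [Set.mem_ofPred_eq, IsRoot.def, hev, h s hs]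
  rw [← hev, hq0, eval_zero]

/-- The algebra generated by the image of a representation. -/
def algOf {n : ℕ} (R : Surf → Mn n) : Subalgebra ℝ (Mn n) := Algebra.adjoin ℝ (Set.range R)

lemma infinite_shift (A : M2) (hdet : A.det = 1)
    (hA : ∀ k : ℕ, k ≠ 0 → ∀ c : ℝ, A ^ k ≠ c • 1) :
    ∃ S : Set ℝ, S.Infinite ∧ ∀ t ∈ S, ∃ (c : ℝ) (k : ℕ), t • (1 : M2) + A = c • A ^ k := by
  choose al be hab using fun k : ℕ => pow_comb A k
  have hbe : ∀ k, k ≠ 0 → be k ≠ 0 := by
    intro k hk hb
    apply hA k hk (al k)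
    rw [hab k, hb, zero_smul, add_zero]
  refine ⟨Set.range fun k : ℕ => al (k + 1) / be (k + 1), ?_, ?_⟩
  · apply Set.infinite_range_of_injective
    intro k l hkl
    by_contra hne
    have hgen : ∀ k l : ℕ, k < l → al (k + 1) / be (k + 1) ≠ al (l + 1) / be (l + 1) := by
      intro k l hlt heq
      have hbk := hbe (k + 1) (by omega)
      have hbl := hbe (l + 1) (by omega)
      have h1 : A ^ (l + 1) = (be (l + 1) / be (k + 1)) • A ^ (k + 1) := by
        rw [hab (l + 1), hab (k + 1), smul_add, smul_smul, smul_smul, div_mul_cancel₀ _ hbk]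
        congr 2
        rw [div_eq_div_iff hbk hbl] at heq
        field_simp
        linarith
      have h2 : A ^ (l + 1) = A ^ (l - k) * A ^ (k + 1) := by
        rw [← pow_add]; congr 1; omega
      have h3 : A ^ (k + 1) * (adjugate A) ^ (k + 1) = 1 := by
        have hc : Commute A (adjugate A) := by
          change A * adjugate A = adjugate A * A
          rw [mul_adj hdet, adj_mul hdet]
        rw [← hc.mul_pow, mul_adj hdet, one_pow]
      have h4 : A ^ (l - k) = (be (l + 1) / be (k + 1)) • 1 := by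
        have h5 := congrArg (fun Y => Y * (adjugate A) ^ (k + 1)) (h2.symm.trans h1)
        simpa only [Matrix.mul_assoc, h3, Matrix.mul_one, Matrix.smul_mul] using h5
      exact hA (l - k) (by omega) _ h4
    rcases lt_or_gt_of_ne hne with h | h
    · exact hgen k l h hkl
    · exact hgen l k h hkl.symm
  · rintro _ ⟨k, rfl⟩
    have hb := hbe (k + 1) (by omega)
    refine ⟨(be (k + 1))⁻¹, k + 1, ?_⟩
    change (al (k + 1) / be (k + 1)) • (1 : M2) + A = _
    rw [hab (k + 1), smul_add, smul_smul, smul_smul, inv_mul_cancel₀ hb, one_smul]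
    congr 2
    rw [div_eq_inv_mul]

section
variable {n : ℕ} (V : Subalgebra ℝ (Mn n))

lemma symM_shift_mem (A : M2) (hdet : A.det = 1)
    (hA : ∀ k : ℕ, k ≠ 0 → ∀ c : ℝ, A ^ k ≠ c • 1) (hV : symM n A ∈ V) (t : ℝ) :
    symM n (t • 1 + A) ∈ V := by
  obtain ⟨S, hS, h⟩ := infinite_shift A hdet hA
  apply mem_of_dual (Subalgebra.toSubmodule V)
  intro φ hφ
  apply dual_zero_of_infinite φ A S hS
  intro s hs
  obtain ⟨c, k, hk⟩ := h s hs
  have h1 : symM n (A ^ k) = symM n A ^ k := by
    have := map_pow (symHom n) A k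
    simpa using this
  rw [hk, symM_smul, map_smul, h1, hφ _ (V.pow_mem hV k), smul_zero]

lemma Dm_mem_of_shift (A : M2) (h : ∀ t : ℝ, symM n (t • 1 + A) ∈ V) : Dm n A ∈ V := by
  have h1 : ∀ ε : ℝ, symM n (1 + ε • A) ∈ V := by
    intro ε
    by_cases hε : ε = 0
    · rw [hε, zero_smul, add_zero, symM_one]; exact V.one_mem
    · have h2 : (1 : M2) + ε • A = ε • (ε⁻¹ • 1 + A) := by
        rw [smul_add, smul_smul, mul_inv_cancel₀ hε, one_smul]
      rw [h2, symM_smul]
      exact V.smul_mem (h _) _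
  apply mem_of_dual (Subalgebra.toSubmodule V)
  intro φ hφ
  have h3 : HasDerivAt (fun ε : ℝ => φ (symM n (1 + ε • A))) (φ (Dm n A)) 0 := by
    have h4 : (fun ε : ℝ => φ (symM n (1 + ε • A))) = fun ε : ℝ =>
        ∑ i, ∑ j, symM n (1 + ε • A) i j * φ (Matrix.single i j 1) := by
      funext ε; rw [dual_expand]
    rw [h4, dual_expand]
    exact HasDerivAt.fun_sum fun i _ => HasDerivAt.fun_sum fun j _ =>
      (hasDerivAt_symM n A i j).mul_const _
  have h5 : (fun ε : ℝ => φ (symM n (1 + ε • A))) = fun _ => 0 := by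
    funext ε; exact hφ _ (h1 ε)
  rw [h5] at h3
  exact h3.unique (hasDerivAt_const (0 : ℝ) (0 : ℝ))

lemma Dm_mem_all (A B : M2) (hA : A.det = 1) (ht : A.trace ≠ 0)
    (hc : (A * B - B * A).det ≠ 0) (hsA : symM n A ∈ V) (hsA' : symM n (adjugate A) ∈ V)
    (hDA : Dm n A ∈ V) (hDB : Dm n B ∈ V) (N : M2) : Dm n N ∈ V := by
  have hD1 : Dm n 1 ∈ V := by rw [Dm_one]; exact V.smul_mem V.one_mem _
  set N' : M2 := A.trace • (A * B) - B - (A * B).trace • A + B.trace • 1 with hN'
  have hint : symM n A * Dm n B = Dm n N' * symM n A := symM_mul_Dm A B N' (conj_formula A B hA)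
  have hDN'mem : Dm n N' ∈ V := by
    have : Dm n N' = symM n A * Dm n B * symM n (adjugate A) := by
      rw [hint, Matrix.mul_assoc, symM_mul_adjugate n A hA, Matrix.mul_one]
    rw [this]
    exact V.mul_mem (V.mul_mem hsA hDB) hsA'
  have hDN' : Dm n N' = A.trace • Dm n (A * B) - Dm n B - (A * B).trace • Dm n A +
      B.trace • Dm n 1 := by
    have : N' = A.trace • (A * B) + (-1 : ℝ) • B + (-(A * B).trace) • A + B.trace • 1 := by
      rw [hN', neg_smul, neg_smul, one_smul]; abel
    rw [this, Dm_add, Dm_add, Dm_add, Dm_smul, Dm_smul, Dm_smul, Dm_smul, neg_smul, neg_smul,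
      one_smul]
    abel
  have hDAB : Dm n (A * B) ∈ V := by
    have e3 : Dm n (A * B) = (A.trace)⁻¹ • (Dm n N' + Dm n B + (A * B).trace • Dm n A -
        B.trace • Dm n 1) := by
      rw [hDN', eq_inv_smul_iff₀ ht]; abel
    rw [e3]
    exact V.smul_mem (V.sub_mem (V.add_mem (V.add_mem hDN'mem hDB) (V.smul_mem hDA _))
      (V.smul_mem hD1 _)) _
  obtain ⟨a, b, c, d, rfl⟩ := span_four A B hc N
  simp only [Dm_add, Dm_smul]
  exact V.add_mem (V.add_mem (V.add_mem (V.smul_mem hD1 _) (V.smul_mem hDA _))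
    (V.smul_mem hDB _)) (V.smul_mem hDAB _)

/-- A subalgebra containing the image of the Lie algebra is everything. -/
lemma eq_top_of_Dm (h : ∀ N : M2, Dm n N ∈ V) : V = ⊤ := by
  rw [eq_top_iff]
  -- a matrix of `V` all of whose entries are positive
  set T : Mn n := 1 + Dm n !![0, 1; 1, 0] with hT
  have hTV : T ∈ V := V.add_mem V.one_mem (h _)
  have hTe : ∀ a b : Fin n, T a b = (if a = b then 1 else 0) +
      (if (a : ℕ) + 1 = b then ((b : ℕ) : ℝ) else 0) +
      (if (a : ℕ) = b + 1 then ((n - 1 - (b : ℕ) : ℕ) : ℝ) else 0) := by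
    intro a b
    rw [hT, Matrix.add_apply, Matrix.one_apply]
    simp only [Dm, Matrix.of_apply, Matrix.cons_val', Matrix.cons_val_zero,
        Matrix.cons_val_one, Matrix.cons_val_fin_one, mul_zero, add_zero, ite_self, zero_add,
        mul_one]
    ring
  have hT0 : ∀ a b, 0 ≤ T a b := by
    intro a b
    rw [hTe]
    split_ifs <;> positivity
  have hT1 : ∀ a b : Fin n, (a : ℕ) ≤ b + 1 → (b : ℕ) ≤ a + 1 → 0 < T a b := by
    intro a b h1 h2
    rw [hTe]
    have ha := a.2
    rcases Nat.lt_trichotomy (a : ℕ) b with h3 | h3 | h3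
    · have h4 : (a : ℕ) + 1 = b := by omega
      have h5 : ¬ a = b := fun h => by rw [h] at h3; exact lt_irrefl _ h3
      have h6 : ¬ (a : ℕ) = b + 1 := by omega
      have h7 : 0 < (b : ℕ) := by omega
      rw [if_neg h5, if_pos h4, if_neg h6]
      have : (0 : ℝ) < ((b : ℕ) : ℝ) := by exact_mod_cast h7
      linarith
    · have h4 : a = b := Fin.ext h3
      have h5 : ¬ (a : ℕ) + 1 = b := by omega
      have h6 : ¬ (a : ℕ) = b + 1 := by omega
      rw [if_pos h4, if_neg h5, if_neg h6]; norm_num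
    · have h4 : (a : ℕ) = b + 1 := by omega
      have h5 : ¬ a = b := fun h => by rw [h] at h3; exact lt_irrefl _ h3
      have h6 : ¬ (a : ℕ) + 1 = b := by omega
      have h7 : 0 < n - 1 - (b : ℕ) := by omega
      rw [if_neg h5, if_neg h6, if_pos h4]
      have : (0 : ℝ) < ((n - 1 - (b : ℕ) : ℕ) : ℝ) := by exact_mod_cast h7
      linarith
  have hpow : ∀ m : ℕ, (∀ a b, 0 ≤ (T ^ m) a b) ∧
      ∀ a b : Fin n, (a : ℕ) ≤ b + m → (b : ℕ) ≤ a + m → 0 < (T ^ m) a b := by
    intro m
    induction m with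
    | zero =>
      refine ⟨fun a b => ?_, fun a b h1 h2 => ?_⟩
      · rw [pow_zero, Matrix.one_apply]; split_ifs <;> norm_num
      · have : a = b := Fin.ext (by omega)
        rw [this, pow_zero, Matrix.one_apply_eq]; norm_num
    | succ m ih =>
      refine ⟨fun a b => ?_, fun a b h1 h2 => ?_⟩
      · rw [pow_succ, Matrix.mul_apply]
        exact Finset.sum_nonneg fun k _ => mul_nonneg (ih.1 _ _) (hT0 _ _)
      · rw [pow_succ, Matrix.mul_apply]
        have ha := a.2
        have hb := b.2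
        obtain ⟨c, hc1, hc2, hc3, hc4⟩ : ∃ c : Fin n, (a : ℕ) ≤ c + m ∧ (c : ℕ) ≤ a + m ∧
            (c : ℕ) ≤ b + 1 ∧ (b : ℕ) ≤ c + 1 := by
          rcases Nat.lt_trichotomy (a : ℕ) b with h3 | h3 | h3
          · exact ⟨⟨b - 1, by omega⟩, by simp; omega, by simp; omega, by simp; omega,
              by simp; omega⟩
          · exact ⟨b, by omega, by omega, by omega, by omega⟩
          · exact ⟨⟨b + 1, by omega⟩, by simp; omega, by simp; omega, by simp,
              by simp; omega⟩
        refine lt_of_lt_of_le (mul_pos (ih.2 a c hc1 hc2) (hT1 c b hc3 hc4)) ?_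
        exact Finset.single_le_sum (f := fun k => (T ^ m) a k * T k b)
          (fun k _ => mul_nonneg (ih.1 _ _) (hT0 _ _)) (Finset.mem_univ c)
  set Z : Mn n := T ^ n with hZ
  have hZV : Z ∈ V := V.pow_mem hTV n
  have hZpos : ∀ a b, 0 < Z a b := fun a b => (hpow n).2 a b (by omega) (by omega)
  -- the diagonal idempotents
  set δ : Mn n := Matrix.diagonal fun k : Fin n => ((k : ℕ) : ℝ) with hδ
  have hδV : δ ∈ V := by
    have hD : Dm n !![1, 0; 0, 0] = δ := by
      ext a b
      simp only [hδ, Dm, Matrix.of_apply, Matrix.diagonal_apply, Matrix.cons_val',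
        Matrix.cons_val_zero, Matrix.cons_val_one, Matrix.cons_val_fin_one]
      by_cases hab : a = b
      · subst hab; simp
      · simp [hab]
    rw [← hD]; exact h _
  have hidem : ∀ i : Fin n, Matrix.single i i (1 : ℝ) ∈ V := by
    intro i
    set p : ℝ[X] := Lagrange.basis Finset.univ (fun k : Fin n => ((k : ℕ) : ℝ)) i with hp
    have hae : aeval δ p = Matrix.diagonal fun k : Fin n => p.eval ((k : ℕ) : ℝ) := by
      have h1 : ∀ q : ℝ[X], aeval δ q = Matrix.diagonal fun k : Fin n => q.eval ((k : ℕ) : ℝ) := by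
        intro q
        induction q using Polynomial.induction_on' with
        | add p q hp hq =>
          rw [map_add, hp, hq, Matrix.diagonal_add]; simp
        | monomial m a =>
          rw [aeval_monomial, hδ, Matrix.diagonal_pow, Matrix.algebraMap_eq_diagonal,
            Matrix.diagonal_mul_diagonal]
          simp
      exact h1 p
    have hinj : Set.InjOn (fun k : Fin n => ((k : ℕ) : ℝ)) (Finset.univ : Finset (Fin n)) := by
      intro a _ b _ hab
      have : ((a : ℕ) : ℝ) = ((b : ℕ) : ℝ) := hab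
      exact Fin.ext (by exact_mod_cast this)
    have h2 : aeval δ p = Matrix.single i i (1 : ℝ) := by
      rw [hae]
      ext a b
      rw [Matrix.diagonal_apply, Matrix.single_apply]
      by_cases hab : a = b
      · subst hab
        rw [if_pos rfl]
        by_cases hia : i = a
        · subst hia
          rw [if_pos ⟨rfl, rfl⟩, hp]
          exact Lagrange.eval_basis_self (v := fun k : Fin n => ((k : ℕ) : ℝ)) hinj
            (Finset.mem_univ _)
        · rw [if_neg (fun h => hia h.1), hp]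
          exact Lagrange.eval_basis_of_ne (v := fun k : Fin n => ((k : ℕ) : ℝ)) hia
            (Finset.mem_univ _)
      · rw [if_neg hab, if_neg]
        rintro ⟨h1, h2⟩
        exact hab (h1.symm.trans h2)
    rw [← h2]
    have h3 : Algebra.adjoin ℝ {δ} ≤ V := Algebra.adjoin_le (by
      rintro _ rfl
      exact hδV)
    exact h3 (Polynomial.aeval_mem_adjoin_singleton ℝ δ)
  intro X _
  rw [Matrix.matrix_eq_sum_single X]
  refine V.sum_mem fun i _ => V.sum_mem fun j _ => ?_
  have h1 : Matrix.single i j (X i j) =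
      (X i j * (Z i j)⁻¹) • (Matrix.single i i (1 : ℝ) * Z * Matrix.single j j (1 : ℝ)) := by
    have hz := (hZpos i j).ne'
    rw [Matrix.single_mul_mul_single, one_mul, mul_one, Matrix.smul_single, smul_eq_mul,
      mul_assoc, inv_mul_cancel₀ hz, mul_one]
  rw [h1]
  exact V.smul_mem (V.mul_mem (V.mul_mem (hidem i) hZV) (hidem j)) _

end

/-- The composition with the irreducible representation is absolutely irreducible. -/
theorem adjoin_eq_top {n : ℕ} {ρ₀ : Surf →* SL(2, ℝ)} (hρ : InjPM ρ₀) :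
    Algebra.adjoin ℝ (Set.range fun γ => (symSL n (ρ₀ γ) : Mn n)) = ⊤ := by
  set V := Algebra.adjoin ℝ (Set.range fun γ => (symSL n (ρ₀ γ) : Mn n)) with hV
  have hmem : ∀ γ, symM n (mat (ρ₀ γ)) ∈ V := fun γ => Algebra.subset_adjoin ⟨γ, rfl⟩
  have hord : ∀ x : Surf, (∀ k : ℕ, k ≠ 0 → x ^ k ≠ 1) →
      ∀ k : ℕ, k ≠ 0 → ∀ c : ℝ, (mat (ρ₀ x)) ^ k ≠ c • 1 := by
    intro x hx k hk c hc
    apply hx k hk
    apply hρ _ c
    rw [map_pow, map_pow, hc]
  have ha := hord a₂ a₂_pow_ne
  have hb := hord b₂ b₂_pow_ne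
  have ht : (mat (ρ₀ a₂)).trace ≠ 0 := by
    intro ht
    apply ha 2 (by norm_num) (-1)
    rw [pow_two, cayley2, ht, det_mat]
    simp
  have hadj : symM n (adjugate (mat (ρ₀ a₂))) ∈ V := by
    have := hmem a₂⁻¹
    rwa [map_inv, mat_inv] at this
  apply eq_top_of_Dm
  exact Dm_mem_all V (mat (ρ₀ a₂)) (mat (ρ₀ b₂)) (det_mat _) ht (det_comm_ne₂ hρ) (hmem _) hadj
    (Dm_mem_of_shift V _ (symM_shift_mem V _ (det_mat _) ha (hmem _)))
    (Dm_mem_of_shift V _ (symM_shift_mem V _ (det_mat _) hb (hmem _)))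

end Pool.Agent.LibHyperelliptic
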