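import Pool.Agent.LibHyperelliptic.SurfDefs

set_option autoImplicit false

noncomputable section

namespace Pool.Agent.LibHyperelliptic

/-! ### Spaces of conjugacy classes of representations -/

section
variable {G : Type} [Group G]

/-- Two representations of the surface group are conjugate. -/
def ConjRep (ρ σ : Surf →* G) : Prop := ∃ g : G, ∀ γ, σ γ = g * ρ γ * g⁻¹

lemma conjRep_refl (ρ : Surf →* G) : ConjRep ρ ρ := ⟨1, fun γ => by group⟩

lemma conjRep_symm {ρ σ : Surf →* G} (h : ConjRep ρ σ) : ConjRep σ ρ := by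
  obtain ⟨g, hg⟩ := h
  exact ⟨g⁻¹, fun γ => by rw [hg]; group⟩

lemma conjRep_trans {ρ σ τ : Surf →* G} (h : ConjRep ρ σ) (h' : ConjRep σ τ) :
    ConjRep ρ τ := by
  obtain ⟨g, hg⟩ := h
  obtain ⟨h, hh⟩ := h'
  exact ⟨h * g, fun γ => by rw [hh, hg]; group⟩

/-- Conjugacy, on a set `Ω` of representations. -/
def conjSetoid (Ω : Set (Surf →* G)) : Setoid Ω where
  r ρ σ := ConjRep ρ.1 σ.1
  iseqv := ⟨fun ρ => conjRep_refl ρ.1, fun h => conjRep_symm h, fun h h' => conjRep_trans h h'⟩

/-- The set `Ω / G` of conjugacy classes of the representations in `Ω`. -/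
def OrbitSpace (Ω : Set (Surf →* G)) : Type := Quotient (conjSetoid Ω)

/-- The class of a representation. -/
def OrbitSpace.mk (Ω : Set (Surf →* G)) (ρ : Ω) : OrbitSpace Ω := Quotient.mk (conjSetoid Ω) ρ

/-- The topology of pointwise convergence on a set of representations. -/
abbrev repTopology [TopologicalSpace G] (Ω : Set (Surf →* G)) : TopologicalSpace Ω :=
  TopologicalSpace.induced (fun (ρ : Ω) (γ : Surf) => ρ.1 γ) inferInstance

/-- The quotient topology on `Ω / G`. -/
instance [TopologicalSpace G] (Ω : Set (Surf →* G)) : TopologicalSpace (OrbitSpace Ω) :=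
  TopologicalSpace.coinduced (OrbitSpace.mk Ω) (repTopology Ω)

end

end Pool.Agent.LibHyperelliptic
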