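import Pool.Agent.LibHyperelliptic.Functional
import Pool.Agent.LibHyperelliptic.AdLemmas
import Pool.Agent.LibHyperelliptic.OrbitSpace

set_option autoImplicit false

noncomputable section

open Matrix
open scoped MatrixGroups

namespace Pool.Agent.LibHyperelliptic

/-! ### The group `PSL(n, ℝ)` and its adjoint action -/

/-- The topological group `PSL(n, ℝ)`. -/
def PSLn (n : ℕ) : Type := PSL(n, ℝ)

instance (n : ℕ) : Group (PSLn n) := QuotientGroup.Quotient.group (Subgroup.center SL(n, ℝ))

instance (n : ℕ) : TopologicalSpace (PSLn n) :=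
  QuotientGroup.instTopologicalSpace (Subgroup.center SL(n, ℝ))

/-- The projection `SL(n, ℝ) → PSL(n, ℝ)`. -/
def toPSL (n : ℕ) : SL(n, ℝ) →* PSLn n := QuotientGroup.mk' (Subgroup.center SL(n, ℝ))

/-- The adjoint action of an element of `PSL(n, ℝ)`: for the class of `M` it is the map
`X ↦ M X M⁻¹`. -/
def Ad {n : ℕ} (p : PSLn n) : EndMat n := Quotient.lift adSL adSL_wd p

/-- Representations of the surface group into `PSL(n, ℝ)`. -/
abbrev PSLRep (n : ℕ) : Type := Surf →* PSLn n

/-- The adjoint action of the surface group through `ρ`. -/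
def adRep {n : ℕ} (ρ : PSLRep n) (γ : Surf) : EndMat n := Ad (ρ γ)

/-! ### Differentials -/

/-- The function `f` on `PSL(n, ℝ)`, read in the chart `Y ↦ [det(Y)^(-1/n) Y] p` around
`p`. -/
def chart {n : ℕ} (f : PSLn n → ℝ) (p : PSLn n) (Y : Matrix (Fin n) (Fin n) ℝ) : ℝ :=
  f (toPSL n (unimod n Y) * p)

/-- The differentiable conjugation invariant functions on `PSL(n, ℝ)`. -/
structure InvFun (n : ℕ) where
  /-- the function -/
  toFun : PSLn n → ℝ
  /-- it is differentiable at every point -/
  diff : ∀ p, DifferentiableAt ℝ (chart toFun p) 1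
  /-- it is invariant under conjugation -/
  inv : ∀ g h, toFun (g * h * g⁻¹) = toFun h

/-- The derivative of `f` at `p`, as a functional on matrices: on a matrix `X` of trace zero
it is the derivative at `t = 0` of `f (exp (t X) p)`. -/
def derivAt {n : ℕ} (f : InvFun n) (p : PSLn n) : Matrix (Fin n) (Fin n) ℝ →ₗ[ℝ] ℝ :=
  (fderiv ℝ (chart f.toFun p) 1).toLinearMap

lemma derivAt_cobound {n : ℕ} (f : InvFun n) (p : PSLn n) (X : Matrix (Fin n) (Fin n) ℝ) :
    derivAt f p (X - Ad p X) = 0 := by
  obtain ⟨M, rfl⟩ := QuotientGroup.mk'_surjective _ p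
  exact fderiv_cobound_of_cover (toPSL n) f.inv (f.diff (toPSL n M)) X

/-- The cotangent space at the class of `ρ` of the character variety: the dual of the tangent
space `H¹(π₁(S), 𝔰𝔩(n, ℝ)_{Ad ρ})`. -/
abbrev Cotangent {n : ℕ} (ρ : PSLRep n) : Type := Module.Dual ℝ (H1 (adRep ρ))

/-- The differential at the class of `ρ` of the function `f_γ : [ρ] ↦ f (ρ γ)` on the
character variety: it sends the class of the cocycle `u` to the derivative of `f` at `ρ γ`
in the direction of `u γ`. -/
def dT {n : ℕ} (f : InvFun n) (γ : Surf) (ρ : PSLRep n) : Cotangent ρ :=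
  evalH (adRep ρ) γ (derivAt f (ρ γ)) (derivAt_cobound f (ρ γ))

/-- The differentials `d f_γ` at the class of `ρ`, for `f` in `F` and `γ` a simple closed
curve. -/
def differentials {n : ℕ} (F : Set (InvFun n)) (ρ : PSLRep n) : Set (Cotangent ρ) :=
  {φ | ∃ f ∈ F, ∃ γ, IsSimple γ ∧ φ = dT f γ ρ}

/-- The differentials span the cotangent space at the class of `ρ`. -/
def SpansAt {n : ℕ} (F : Set (InvFun n)) (ρ : PSLRep n) : Prop :=
  Submodule.span ℝ (differentials F ρ) = ⊤

/-- The `PSL(n, ℝ)`-character variety `Hom(π₁(S), PSL(n, ℝ)) / PSL(n, ℝ)`. -/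
abbrev CharVar (n : ℕ) : Type := OrbitSpace (Set.univ : Set (PSLRep n))

/-- The class of a representation in the character variety. -/
def CharVar.mk {n : ℕ} (ρ : PSLRep n) : CharVar n := OrbitSpace.mk Set.univ ⟨ρ, trivial⟩

/-- The collection `F` is spanning on the subset `X` of the character variety. -/
def SpanningOn {n : ℕ} (F : Set (InvFun n)) (X : Set (CharVar n)) : Prop :=
  ∀ ρ : PSLRep n, CharVar.mk ρ ∈ X → SpansAt F ρ

/-! ### Fuchsian representations and the Hitchin component -/

/-- Representations of the surface group into `SL(n, ℝ)`. -/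
abbrev SLRep (n : ℕ) : Type := Surf →* SL(n, ℝ)

/-- The representation into `PSL(2, ℝ)` induced by `ρ₀`. -/
def proj (ρ₀ : SLRep 2) : PSLRep 2 := (toPSL 2).comp ρ₀

/-- The representation `ρ₀` into `SL(2, ℝ)` induces a discrete and faithful representation
into `PSL(2, ℝ)`. -/
def IsFuchsian (ρ₀ : SLRep 2) : Prop :=
  Function.Injective (proj ρ₀) ∧ DiscreteTopology (Set.range (proj ρ₀))

/-- The composition of `ρ₀` with the irreducible representation into `PSL(n, ℝ)`. -/
def irr (n : ℕ) (ρ₀ : SLRep 2) : PSLRep n := (toPSL n).comp ((symSL n).comp ρ₀)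

/-- The Hitchin component: the connected component of the class of `irr n ρ₀`. -/
def Hit (n : ℕ) (ρ₀ : SLRep 2) : Set (CharVar n) := connectedComponent (CharVar.mk (irr n ρ₀))

end Pool.Agent.LibHyperelliptic
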