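import Pool.Agent.LibHyperelliptic.SLDefs
import Pool.Agent.LibHyperelliptic.CohomologyLemmas
import Pool.Agent.LibHyperelliptic.Irreducible

set_option autoImplicit false

noncomputable section

open Matrix
open scoped MatrixGroups

namespace Pool.Agent.LibHyperelliptic.SLn

/-- **Main theorem, for `SL(n, ℝ)`.** -/
theorem not_spansAt {n : ℕ} (hn : 4 ≤ n) {ρ₀ : Surf →* SL(2, ℝ)} (hρ : InjPM ρ₀)
    (F : Set (InvFun n)) : ¬ SpansAt F ((symSL n).comp ρ₀) := by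
  obtain ⟨D, u, hskew, hcoc, hanti, hint, hne⟩ := exists_cocycle hn ρ₀ hρ
  set ρ : Surf →* SL(n, ℝ) := (symSL n).comp ρ₀ with hρdef
  have hAd : ∀ γ (X : Mn n), adRep ρ γ X =
      adL n (Matrix.SpecialLinearGroup.toGL (ρ₀ γ)) X := by
    intro γ X
    change adSL (symSL n (ρ₀ γ)) X = _
    rw [adSL_apply, symSL_inv_val, symSL_val]
    rfl
  have hu : IsCocycle (adRep ρ) u := by
    refine ⟨fun γ => ?_, fun γ η => by rw [hAd]; exact hcoc γ η⟩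
    have h1 := hskew γ
    rw [mem_skew] at h1
    have h2 := trace_starE_eq n (u γ)
    rw [h1, Matrix.trace_neg] at h2
    linarith
  have hnB : ¬ IsCobound (adRep ρ) u := by
    rintro ⟨X, -, hX⟩
    exact hne ⟨X, fun γ => by rw [← hAd]; exact hX γ⟩
  refine span_ne_top _ (⟨u, hu⟩ : Z1 (adRep ρ)) hnB _ ?_
  rintro φ ⟨f, -, γ, hγ, rfl⟩
  change fderiv ℝ (sChart f.toFun (symSL n (ρ₀ γ))) 1 (u γ) = 0
  have hd : DifferentiableAt ℝ (sChart f.toFun (symSL n (ρ₀ γ))) 1 := f.diff _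
  obtain ⟨E, hE, hEc⟩ := gradient_comm f.inv (ρ₀ γ) hd
  rw [hE]
  exact main_zero hρ hskew hcoc hanti hint γ hγ E hEc

lemma comp_mem_absIrr (n : ℕ) {ρ₀ : Surf →* SL(2, ℝ)} (hρ : InjPM ρ₀) :
    (symSL n).comp ρ₀ ∈ AbsIrr n :=
  adjoin_eq_top hρ

theorem not_spanningOn {n : ℕ} (hn : 4 ≤ n) {ρ₀ : Surf →* SL(2, ℝ)} (hρ : InjPM ρ₀)
    {Ω : Set (Rep n)} (hΩ : (symSL n).comp ρ₀ ∈ Ω) (F : Set (InvFun n)) :
    ¬ SpanningOn F (component (⟨(symSL n).comp ρ₀, hΩ⟩ : Ω)) :=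
  fun hs => not_spansAt hn hρ F (hs ⟨(symSL n).comp ρ₀, hΩ⟩ mem_connectedComponent)

end Pool.Agent.LibHyperelliptic.SLn
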