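import Pool.Agent.LibHyperelliptic.Functional
import Pool.Agent.LibHyperelliptic.AdLemmas
import Pool.Agent.LibHyperelliptic.OrbitSpace

set_option autoImplicit false

noncomputable section

open Matrix
open scoped MatrixGroups

namespace Pool.Agent.LibHyperelliptic.SLn

/-- Representations of the surface group into `SL(n, ℝ)`. -/
abbrev Rep (n : ℕ) : Type := Surf →* SL(n, ℝ)

/-- The absolutely irreducible representations: those whose image generates the algebra of
all matrices. They form a Zariski open set, on which `SL(n, ℝ)` acts properly and with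
stabilizer the centre, and whose quotient is a smooth manifold. -/
def AbsIrr (n : ℕ) : Set (Rep n) := {ρ | Algebra.adjoin ℝ (Set.range fun γ => (ρ γ).1) = ⊤}

/-- The adjoint action of the surface group through `ρ`. -/
def adRep {n : ℕ} (ρ : Rep n) (γ : Surf) : EndMat n := adSL (ρ γ)

/-! ### Differentials -/

/-- The function `f` on `SL(n, ℝ)`, read in the chart `Y ↦ det(Y)^(-1/n) Y M` around `M`. -/
def chart {n : ℕ} (f : SL(n, ℝ) → ℝ) (M : SL(n, ℝ)) (Y : Matrix (Fin n) (Fin n) ℝ) : ℝ :=
  f (unimod n Y * M)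

/-- The differentiable conjugation invariant functions on `SL(n, ℝ)`. -/
structure InvFun (n : ℕ) where
  /-- the function -/
  toFun : SL(n, ℝ) → ℝ
  /-- it is differentiable at every point -/
  diff : ∀ M, DifferentiableAt ℝ (chart toFun M) 1
  /-- it is invariant under conjugation -/
  inv : ∀ g h, toFun (g * h * g⁻¹) = toFun h

/-- The derivative of `f` at `M`, as a functional on matrices: on a matrix `X` of trace zero
it is the derivative at `t = 0` of `f (exp (t X) M)`. -/
def derivAt {n : ℕ} (f : InvFun n) (M : SL(n, ℝ)) : Matrix (Fin n) (Fin n) ℝ →ₗ[ℝ] ℝ :=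
  (fderiv ℝ (chart f.toFun M) 1).toLinearMap

lemma derivAt_cobound {n : ℕ} (f : InvFun n) (M : SL(n, ℝ)) (X : Matrix (Fin n) (Fin n) ℝ) :
    derivAt f M (X - adSL M X) = 0 :=
  fderiv_cobound f.inv (f.diff M) X

/-- The cotangent space at the class of `ρ` of the character variety: the dual of the tangent
space `H¹(π₁(S), 𝔰𝔩(n, ℝ)_{Ad ρ})`. -/
abbrev Cotangent {n : ℕ} (ρ : Rep n) : Type := Module.Dual ℝ (H1 (adRep ρ))

/-- The differential at the class of `ρ` of the function `f_γ : [ρ] ↦ f (ρ γ)` on the
character variety: it sends the class of the cocycle `u` to the derivative of `f` at `ρ γ`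
in the direction of `u γ`. -/
def dT {n : ℕ} (f : InvFun n) (γ : Surf) (ρ : Rep n) : Cotangent ρ :=
  evalH (adRep ρ) γ (derivAt f (ρ γ)) (derivAt_cobound f (ρ γ))

/-- The differentials `d f_γ` at the class of `ρ`, for `f` in `F` and `γ` a simple closed
curve. -/
def differentials {n : ℕ} (F : Set (InvFun n)) (ρ : Rep n) : Set (Cotangent ρ) :=
  {φ | ∃ f ∈ F, ∃ γ, IsSimple γ ∧ φ = dT f γ ρ}

/-- The differentials span the cotangent space at the class of `ρ`. -/
def SpansAt {n : ℕ} (F : Set (InvFun n)) (ρ : Rep n) : Prop :=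
  Submodule.span ℝ (differentials F ρ) = ⊤

/-- The collection `F` is spanning on the subset `X` of `Ω / SL(n, ℝ)`. -/
def SpanningOn {n : ℕ} (F : Set (InvFun n)) {Ω : Set (Rep n)} (X : Set (OrbitSpace Ω)) : Prop :=
  ∀ ρ : Ω, OrbitSpace.mk Ω ρ ∈ X → SpansAt F ρ.1

/-- The connected component of the class of `ρ` in `Ω / SL(n, ℝ)`. -/
def component {n : ℕ} {Ω : Set (Rep n)} (ρ : Ω) : Set (OrbitSpace Ω) :=
  connectedComponent (OrbitSpace.mk Ω ρ)

end Pool.Agent.LibHyperelliptic.SLn
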