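import Mathlib

set_option autoImplicit false

noncomputable section

namespace Pool.Agent.LibHyperelliptic

/-! ### The fundamental group of the closed orientable surface of genus two -/

/-- The relator `[a₁, b₁][a₂, b₂]`; the letters `0, 1, 2, 3` are `a₁, b₁, a₂, b₂`. -/
def relator : FreeGroup (Fin 4) :=
  FreeGroup.of 0 * FreeGroup.of 1 * (FreeGroup.of 0)⁻¹ * (FreeGroup.of 1)⁻¹ *
    (FreeGroup.of 2 * FreeGroup.of 3 * (FreeGroup.of 2)⁻¹ * (FreeGroup.of 3)⁻¹)

/-- The fundamental group of the closed orientable surface of genus two. -/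
def Surf : Type := PresentedGroup ({relator} : Set (FreeGroup (Fin 4)))

instance : Group Surf := instGroupPresentedGroup (rels := {relator})

/-- The generators of the surface group. -/
def gen (i : Fin 4) : Surf := PresentedGroup.of i

/-- The generator `a₁`. -/
def a₁ : Surf := gen 0
/-- The generator `b₁`. -/
def b₁ : Surf := gen 1
/-- The generator `a₂`. -/
def a₂ : Surf := gen 2
/-- The generator `b₂`. -/
def b₂ : Surf := gen 3

/-- The automorphism `φ` sends the generators `a₁, b₁, a₂, b₂` to `x, y, z, w`. -/
def Sends (φ : MulAut Surf) (x y z w : Surf) : Prop :=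
  φ a₁ = x ∧ φ b₁ = y ∧ φ a₂ = z ∧ φ b₂ = w

/-- The five Dehn twist automorphisms of the surface group. They are the twists (all of the
same handedness) along a chain of five simple closed curves, freely homotopic to
`a₁, b₁, a₁⁻¹ b₂, a₂, b₂`; the first one sends `b₁` to `b₁ a₁⁻¹` and fixes the other
generators. They satisfy the braid relations and generate the mapping class group of the
closed surface of genus two. -/
def IsTwist (φ : MulAut Surf) : Prop :=
  Sends φ a₁ (b₁ * a₁⁻¹) a₂ b₂ ∨ Sends φ (a₁ * b₁) b₁ a₂ b₂ ∨
  Sends φ a₁ (a₁⁻¹ * b₂ * b₁) (a₁⁻¹ * b₂ * a₂) b₂ ∨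
  Sends φ a₁ b₁ a₂ (b₂ * a₂⁻¹) ∨ Sends φ a₁ b₁ (a₂ * b₂) b₂

/-- The group of automorphisms of the surface group generated by the inner automorphisms and
the five Dehn twists, that is the group of automorphisms induced by orientation preserving
homeomorphisms of the surface. -/
def mcg : Subgroup (MulAut Surf) :=
  Subgroup.closure (Set.range (MulAut.conj (G := Surf)) ∪ {φ | IsTwist φ})

/-- The elements represented by simple closed curves: the images, under the mapping class
group, of the trivial element, of the nonseparating curve `a₁` and of the separating curve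
`[a₁, b₁]`. -/
def IsSimple (γ : Surf) : Prop :=
  ∃ φ ∈ mcg, γ = φ 1 ∨ γ = φ a₁ ∨ γ = φ (a₁ * b₁ * a₁⁻¹ * b₁⁻¹)

end Pool.Agent.LibHyperelliptic
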