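import Mathlib

set_option autoImplicit false

noncomputable section

open Matrix Polynomial

namespace Pool.Agent.LibHyperelliptic

/-- The `n × n` matrix of the action of the `2 × 2` matrix `g` on binary forms of degree
`n - 1`, in the basis `X ^ j * Y ^ (n - 1 - j)`: the form `p` is sent to
`p ((X, Y) g)`. -/
def symM (n : ℕ) (g : Matrix (Fin 2) (Fin 2) ℝ) : Matrix (Fin n) (Fin n) ℝ :=
  Matrix.of fun i j =>
    ((C (g 0 0) * X + C (g 1 0)) ^ (j : ℕ) *
      (C (g 0 1) * X + C (g 1 1)) ^ (n - 1 - (j : ℕ)) : ℝ[X]).coeff (i : ℕ)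

end Pool.Agent.LibHyperelliptic
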