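import Pool.Agent.LibHyperelliptic.Handle

set_option autoImplicit false

noncomputable section

open Matrix Module
open scoped MatrixGroups Topology

namespace Pool.Agent.LibHyperelliptic

/-! ### The determinant of the irreducible representation -/

lemma det_symM_of_det_one (n : ℕ) (g : SL(2, ℝ)) : (symM n (mat g)).det = 1 := by
  set δ : SL(2, ℝ) →* ℝˣ := MonoidHom.toHomUnits
    ((Matrix.detMonoidHom (n := Fin n) (R := ℝ)).comp ((symHom n).comp mat)) with hδ
  have hδapp : ∀ x, ((δ x : ℝˣ) : ℝ) = (symM n (mat x)).det := fun x => rfl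
  have hcomm : commutator SL(2, ℝ) ≤ δ.ker := by
    rw [commutator_def, Subgroup.commutator_le]
    intro a _ b _
    rw [MonoidHom.mem_ker, commutatorElement_def, map_mul, map_mul, map_mul, map_inv, map_inv]
    rw [mul_comm (δ a) (δ b), mul_inv_cancel_right, mul_inv_cancel]
  have htop : commutator SL(2, ℝ) = ⊤ :=
    SL2.commutator_eq_top (a := (2 : ℝ)) (by norm_num) (by norm_num)
  have hg : g ∈ δ.ker := hcomm (by rw [htop]; exact Subgroup.mem_top g)
  rw [← hδapp, MonoidHom.mem_ker.1 hg]; rfl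

lemma det_symM_pos (n : ℕ) {g : M2} (hg : 0 < g.det) : 0 < (symM n g).det := by
  set r : ℝ := Real.sqrt g.det with hr
  have hr0 : 0 < r := Real.sqrt_pos.2 hg
  have hr2 : r ^ 2 = g.det := Real.sq_sqrt hg.le
  have hdet : (r⁻¹ • g).det = 1 := by
    rw [Matrix.det_smul, Fintype.card_fin, ← hr2]
    field_simp
  obtain ⟨k, hk⟩ : ∃ k : SL(2, ℝ), mat k = r⁻¹ • g := ⟨⟨r⁻¹ • g, hdet⟩, rfl⟩
  have h1 : g = r • mat k := by
    rw [hk, smul_smul, mul_inv_cancel₀ hr0.ne', one_smul]
  rw [h1, symM_smul, Matrix.det_smul, det_symM_of_det_one, mul_one]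
  positivity

lemma det_symM_SL (n : ℕ) (g : SL(2, ℝ)) : (symM n g.1).det = 1 := det_symM_of_det_one n g

lemma symM_mul_SL (n : ℕ) (g h : SL(2, ℝ)) : symM n (g * h).1 = symM n g.1 * symM n h.1 :=
  symM_mul n g.1 h.1

lemma symM_one_SL (n : ℕ) : symM n (1 : SL(2, ℝ)).1 = 1 := symM_one n

end Pool.Agent.LibHyperelliptic
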