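import Pool.Agent.LibHyperelliptic.SymDef

set_option autoImplicit false

noncomputable section

open Matrix Polynomial

namespace Pool.Agent.LibHyperelliptic

/-- The row vector of monomials of degree `n - 1` in `z`. -/
def Ev (n : ℕ) (z : Fin 2 → ℝ) : Fin n → ℝ := fun j => z 0 ^ (j : ℕ) * z 1 ^ (n - 1 - (j : ℕ))

lemma fin_le_pred {n : ℕ} (j : Fin n) : (j : ℕ) + (n - 1 - (j : ℕ)) = n - 1 := by omega

lemma continuous_Ev {n : ℕ} (j : Fin n) : Continuous fun z : Fin 2 → ℝ => Ev n z j := by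
  unfold Ev; fun_prop

lemma natDegree_col {n : ℕ} (g : Matrix (Fin 2) (Fin 2) ℝ) (j : Fin n) :
    ((C (g 0 0) * X + C (g 1 0)) ^ (j : ℕ) *
      (C (g 0 1) * X + C (g 1 1)) ^ (n - 1 - (j : ℕ)) : ℝ[X]).natDegree ≤ n - 1 := by
  refine natDegree_mul_le.trans ?_
  have h1 : ((C (g 0 0) * X + C (g 1 0)) ^ (j : ℕ) : ℝ[X]).natDegree ≤ (j : ℕ) * 1 :=
    natDegree_pow_le_of_le _ (natDegree_linear_le)
  have h2 : ((C (g 0 1) * X + C (g 1 1)) ^ (n - 1 - (j : ℕ)) : ℝ[X]).natDegree ≤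
      (n - 1 - (j : ℕ)) * 1 :=
    natDegree_pow_le_of_le _ (natDegree_linear_le)
  have := fin_le_pred j
  omega

lemma Ev_vecMul_symM_aux {n : ℕ} (g : Matrix (Fin 2) (Fin 2) ℝ) (z : Fin 2 → ℝ) (hz : z 1 ≠ 0)
    (j : Fin n) : (Ev n z ᵥ* symM n g) j = Ev n (z ᵥ* g) j := by
  have hn : 0 < n := j.pos
  have key : ∑ i : Fin n, (z 0 / z 1) ^ (i : ℕ) * symM n g i j
      = (g 0 0 * (z 0 / z 1) + g 1 0) ^ (j : ℕ) *
        (g 0 1 * (z 0 / z 1) + g 1 1) ^ (n - 1 - (j : ℕ)) := by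
    have h := natDegree_col g j
    set Q : ℝ[X] := ((C (g 0 0) * X + C (g 1 0)) ^ (j : ℕ) *
      (C (g 0 1) * X + C (g 1 1)) ^ (n - 1 - (j : ℕ)) : ℝ[X]) with hQ
    have h2 : Q.eval (z 0 / z 1) = ∑ i ∈ Finset.range n, Q.coeff i * (z 0 / z 1) ^ i :=
      eval_eq_sum_range' (by omega) _
    have h3 : Q.eval (z 0 / z 1) = (g 0 0 * (z 0 / z 1) + g 1 0) ^ (j : ℕ) *
        (g 0 1 * (z 0 / z 1) + g 1 1) ^ (n - 1 - (j : ℕ)) := by
      simp [hQ]
    rw [← h3, h2, Finset.sum_range]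
    refine Finset.sum_congr rfl fun i _ => ?_
    simp only [symM, Matrix.of_apply]
    rw [← hQ, mul_comm]
  have h4 : (Ev n z ᵥ* symM n g) j
      = z 1 ^ (n - 1) * ∑ i : Fin n, (z 0 / z 1) ^ (i : ℕ) * symM n g i j := by
    simp only [vecMul, dotProduct, Finset.mul_sum]
    refine Finset.sum_congr rfl fun i _ => ?_
    rw [← mul_assoc]
    congr 1
    simp only [Ev]
    have h5 := fin_le_pred i
    rw [div_pow]
    have h6 : z 1 ^ (n - 1) = z 1 ^ (i : ℕ) * z 1 ^ (n - 1 - (i : ℕ)) := by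
      rw [← pow_add, h5]
    rw [h6]
    field_simp
  rw [h4, key]
  simp only [Ev, vecMul, dotProduct, Fin.sum_univ_two]
  have h7 : z 1 ^ (n - 1) = z 1 ^ (j : ℕ) * z 1 ^ (n - 1 - (j : ℕ)) := by
    rw [← pow_add, fin_le_pred j]
  rw [h7]
  have h8 : z 0 * g 0 0 + z 1 * g 1 0 = z 1 * (g 0 0 * (z 0 / z 1) + g 1 0) := by
    field_simp
  have h9 : z 0 * g 0 1 + z 1 * g 1 1 = z 1 * (g 0 1 * (z 0 / z 1) + g 1 1) := by
    field_simp
  rw [h8, h9, mul_pow, mul_pow]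
  ring

/-- The defining property of `symM`. -/
lemma Ev_vecMul_symM {n : ℕ} (g : Matrix (Fin 2) (Fin 2) ℝ) (z : Fin 2 → ℝ) :
    Ev n z ᵥ* symM n g = Ev n (z ᵥ* g) := by
  ext j
  have hc1 : Continuous fun t : ℝ => (Ev n ![z 0, t] ᵥ* symM n g) j := by
    simp only [vecMul, dotProduct, Ev]
    fun_prop
  have hc2 : Continuous fun t : ℝ => Ev n (![z 0, t] ᵥ* g) j := by
    simp only [vecMul, dotProduct, Ev, Fin.sum_univ_two]
    simp only [Matrix.cons_val_zero, Matrix.cons_val_one]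
    fun_prop
  have heq : Set.EqOn (fun t : ℝ => (Ev n ![z 0, t] ᵥ* symM n g) j)
      (fun t : ℝ => Ev n (![z 0, t] ᵥ* g) j) ({0}ᶜ) := by
    intro t ht
    exact Ev_vecMul_symM_aux g _ (by simpa using ht) j
  have hall := Continuous.ext_on (dense_compl_singleton (0 : ℝ)) hc1 hc2 heq
  have h1 := congrFun hall (z 1)
  have hz : ![z 0, z 1] = z := by ext i; fin_cases i <;> rfl
  simpa [hz] using h1

/-- Uniqueness: a matrix is determined by its left products with the vectors `Ev`. -/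
lemma ext_Ev {n k : ℕ} {A B : Matrix (Fin n) (Fin k) ℝ}
    (h : ∀ z : Fin 2 → ℝ, Ev n z ᵥ* A = Ev n z ᵥ* B) : A = B := by
  set v : Fin n → ℝ := fun i => (i : ℝ) with hv
  have hinj : Function.Injective v := by
    intro i j hij
    have : ((i : ℕ) : ℝ) = ((j : ℕ) : ℝ) := hij
    exact Fin.ext (by exact_mod_cast this)
  have hdet : (vandermonde v).det ≠ 0 := det_vandermonde_ne_zero_iff.2 hinj
  have hrow : ∀ i, (vandermonde v) i = Ev n ![v i, 1] := by
    intro i; ext j; simp [vandermonde, Ev]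
  have hmul : vandermonde v * A = vandermonde v * B := by
    ext i j
    have h1 := congrFun (h ![v i, 1]) j
    rw [← hrow] at h1
    simpa [vecMul, Matrix.mul_apply, dotProduct] using h1
  have hu : IsUnit (vandermonde v).det := isUnit_iff_ne_zero.2 hdet
  have := congrArg (fun Y => (vandermonde v)⁻¹ * Y) hmul
  simpa [← Matrix.mul_assoc, Matrix.nonsing_inv_mul _ hu] using this

lemma symM_one (n : ℕ) : symM n 1 = 1 := by
  apply ext_Ev
  intro z
  rw [Ev_vecMul_symM, vecMul_one, vecMul_one]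

lemma symM_mul (n : ℕ) (g h : Matrix (Fin 2) (Fin 2) ℝ) :
    symM n (g * h) = symM n g * symM n h := by
  apply ext_Ev
  intro z
  rw [Ev_vecMul_symM, ← vecMul_vecMul, ← vecMul_vecMul, Ev_vecMul_symM, Ev_vecMul_symM]

/-- `symM` as a monoid homomorphism. -/
def symHom (n : ℕ) : Matrix (Fin 2) (Fin 2) ℝ →* Matrix (Fin n) (Fin n) ℝ where
  toFun := symM n
  map_one' := symM_one n
  map_mul' := symM_mul n

@[simp] lemma symHom_apply (n : ℕ) (g : Matrix (Fin 2) (Fin 2) ℝ) : symHom n g = symM n g := rfl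

lemma symM_smul (n : ℕ) (t : ℝ) (g : Matrix (Fin 2) (Fin 2) ℝ) :
    symM n (t • g) = t ^ (n - 1) • symM n g := by
  apply ext_Ev
  intro z
  rw [Ev_vecMul_symM, vecMul_smul, vecMul_smul, Ev_vecMul_symM]
  ext j
  simp only [Ev, Pi.smul_apply, smul_eq_mul]
  rw [mul_pow, mul_pow, show t ^ (n - 1) = t ^ (j : ℕ) * t ^ (n - 1 - (j : ℕ)) by
    rw [← pow_add, fin_le_pred j]]
  ring

lemma symM_smul_one (n : ℕ) (t : ℝ) :
    symM n (t • (1 : Matrix (Fin 2) (Fin 2) ℝ)) = t ^ (n - 1) • 1 := by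
  rw [symM_smul, symM_one]

/-! ### The invariant form -/

/-- The matrix of the invariant bilinear form on the dual of the space of binary forms. -/
def Pm (n : ℕ) : Matrix (Fin n) (Fin n) ℝ :=
  Matrix.of fun i j => if j = Fin.rev i then (-1) ^ (i : ℕ) * ((n - 1).choose i : ℝ) else 0

/-- Its inverse. -/
def Qm (n : ℕ) : Matrix (Fin n) (Fin n) ℝ :=
  Matrix.of fun i j => if j = Fin.rev i then
    (-1) ^ (Fin.rev i : ℕ) * ((n - 1).choose i : ℝ)⁻¹ else 0

lemma choose_rev {n : ℕ} (i : Fin n) : (n - 1).choose (Fin.rev i) = (n - 1).choose i := by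
  rw [Fin.val_rev]
  have h := fin_le_pred i
  have h2 : n - ((i : ℕ) + 1) = n - 1 - i := by omega
  rw [h2]
  exact Nat.choose_symm (by omega)

lemma choose_ne {n : ℕ} (i : Fin n) : ((n - 1).choose i : ℝ) ≠ 0 := by
  have h := fin_le_pred i
  have : 0 < (n - 1).choose i := Nat.choose_pos (by omega)
  exact_mod_cast this.ne'

lemma Pm_mul_Qm (n : ℕ) : Pm n * Qm n = 1 := by
  ext i k
  simp only [Matrix.mul_apply, Pm, Qm, Matrix.of_apply]
  rw [Finset.sum_eq_single (Fin.rev i)]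
  · simp only [if_true, Fin.rev_rev, Matrix.one_apply]
    by_cases hk : k = i
    · subst hk
      simp only [if_true, choose_rev]
      have := choose_ne k
      have h2 : ((-1 : ℝ) ^ (k : ℕ)) * ((-1) ^ (k : ℕ)) = 1 := by
        rw [← mul_pow]; simp
      field_simp
      linear_combination h2
    · have hk' : ¬ (i = k) := fun h => hk h.symm
      simp [hk, hk']
  · intro j _ hj
    simp [hj]
  · intro h; exact absurd (Finset.mem_univ _) h

lemma Qm_mul_Pm (n : ℕ) : Qm n * Pm n = 1 := by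
  exact mul_eq_one_comm.1 (Pm_mul_Qm n)

lemma Pm_transpose (n : ℕ) : (Pm n)ᵀ = (-1 : ℝ) ^ (n - 1) • Pm n := by
  ext i j
  simp only [Matrix.transpose_apply, Pm, Matrix.of_apply, Matrix.smul_apply, smul_eq_mul]
  by_cases h : j = Fin.rev i
  · have h' : i = Fin.rev j := by rw [h, Fin.rev_rev]
    rw [if_pos h', if_pos h, h, choose_rev, ← mul_assoc]
    congr 1
    have h2 : ((Fin.rev i : Fin n) : ℕ) + i = n - 1 := by
      rw [Fin.val_rev]; omega
    rw [← h2, pow_add, mul_assoc, ← mul_pow]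
    simp
  · have h' : ¬ (i = Fin.rev j) := fun h2 => h (by rw [h2, Fin.rev_rev])
    simp [h, h']

lemma Ev_Pm (n : ℕ) (z w : Fin 2 → ℝ) (hn : 0 < n) :
    (Ev n z ᵥ* Pm n) ⬝ᵥ Ev n w = (z 1 * w 0 - z 0 * w 1) ^ (n - 1) := by
  have h1 : ∀ j, (Ev n z ᵥ* Pm n) j =
      Ev n z (Fin.rev j) * ((-1) ^ (Fin.rev j : ℕ) * ((n - 1).choose j : ℝ)) := by
    intro j
    simp only [vecMul, dotProduct, Pm, Matrix.of_apply]
    rw [Finset.sum_eq_single (Fin.rev j)]
    · rw [if_pos (Fin.rev_rev j).symm, choose_rev]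
    · intro i _ hi
      have : ¬ (j = Fin.rev i) := fun h => hi (by rw [h, Fin.rev_rev])
      simp [this]
    · intro h; exact absurd (Finset.mem_univ _) h
  simp only [dotProduct, h1]
  have h2 : (z 1 * w 0 - z 0 * w 1) = (z 1 * w 0) + (-(z 0 * w 1)) := by ring
  rw [h2, add_pow]
  obtain ⟨m, rfl⟩ : ∃ m, n = m + 1 := ⟨n - 1, by omega⟩
  simp only [Nat.add_sub_cancel]
  rw [Finset.sum_range]
  refine Finset.sum_congr rfl fun j _ => ?_
  have h3 : ((Fin.rev j : Fin (m + 1)) : ℕ) = m - j := by rw [Fin.val_rev]; omega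
  have h4 : m - (m - (j : ℕ)) = j := by omega
  simp only [Ev, h3, Nat.add_sub_cancel, h4]
  rw [neg_pow (z 0 * w 1), mul_pow (z 0), mul_pow (z 1)]
  ring

lemma ext_Ev₂ {n : ℕ} {A B : Matrix (Fin n) (Fin n) ℝ}
    (h : ∀ z w : Fin 2 → ℝ, (Ev n z ᵥ* A) ⬝ᵥ Ev n w = (Ev n z ᵥ* B) ⬝ᵥ Ev n w) : A = B := by
  apply ext_Ev
  intro z
  have h1 : (Matrix.of fun (i : Fin n) (_ : Fin 1) => (Ev n z ᵥ* A) i) =
      (Matrix.of fun (i : Fin n) (_ : Fin 1) => (Ev n z ᵥ* B) i) := by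
    apply ext_Ev
    intro w
    ext j
    have := h z w
    simp only [vecMul, dotProduct, Matrix.of_apply] at this ⊢
    calc _ = ∑ x, (∑ i, Ev n z i * A i x) * Ev n w x :=
          Finset.sum_congr rfl fun _ _ => mul_comm _ _
      _ = _ := this
      _ = _ := Finset.sum_congr rfl fun _ _ => mul_comm _ _
  ext i
  have := congrFun (congrFun h1 i) 0
  simpa using this

/-- General duality: `M(g) P = P M(adj g)ᵀ`. -/
lemma symM_mul_Pm (n : ℕ) (g : Matrix (Fin 2) (Fin 2) ℝ) :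
    symM n g * Pm n = Pm n * (symM n (adjugate g))ᵀ := by
  rcases Nat.eq_zero_or_pos n with rfl | hn
  · ext i; exact i.elim0
  apply ext_Ev₂
  intro z w
  rw [← vecMul_vecMul, ← vecMul_vecMul, Ev_vecMul_symM, Ev_Pm _ _ _ hn, ← dotProduct_mulVec,
    mulVec_transpose, Ev_vecMul_symM, Ev_Pm _ _ _ hn]
  congr 1
  simp only [vecMul, dotProduct, Fin.sum_univ_two, adjugate_fin_two, Matrix.of_apply,
    Matrix.cons_val', Matrix.cons_val_zero, Matrix.cons_val_one, Matrix.cons_val_fin_one]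
  ring

lemma trace_symM_adjugate (n : ℕ) (g : Matrix (Fin 2) (Fin 2) ℝ) :
    (symM n (adjugate g)).trace = (symM n g).trace := by
  have h := symM_mul_Pm n (adjugate g)
  have h0 : adjugate (adjugate g) = g := by
    rw [adjugate_fin_two, adjugate_fin_two]
    ext i j; fin_cases i <;> fin_cases j <;> simp
  rw [h0] at h
  have h2 : symM n (adjugate g) = Pm n * (symM n g)ᵀ * Qm n := by
    rw [← h, Matrix.mul_assoc, Pm_mul_Qm, Matrix.mul_one]
  rw [h2, Matrix.trace_mul_comm, ← Matrix.mul_assoc, Qm_mul_Pm, Matrix.one_mul,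
    Matrix.trace_transpose]

end Pool.Agent.LibHyperelliptic
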