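import Mathlib

set_option autoImplicit false

noncomputable section

open Matrix
open scoped MatrixGroups

namespace Pool.Agent.LibHyperelliptic

lemma det_unimod_aux (n : ℕ) (Y : Matrix (Fin n) (Fin n) ℝ) (h : 0 < Y.det) :
    ((Y.det ^ (-(1 / (n : ℝ)))) • Y).det = 1 := by
  rw [Matrix.det_smul, Fintype.card_fin, ← Real.rpow_natCast, ← Real.rpow_mul h.le]
  rcases Nat.eq_zero_or_pos n with rfl | hn
  · simp
  · have hn' : (n : ℝ) ≠ 0 := by exact_mod_cast hn.ne'
    have : -(1 / (n : ℝ)) * n = -1 := by field_simp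
    rw [this, Real.rpow_neg_one]
    exact inv_mul_cancel₀ h.ne'

/-- The matrix `det(Y)^(-1/n) Y` of determinant one, for `Y` of positive determinant. -/
def unimodPos (n : ℕ) (Y : Matrix (Fin n) (Fin n) ℝ) (h : 0 < Y.det) : SL(n, ℝ) :=
  ⟨(Y.det ^ (-(1 / (n : ℝ)))) • Y, det_unimod_aux n Y h⟩

/-- The retraction `Y ↦ det(Y)^(-1/n) Y` of the group of matrices of positive determinant
to `SL(n, ℝ)` (with junk value `1` outside this group). -/
def unimod (n : ℕ) (Y : Matrix (Fin n) (Fin n) ℝ) : SL(n, ℝ) :=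
  if h : 0 < Y.det then unimodPos n Y h else 1

end Pool.Agent.LibHyperelliptic
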