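import Pool.Agent.LibHyperelliptic.Unimod

set_option autoImplicit false

noncomputable section

open Matrix
open scoped MatrixGroups

namespace Pool.Agent.LibHyperelliptic

lemma unimod_val {n : ℕ} {Y : Matrix (Fin n) (Fin n) ℝ} (h : 0 < Y.det) :
    (unimod n Y : Matrix (Fin n) (Fin n) ℝ) = (Y.det ^ (-(1 / (n : ℝ)))) • Y := by
  rw [unimod, dif_pos h]; rfl

lemma sl_ext {n : ℕ} {A B : SL(n, ℝ)}
    (h : (A : Matrix (Fin n) (Fin n) ℝ) = (B : Matrix (Fin n) (Fin n) ℝ)) : A = B :=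
  Subtype.val_injective h

lemma unimod_mul {n : ℕ} {Y Z : Matrix (Fin n) (Fin n) ℝ} (h : 0 < Y.det) (h' : 0 < Z.det) :
    unimod n (Y * Z) = unimod n Y * unimod n Z := by
  have h2 : 0 < (Y * Z).det := by rw [Matrix.det_mul]; positivity
  have h3 : (unimod n (Y * Z) : Matrix (Fin n) (Fin n) ℝ) =
      (unimod n Y : Matrix (Fin n) (Fin n) ℝ) * (unimod n Z : Matrix (Fin n) (Fin n) ℝ) := by
    rw [unimod_val h, unimod_val h', unimod_val h2, Matrix.det_mul,
      Real.mul_rpow h.le h'.le, Matrix.smul_mul, Matrix.mul_smul, smul_smul]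
  exact sl_ext h3

lemma unimod_coe {n : ℕ} (M : SL(n, ℝ)) : unimod n (M : Matrix (Fin n) (Fin n) ℝ) = M := by
  have h : (M : Matrix (Fin n) (Fin n) ℝ).det = 1 := M.2
  apply sl_ext
  rw [unimod_val (by rw [h]; exact one_pos), h, Real.one_rpow, one_smul]

lemma unimod_one (n : ℕ) : unimod n 1 = 1 := unimod_coe 1

lemma unimod_inv {n : ℕ} {Y : Matrix (Fin n) (Fin n) ℝ} (h : 0 < Y.det) :
    unimod n Y⁻¹ = (unimod n Y)⁻¹ := by
  have h2 : 0 < (Y⁻¹).det := by
    rw [Matrix.det_nonsing_inv, Ring.inverse_eq_inv']; positivity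
  rw [eq_inv_iff_mul_eq_one, ← unimod_mul h2 h, Matrix.nonsing_inv_mul _ h.ne'.isUnit,
    unimod_one]

lemma unimod_smul {n : ℕ} {Y : Matrix (Fin n) (Fin n) ℝ} {c : ℝ} (hc : 0 < c) :
    unimod n (c • Y) = unimod n Y := by
  rcases Nat.eq_zero_or_pos n with rfl | hn
  · exact sl_ext (by ext i; exact i.elim0)
  have hn' : (n : ℝ) ≠ 0 := by exact_mod_cast hn.ne'
  by_cases h : 0 < Y.det
  · have h2 : 0 < (c • Y).det := by rw [Matrix.det_smul]; positivity
    apply sl_ext
    rw [unimod_val h, unimod_val h2, Matrix.det_smul, Fintype.card_fin,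
      Real.mul_rpow (by positivity) h.le, smul_smul, ← Real.rpow_natCast, ← Real.rpow_mul hc.le]
    have : (n : ℝ) * -(1 / (n : ℝ)) = -1 := by field_simp
    rw [this, Real.rpow_neg_one]
    congr 1
    field_simp
  · have h2 : ¬ 0 < (c • Y).det := by
      rw [Matrix.det_smul]
      intro h3
      exact h ((mul_pos_iff_of_pos_left (by positivity)).1 h3)
    rw [unimod, unimod, dif_neg h, dif_neg h2]

end Pool.Agent.LibHyperelliptic
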